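import Pool.Agent.Lib.MP_f46d6a_h93.Hopf1

/-!
# Weakly harmonic functions: Liouville and sub-mean-value property of squares
-/

set_option autoImplicit false

open MeasureTheory Set Filter Topology
open scoped ContDiff

namespace Pool.Agent.Lib.MP_f46d6a

open Pool.Agent.Lib.MP_dac83a

theorem vol_closedBall (z : P) {r : ℝ} (hr : 0 ≤ r) :
    volume.real (Metric.closedBall z r) = 4 * r ^ 2 := by
  rw [← Prod.mk.eta (p := z), ← closedBall_prod_same, Measure.real, Measure.volume_eq_prod,
    Measure.prod_prod, Real.volume_closedBall, Real.volume_closedBall,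
    ← ENNReal.ofReal_mul (by positivity), ENNReal.toReal_ofReal (by positivity)]
  ring

/-- Weyl's lemma, for locally integrable functions on a bounded open set -/
theorem weyl {Ω : Set P} (hΩ : IsOpen Ω) {u : P → ℝ} (hu : IntegrableOn u Ω)
    (hw : ∀ ψ, IsTest Ω ψ → ∫ z, u z * lap ψ z = 0) :
    ∃ v : P → ℝ, ContDiffOn ℝ ∞ v Ω ∧ (∀ᵐ z, z ∈ Ω → v z = u z) ∧ ∀ z ∈ Ω, lap v z = 0 := by
  have hi : Integrable (Ω.indicator u) := (integrable_indicator_iff hΩ.measurableSet).2 hu
  obtain ⟨v, h1, h2, h3⟩ := regularity hΩ (μ := 0) le_rfl hi (by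
    intro ψ hψ
    refine Eq.trans ?_ (hw ψ hψ)
    congr 1
    ext z
    by_cases hz : z ∈ Ω
    · rw [indicator_of_mem hz]; ring
    · have : z ∉ tsupport ψ := fun h => hz (hψ.sub h)
      have e : lap ψ z = 0 := by
        simp only [lap]
        rw [dd_zero_of_notMem_tsupport (fun h => this (tsupport_dd_subset ψ ex h)),
          dd_zero_of_notMem_tsupport (fun h => this (tsupport_dd_subset ψ ey h)), add_zero]
      rw [indicator_of_notMem hz, e]; ring)
  refine ⟨v, h1, ?_, ?_⟩
  · filter_upwards [h2] with z hz hzΩ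
    rw [hz hzΩ, indicator_of_mem hzΩ]
  · intro z hz
    rw [h3 z hz]; ring

/-- quantitative mean value bound -/
theorem mean_bound {Ω : Set P} (hΩ : IsOpen Ω) {v : P → ℝ} (hv : ContDiffOn ℝ ∞ v Ω)
    (hl : ∀ z ∈ Ω, lap v z = 0) {z : P} {r : ℝ} (hr : 0 < r) (hb : Metric.closedBall z r ⊆ Ω) :
    Real.smoothTransition (1 / 2) * r ^ 2 * |v z| ≤ ∫ w in Metric.closedBall z r, |v w| := by
  have hd : disc z r ⊆ Ω := (disc_subset_closedBall z hr.le).trans hb
  have key := radial_mean hΩ (hv.of_le two_le_inf) (μ := 0) (z := z) le_rfl hr (by norm_num) hd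
    (fun w hw => by rw [hl w hw]; ring)
  have hcc : cc 0 r = ∫ t, eta r t := by simp [cc]
  have hm := eta_mass hr
  have hvc : ContinuousOn v (Metric.closedBall z r) := hv.continuousOn.mono hb
  have hint : IntegrableOn (fun w => |v w|) (Metric.closedBall z r) :=
    (hvc.abs).integrableOn_compact (isCompact_closedBall z r)
  have e1 : ∫ t, eta r t * v (z + t) = ∫ w, eta r (w - z) * v w := by
    rw [← integral_add_left_eq_self (fun w => eta r (w - z) * v w) z]
    congr 1; ext t
    rw [add_sub_cancel_left]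
  have e2 : |∫ w, eta r (w - z) * v w| ≤ ∫ w in Metric.closedBall z r, |v w| := by
    have h0 : ∫ w, eta r (w - z) * v w = ∫ w in Metric.closedBall z r, eta r (w - z) * v w := by
      rw [setIntegral_eq_integral_of_forall_compl_eq_zero]
      intro w hw
      have : w - z ∉ disc 0 r := by
        intro h
        apply hw
        apply disc_subset_closedBall z hr.le
        rw [disc, mem_ofPred_eq] at h ⊢
        simpa using h
      rw [eta_zero hr this, zero_mul]
    rw [h0]
    refine abs_integral_le_integral_abs.trans ?_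
    apply integral_mono_of_nonneg (Eventually.of_forall fun w => abs_nonneg _) hint
    filter_upwards with w
    rw [abs_mul, abs_of_nonneg (eta_nonneg _ _)]
    have := eta_le_one r (w - z)
    nlinarith [abs_nonneg (v w)]
  rw [← e1, key, hcc, abs_mul, abs_of_nonneg (integral_nonneg (eta_nonneg r))] at e2
  refine le_trans ?_ e2
  exact mul_le_mul_of_nonneg_right hm (abs_nonneg _)

/-- Liouville theorem for differences of an integrable and a square integrable function -/
theorem liouville {f g : P → ℝ} (hf : Integrable f) (hg : MemLp g 2 volume)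
    (hw : ∀ ψ, IsTest univ ψ → ∫ z, (f z - g z) * lap ψ z = 0) : f =ᵐ[volume] g := by
  have hgl : LocallyIntegrable g volume := hg.locallyIntegrable (by norm_num)
  have hul : LocallyIntegrable (fun z => f z - g z) volume := hf.locallyIntegrable.sub hgl
  have hex : ∀ n : ℕ, ∃ v : P → ℝ, ContDiffOn ℝ ∞ v (Metric.ball (0 : P) n) ∧
      (∀ᵐ z, z ∈ Metric.ball (0 : P) n → v z = f z - g z) ∧
      ∀ z ∈ Metric.ball (0 : P) n, lap v z = 0 := by
    intro n
    apply weyl Metric.isOpen_ball
    · exact (hul.integrableOn_isCompact (isCompact_closedBall 0 (n : ℝ))).mono_set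
        Metric.ball_subset_closedBall
    · intro ψ hψ
      exact hw ψ (hψ.mono (subset_univ _))
  choose v v1 v2 v3 using hex
  have hst := st_half_pos
  set c := Real.smoothTransition (1 / 2) with hc
  set I1 := ∫ z, |f z| with hI1
  set I2 := √(∫ z, g z ^ 2) with hI2
  -- bound on closed balls
  have hball : ∀ (z : P) (r : ℝ), 0 < r →
      ∫ w in Metric.closedBall z r, |f w - g w| ≤ I1 + I2 * (2 * r) := by
    intro z r hr
    have i1 : IntegrableOn (fun w => |f w|) (Metric.closedBall z r) := hf.abs.integrableOn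
    have i2 : IntegrableOn (fun w => |g w|) (Metric.closedBall z r) :=
      (hgl.integrableOn_isCompact (isCompact_closedBall z r)).abs
    have h1 : ∫ w in Metric.closedBall z r, |f w - g w|
        ≤ ∫ w in Metric.closedBall z r, (|f w| + |g w|) := by
      apply integral_mono_of_nonneg (Eventually.of_forall fun w => abs_nonneg _) (i1.add i2)
      filter_upwards with w
      exact abs_sub _ _
    rw [integral_add i1 i2] at h1
    have h2 : ∫ w in Metric.closedBall z r, |f w| ≤ I1 :=
      setIntegral_le_integral hf.abs (Eventually.of_forall fun w => abs_nonneg _)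
    have h3 : ∫ w in Metric.closedBall z r, |g w| ≤ I2 * (2 * r) := by
      have hgr : MemLp g 2 (volume.restrict (Metric.closedBall z r)) :=
        hg.mono_measure Measure.restrict_le_self
      have hfin : IsFiniteMeasure ((volume : Measure P).restrict (Metric.closedBall z r)) :=
        ⟨by rw [Measure.restrict_apply_univ]; exact measure_closedBall_lt_top⟩
      have h1r : MemLp (fun _ : P => (1 : ℝ)) 2 (volume.restrict (Metric.closedBall z r)) :=
        memLp_const 1
      have := cauchy_schwarz hgr h1r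
      simp only [abs_one, mul_one, one_pow] at this
      refine this.trans ?_
      have e : √(∫ _ in Metric.closedBall z r, (1 : ℝ)) = 2 * r := by
        rw [setIntegral_const, vol_closedBall z hr.le, smul_eq_mul, mul_one,
          show 4 * r ^ 2 = (2 * r) ^ 2 by ring, Real.sqrt_sq (by positivity)]
      rw [e]
      apply mul_le_mul_of_nonneg_right _ (by positivity)
      apply Real.sqrt_le_sqrt
      exact setIntegral_le_integral hg.integrable_sq (Eventually.of_forall fun w => sq_nonneg _)
    linarith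
  have hI1' : 0 ≤ I1 := integral_nonneg fun _ => abs_nonneg _
  have hI2' : 0 ≤ I2 := Real.sqrt_nonneg _
  filter_upwards [ae_all_iff.2 v2] with z hz
  -- for every radius
  have hr : ∀ r : ℝ, 0 < r → c * r ^ 2 * |f z - g z| ≤ I1 + I2 * (2 * r) := by
    intro r hr
    obtain ⟨n, hn⟩ := exists_nat_gt (‖z‖ + r)
    have hzn : z ∈ Metric.ball (0 : P) n := by
      rw [Metric.mem_ball, dist_zero_right]; linarith
    have hsub : Metric.closedBall z r ⊆ Metric.ball (0 : P) n := by
      intro w hw
      rw [Metric.mem_closedBall] at hw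
      rw [Metric.mem_ball, dist_zero_right]
      have : ‖w‖ ≤ ‖z‖ + dist w z := by
        rw [dist_eq_norm]
        calc ‖w‖ = ‖z + (w - z)‖ := by congr 1; abel
          _ ≤ _ := norm_add_le _ _
      linarith
    have h1 := mean_bound Metric.isOpen_ball (v1 n) (v3 n) hr hsub
    have h2 : ∫ w in Metric.closedBall z r, |v n w| = ∫ w in Metric.closedBall z r, |f w - g w| := by
      apply setIntegral_congr_ae measurableSet_closedBall
      filter_upwards [v2 n] with w hw hwb
      rw [hw (hsub hwb)]
    rw [h2, hz n hzn] at h1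
    exact h1.trans (hball z r hr)
  by_contra hne
  have hpos : 0 < |f z - g z| := abs_pos.2 (sub_ne_zero.2 hne)
  set a := |f z - g z| with ha
  -- choose r large
  have h1 := hr (1 + (I1 + 2 * I2 + 1) / (c * a)) (by positivity)
  set r := 1 + (I1 + 2 * I2 + 1) / (c * a) with hrdef
  have hr1 : 1 ≤ r := by
    have : 0 ≤ (I1 + 2 * I2 + 1) / (c * a) := by positivity
    linarith
  have hr2 : (I1 + 2 * I2 + 1) ≤ c * a * r := by
    rw [hrdef, mul_add, mul_one, mul_div_cancel₀ _ (by positivity)]
    have : 0 < c * a := by positivity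
    linarith
  have h3 : (I1 + 2 * I2 + 1) * r ≤ c * a * r * r := mul_le_mul_of_nonneg_right hr2 (by linarith)
  nlinarith

/-- integration by parts twice -/
theorem ibp2 {Ω : Set P} (hΩ : IsOpen Ω) {W g : P → ℝ} (hW : ContDiffOn ℝ 2 W Ω)
    (hg : ContDiff ℝ 2 g) (hc : HasCompactSupport g) (hs : tsupport g ⊆ Ω) :
    ∫ z, W z * lap g z = ∫ z, g z * lap W z := by
  have hK : IsCompact (tsupport g) := hc
  have tg : IsTest1 Ω g := ⟨hg.of_le (by norm_num), hc, hs⟩
  have tg1 : ∀ v, IsTest1 Ω (dd v g) := fun v =>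
    ⟨dd_contDiff (m := 1) hg (by norm_num) v, dd_hasCompactSupport hc v,
      (tsupport_dd_subset g v).trans hs⟩
  have hW1 : ∀ v, ContDiffOn ℝ 1 (dd v W) Ω := fun v => dd_contDiffOn hΩ hW (by norm_num) v
  have hW2 : ∀ v, ContinuousOn (dd v (dd v W)) Ω := fun v =>
    (dd_contDiffOn (m := 0) hΩ (hW1 v) (by norm_num) v).continuousOn
  have hg2 : ∀ v, Continuous (dd v (dd v g)) := fun v =>
    (dd_contDiff (m := 0) (tg1 v).smooth (by norm_num) v).continuous
  have e : ∀ v, ∫ z, W z * dd v (dd v g) z = ∫ z, g z * dd v (dd v W) z := by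
    intro v
    have e1 := ibp hΩ tg (hW1 v) v
    have e2 := ibp hΩ (tg1 v) (hW.of_le (by norm_num)) v
    rw [e1, e2, neg_neg]
    congr 1; ext z; ring
  have i1 : ∀ v, Integrable (fun z => W z * dd v (dd v g) z) := by
    intro v
    refine integrable_of_vanish hΩ hK hs (hW.continuousOn.mul (hg2 v).continuousOn) ?_
    intro z hz
    rw [dd_zero_of_notMem_tsupport (fun h => hz (tsupport_dd_subset g v h)), mul_zero]
  have i2 : ∀ v, Integrable (fun z => g z * dd v (dd v W) z) := by
    intro v
    refine integrable_of_vanish hΩ hK hs (hg.continuous.continuousOn.mul (hW2 v)) ?_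
    intro z hz
    rw [image_eq_zero_of_notMem_tsupport hz, zero_mul]
  simp only [lap, mul_add]
  rw [integral_add (i1 ex) (i1 ey), integral_add (i2 ex) (i2 ey), e, e]

/-- the Laplacian of the square of a harmonic function -/
theorem lap_sq_nonneg {Ω : Set P} (hΩ : IsOpen Ω) {v : P → ℝ} (hv : ContDiffOn ℝ ∞ v Ω)
    (hl : ∀ z ∈ Ω, lap v z = 0) : ∀ z ∈ Ω, 0 ≤ lap (fun z => v z ^ 2) z := by
  have hd : ∀ z ∈ Ω, DifferentiableAt ℝ v z := fun z hz =>
    (hv.contDiffAt (hΩ.mem_nhds hz)).differentiableAt (by simp)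
  have hv1 : ∀ w, ContDiffOn ℝ ∞ (dd w v) Ω := fun w => dd_contDiffOn hΩ hv (by simp) w
  have hd1 : ∀ w, ∀ z ∈ Ω, DifferentiableAt ℝ (dd w v) z := fun w z hz =>
    ((hv1 w).contDiffAt (hΩ.mem_nhds hz)).differentiableAt (by simp)
  have e1 : ∀ w, ∀ z ∈ Ω, dd w (fun z => v z ^ 2) z = 2 * (v z * dd w v z) := by
    intro w z hz
    have : (fun z => v z ^ 2) = fun z => v z * v z := by ext z; ring
    rw [this, dd_mul (hd z hz) (hd z hz)]; ring
  have e2 : ∀ w, ∀ z ∈ Ω, dd w (dd w (fun z => v z ^ 2)) z
      = 2 * (v z * dd w (dd w v) z + dd w v z * dd w v z) := by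
    intro w z hz
    rw [dd_congr hΩ (e1 w) w z hz, dd_const_mul ((hd z hz).fun_mul (hd1 w z hz)),
      dd_mul (hd z hz) (hd1 w z hz)]
  intro z hz
  have h0 := hl z hz
  simp only [lap] at h0 ⊢
  rw [e2 ex z hz, e2 ey z hz]
  have : 0 ≤ 2 * (dd ex v z * dd ex v z + dd ey v z * dd ey v z) := by
    nlinarith [mul_self_nonneg (dd ex v z), mul_self_nonneg (dd ey v z)]
  have h2 : v z * (dd ex (dd ex v) z + dd ey (dd ey v) z) = 0 := by rw [h0, mul_zero]
  linarith

/-- monotonicity of the averages of the square of a weakly harmonic function -/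
theorem submean {u : P → ℝ} (hu : MemLp u 2 volume) (y : P) {s : ℝ} (hs : 0 < s)
    (hw : ∀ ψ, IsTest (Metric.ball y (2 * s)) ψ → ∫ z, u z * lap ψ z = 0) :
    av (s / 2) (fun z => u z ^ 2) y ≤ av s (fun z => u z ^ 2) y := by
  set Ω := Metric.ball y (2 * s) with hΩd
  have hΩ : IsOpen Ω := Metric.isOpen_ball
  have huO : IntegrableOn u Ω :=
    ((hu.locallyIntegrable (by norm_num)).integrableOn_isCompact
      (isCompact_closedBall y (2 * s))).mono_set Metric.ball_subset_closedBall
  obtain ⟨v, v1, v2, v3⟩ := weyl hΩ huO hw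
  have hs2 : 0 < s / 2 := by positivity
  have hle : s / 2 ≤ s := by linarith
  set g : P → ℝ := fun z => gk (s / 2) s (z - y) with hg
  have g2 : ContDiff ℝ 2 g := gkt_contDiff hs2 hle y
  have gc : HasCompactSupport g := cpt_trans (gk_cpt hs2 hle) y
  have gsupp : tsupport g ⊆ Metric.closedBall y s := by
    apply closure_minimal _ Metric.isClosed_closedBall
    intro z hz
    have := gk_support hs2 hle hz
    rw [Metric.mem_closedBall, dist_zero_right] at this
    rwa [Metric.mem_closedBall, dist_eq_norm]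
  have hsub : Metric.closedBall y s ⊆ Ω := Metric.closedBall_subset_ball (by linarith)
  have gs : tsupport g ⊆ Ω := gsupp.trans hsub
  have hW : ContDiffOn ℝ 2 (fun z => v z ^ 2) Ω := (v1.of_le two_le_inf).pow 2
  have key := ibp2 hΩ hW g2 gc gs
  have hpos : 0 ≤ ∫ z, g z * lap (fun z => v z ^ 2) z := by
    apply integral_nonneg
    intro z
    by_cases hz : z ∈ Ω
    · exact mul_nonneg (gk_nonneg hs2 hle _) (lap_sq_nonneg hΩ v1 v3 z hz)
    · have : g z = 0 := image_eq_zero_of_notMem_tsupport (fun h => hz (gs h))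
      simp [this]
  rw [← key] at hpos
  have hlap : ∀ z, lap g z = mker s (z - y) - mker (s / 2) (z - y) := by
    intro z
    rw [hg, lap_trans, lap_gk hs2 hle]
  have e : ∫ z, v z ^ 2 * lap g z = ∫ z, (u z ^ 2 * mker s (z - y) - u z ^ 2 * mker (s / 2) (z - y)) := by
    apply integral_congr_ae
    filter_upwards [v2] with z hz
    rw [hlap]
    by_cases hzO : z ∈ Ω
    · rw [hz hzO]; ring
    · have h1 : mker s (z - y) = 0 := by
        by_contra h
        have := mk_support hs h
        rw [Metric.mem_closedBall, dist_zero_right, ← dist_eq_norm] at this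
        exact hzO (hsub this)
      have h2 : mker (s / 2) (z - y) = 0 := by
        by_contra h
        have := mk_support hs2 h
        rw [Metric.mem_closedBall, dist_zero_right, ← dist_eq_norm] at this
        exact hzO (hsub (Metric.mem_closedBall.2 (by linarith)))
      rw [h1, h2]; ring
  have ib : ∀ {t : ℝ}, 0 < t → Integrable (fun z => u z ^ 2 * mker t (z - y)) := by
    intro t ht
    refine (hu.integrable_sq.mul_bdd (c := 24 / t ^ 2) ?_ ?_)
    · exact ((mk_cont ht).comp (by fun_prop : Continuous fun z : P => z - y)).aestronglyMeasurable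
    · filter_upwards with z
      rw [Real.norm_eq_abs, abs_of_nonneg (mk_nonneg _ _)]
      exact mk_le ht _
  rw [e, integral_sub (ib hs) (ib hs2)] at hpos
  simp only [av]
  linarith

end Pool.Agent.Lib.MP_f46d6a
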