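import Pool.Agent.Lib.MP_f46d6a_h93.Hopf2

/-!
# Global and local estimates for the Hopf differential (module M4)
-/

set_option autoImplicit false

open MeasureTheory Set Filter Topology
open scoped ContDiff

namespace Pool.Agent.Lib.MP_f46d6a

open Pool.Agent.Lib.MP_dac83a

theorem dd_negm {f : P → ℝ} (v z : P) : dd v (fun z => (-1) * f z) z = - dd v f z := by
  have : (fun z => (-1) * f z) = fun z => - f z := by ext z; ring
  rw [this]
  simp only [dd]
  rw [fderiv_fun_neg]; rfl

/-- first component: weakly harmonic -/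
theorem wh_A {Ω : Set P} {A B : P → ℝ}
    (h : ∀ X Y : P → ℝ, IsTest Ω X → IsTest Ω Y →
      ∫ z, (A z * (dd ex X z - dd ey Y z) + B z * (dd ey X z + dd ex Y z)) = 0) :
    ∀ ψ, IsTest Ω ψ → ∫ z, A z * lap ψ z = 0 := by
  intro ψ hψ
  have := h (dd ex ψ) (fun z => (-1) * dd ey ψ z) (hψ.dd ex) ((hψ.dd ey).const_mul (-1))
  rw [← this]
  congr 1
  ext z
  rw [dd_negm, dd_negm, dd_comm2 (hψ.smooth.of_le two_le_inf) ex ey z]
  simp only [lap]; ring

/-- second component: weakly harmonic -/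
theorem wh_B {Ω : Set P} {A B : P → ℝ}
    (h : ∀ X Y : P → ℝ, IsTest Ω X → IsTest Ω Y →
      ∫ z, (A z * (dd ex X z - dd ey Y z) + B z * (dd ey X z + dd ex Y z)) = 0) :
    ∀ ψ, IsTest Ω ψ → ∫ z, B z * lap ψ z = 0 := by
  intro ψ hψ
  have := h (dd ey ψ) (dd ex ψ) (hψ.dd ey) (hψ.dd ex)
  rw [← this]
  congr 1
  ext z
  rw [dd_comm2 (hψ.smooth.of_le two_le_inf) ex ey z]
  simp only [lap]; ring

/-- integrability of the products occurring in the stress identity (`L¹` case) -/
theorem int_l1 {A φ : P → ℝ} (hA : Integrable A) (hφ : IsTest univ φ) :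
    Integrable (fun z => A z * φ z) := by
  obtain ⟨C, hC⟩ := hφ.smooth.continuous.bounded_above_of_compact_support hφ.cpt
  exact hA.mul_bdd (c := C) hφ.smooth.continuous.aestronglyMeasurable
    (Eventually.of_forall fun z => hC z)

theorem hopf_global {A B Θ : P → ℝ} (hA : Integrable A) (hB : Integrable B)
    (hΘ : MemLp Θ 2 volume) (h : StressId A B Θ) :
    MemLp A 2 volume ∧ MemLp B 2 volume ∧ ∫ z, (A z ^ 2 + B z ^ 2) ≤ ∫ z, Θ z ^ 2 := by
  obtain ⟨A1, B1, m1, m2, h1, h2⟩ := riesz hΘ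
  have hdiff : ∀ X Y : P → ℝ, IsTest univ X → IsTest univ Y →
      ∫ z, ((A z - A1 z) * (dd ex X z - dd ey Y z)
        + (B z - B1 z) * (dd ey X z + dd ex Y z)) = 0 := by
    intro X Y hX hY
    have e1 := h X Y hX hY
    have e2 := h1 X Y hX hY
    have hx := (hX.dd ex)
    have hy := (hX.dd ey)
    have hx' := (hY.dd ex)
    have hy' := (hY.dd ey)
    have i1 : Integrable (fun z => A z * (dd ex X z - dd ey Y z)) :=
      ((int_l1 hA hx).sub (int_l1 hA hy')).congr (by
        filter_upwards with z; simp only [Pi.sub_apply]; ring)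
    have i2 : Integrable (fun z => B z * (dd ey X z + dd ex Y z)) :=
      ((int_l1 hB hy).add (int_l1 hB hx')).congr (by
        filter_upwards with z; simp only [Pi.add_apply]; ring)
    have i3 : Integrable (fun z => Θ z * (dd ex X z + dd ey Y z)) :=
      integrable_mul2 hΘ (Fd_mem hX hY)
    have j1 : Integrable (fun z => A1 z * (dd ex X z - dd ey Y z)) :=
      integrable_mul2 m1 (Fa_mem hX hY)
    have j2 : Integrable (fun z => B1 z * (dd ey X z + dd ex Y z)) :=
      integrable_mul2 m2 (Fb_mem hX hY)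
    have k1 : Integrable (fun z => A z * (dd ex X z - dd ey Y z) + B z * (dd ey X z + dd ex Y z)
        + Θ z * (dd ex X z + dd ey Y z)) := (i1.add i2).add i3
    have k2 : Integrable (fun z => A1 z * (dd ex X z - dd ey Y z) + B1 z * (dd ey X z + dd ex Y z)
        + Θ z * (dd ex X z + dd ey Y z)) := (j1.add j2).add i3
    have e3 := integral_sub k1 k2
    rw [e1, e2, sub_zero] at e3
    rw [← e3]
    congr 1; ext z; ring
  have hAe : A =ᵐ[volume] A1 := liouville hA m1 (fun ψ hψ => wh_A hdiff ψ hψ)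
  have hBe : B =ᵐ[volume] B1 := liouville hB m2 (fun ψ hψ => wh_B hdiff ψ hψ)
  refine ⟨(memLp_congr_ae hAe).2 m1, (memLp_congr_ae hBe).2 m2, ?_⟩
  refine le_trans (le_of_eq ?_) h2
  apply integral_congr_ae
  filter_upwards [hAe, hBe] with z e1 e2
  rw [e1, e2]

/-- Minkowski's inequality for a quadratic form, abstractly -/
theorem mink {p q c : ℝ} (hp : 0 ≤ p) (hq : 0 ≤ q) (h : ∀ t : ℝ, 0 ≤ q * (t * t) + 2 * c * t + p) :
    √(p + 2 * c + q) ≤ √p + √q := by
  have hd := discrim_le_zero h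
  rw [discrim] at hd
  have hc : c ^ 2 ≤ p * q := by nlinarith
  have h1 : c ≤ √p * √q := by
    rw [← Real.sqrt_mul hp]
    exact Real.le_sqrt_of_sq_le hc
  rw [Real.sqrt_le_left (by positivity)]
  have e1 := Real.sq_sqrt hp
  have e2 := Real.sq_sqrt hq
  nlinarith

/-- integrability against the kernel -/
theorem ker_int {F : P → ℝ} (hF : Integrable F) {s : ℝ} (hs : 0 < s) (y : P) :
    Integrable (fun z => F z * mker s (z - y)) := by
  refine (hF.mul_bdd (c := 24 / s ^ 2) ?_ ?_)
  · exact ((mk_cont hs).comp (by fun_prop : Continuous fun z : P => z - y)).aestronglyMeasurable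
  · filter_upwards with z
    rw [Real.norm_eq_abs, abs_of_nonneg (mk_nonneg _ _)]
    exact mk_le hs _

theorem av_nonneg {F : P → ℝ} (hF : ∀ z, 0 ≤ F z) (s : ℝ) (y : P) : 0 ≤ av s F y :=
  integral_nonneg fun z => mul_nonneg (hF z) (mk_nonneg _ _)

/-- crude bound of the average -/
theorem av_le {F : P → ℝ} (hF : Integrable F) (h0 : ∀ z, 0 ≤ F z) {s : ℝ} (hs : 0 < s) (y : P) :
    av s F y ≤ 24 / s ^ 2 * ∫ z, F z := by
  unfold av
  rw [← integral_const_mul]
  apply integral_mono (ker_int hF hs y) (hF.const_mul _)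
  intro z
  have := mk_le hs (z - y)
  have := h0 z
  simp only
  nlinarith

/-- Minkowski for the averages -/
theorem av_mink {A B A' B' : P → ℝ} (hA : MemLp A 2 volume) (hB : MemLp B 2 volume)
    (hA' : MemLp A' 2 volume) (hB' : MemLp B' 2 volume) {s : ℝ} (hs : 0 < s) (y : P) :
    √(av s (fun z => (A z + A' z) ^ 2 + (B z + B' z) ^ 2) y)
      ≤ √(av s (fun z => A z ^ 2 + B z ^ 2) y) + √(av s (fun z => A' z ^ 2 + B' z ^ 2) y) := by
  set c := ∫ z, (A z * A' z + B z * B' z) * mker s (z - y) with hc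
  have i1 : Integrable (fun z => (A z ^ 2 + B z ^ 2) * mker s (z - y)) :=
    ker_int (hA.integrable_sq.add hB.integrable_sq) hs y
  have i2 : Integrable (fun z => (A z * A' z + B z * B' z) * mker s (z - y)) :=
    ker_int ((integrable_mul2 hA hA').add (integrable_mul2 hB hB')) hs y
  have i3 : Integrable (fun z => (A' z ^ 2 + B' z ^ 2) * mker s (z - y)) :=
    ker_int (hA'.integrable_sq.add hB'.integrable_sq) hs y
  have gen : ∀ t : ℝ, ∫ z, ((A z + t * A' z) ^ 2 + (B z + t * B' z) ^ 2) * mker s (z - y)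
      = 1 * av s (fun z => A z ^ 2 + B z ^ 2) y + (2 * t) * c
        + t ^ 2 * av s (fun z => A' z ^ 2 + B' z ^ 2) y := by
    intro t
    simp only [av, hc]
    rw [← int3 i1 i2 i3]
    congr 1; ext z; ring
  have e : av s (fun z => (A z + A' z) ^ 2 + (B z + B' z) ^ 2) y
      = av s (fun z => A z ^ 2 + B z ^ 2) y + 2 * c + av s (fun z => A' z ^ 2 + B' z ^ 2) y := by
    have := gen 1
    simp only [one_mul, mul_one, one_pow] at this
    exact this
  rw [e]
  apply mink
  · exact av_nonneg (fun z => by positivity) s y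
  · exact av_nonneg (fun z => by positivity) s y
  · intro t
    have h0 : 0 ≤ ∫ z, ((A z + t * A' z) ^ 2 + (B z + t * B' z) ^ 2) * mker s (z - y) :=
      integral_nonneg fun z => mul_nonneg (by positivity) (mk_nonneg _ _)
    rw [gen t] at h0
    nlinarith

theorem hopf_step : ∃ C > 0, ∀ (A B Θ : P → ℝ), MemLp A 2 volume → MemLp B 2 volume →
    MemLp Θ 2 volume → StressId A B Θ →
    ∀ M, (∀ᵐ z, |Θ z| ≤ M) → ∀ (y : P) (s : ℝ), 0 < s →
    √(av (s/2) (fun z => A z ^ 2 + B z ^ 2) y) ≤ √(av s (fun z => A z ^ 2 + B z ^ 2) y) + C * M := by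
  refine ⟨60, by norm_num, ?_⟩
  intro A B Θ hA hB hΘ hst M hM y s hs
  have hM0 : 0 ≤ M := by
    obtain ⟨z, hz⟩ := hM.exists
    exact (abs_nonneg _).trans hz
  set K := Metric.closedBall y (2 * s) with hK
  have hKm : MeasurableSet K := measurableSet_closedBall
  set h : P → ℝ := K.indicator Θ with hh
  have hhm : MemLp h 2 volume := hΘ.indicator hKm
  obtain ⟨A1, B1, m1, m2, h1, h2⟩ := riesz hhm
  have hint : ∫ z, h z ^ 2 ≤ M ^ 2 * (4 * (2 * s) ^ 2) := by
    have e : (fun z => h z ^ 2) = K.indicator (fun z => Θ z ^ 2) := by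
      ext z
      by_cases hz : z ∈ K
      · simp [hh, indicator_of_mem hz]
      · simp [hh, indicator_of_notMem hz]
    rw [e, integral_indicator hKm]
    calc ∫ z in K, Θ z ^ 2 ≤ ∫ z in K, M ^ 2 := by
          apply setIntegral_mono_ae hΘ.integrable_sq.integrableOn
            (integrableOn_const measure_closedBall_lt_top.ne)
          filter_upwards [hM] with z hz
          rw [← sq_abs]
          exact pow_le_pow_left₀ (abs_nonneg _) hz 2
      _ = M ^ 2 * (4 * (2 * s) ^ 2) := by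
          rw [setIntegral_const, vol_closedBall y (by positivity), smul_eq_mul, mul_comm]
  -- the difference
  have mA : MemLp (fun z => A z - A1 z) 2 volume := hA.sub m1
  have mB : MemLp (fun z => B z - B1 z) 2 volume := hB.sub m2
  have hdiff : ∀ X Y : P → ℝ, IsTest (Metric.ball y (2 * s)) X → IsTest (Metric.ball y (2 * s)) Y →
      ∫ z, ((A z - A1 z) * (dd ex X z - dd ey Y z)
        + (B z - B1 z) * (dd ey X z + dd ex Y z)) = 0 := by
    intro X Y hX' hY'
    have hX := hX'.mono (subset_univ _)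
    have hY := hY'.mono (subset_univ _)
    have e1 := hst X Y hX hY
    have e2 := h1 X Y hX hY
    have i1 : Integrable (fun z => A z * (dd ex X z - dd ey Y z)) :=
      integrable_mul2 hA (Fa_mem hX hY)
    have i2 : Integrable (fun z => B z * (dd ey X z + dd ex Y z)) :=
      integrable_mul2 hB (Fb_mem hX hY)
    have i3 : Integrable (fun z => Θ z * (dd ex X z + dd ey Y z)) :=
      integrable_mul2 hΘ (Fd_mem hX hY)
    have j1 : Integrable (fun z => A1 z * (dd ex X z - dd ey Y z)) :=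
      integrable_mul2 m1 (Fa_mem hX hY)
    have j2 : Integrable (fun z => B1 z * (dd ey X z + dd ex Y z)) :=
      integrable_mul2 m2 (Fb_mem hX hY)
    have j3 : Integrable (fun z => h z * (dd ex X z + dd ey Y z)) :=
      integrable_mul2 hhm (Fd_mem hX hY)
    have k1 : Integrable (fun z => A z * (dd ex X z - dd ey Y z) + B z * (dd ey X z + dd ex Y z)
        + Θ z * (dd ex X z + dd ey Y z)) := (i1.add i2).add i3
    have k2 : Integrable (fun z => A1 z * (dd ex X z - dd ey Y z) + B1 z * (dd ey X z + dd ex Y z)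
        + h z * (dd ex X z + dd ey Y z)) := (j1.add j2).add j3
    have e3 := integral_sub k1 k2
    rw [e1, e2, sub_zero] at e3
    rw [← e3]
    congr 1; ext z
    by_cases hz : z ∈ K
    · simp only [hh, indicator_of_mem hz]; ring
    · have hx : z ∉ tsupport X := fun hc => hz (Metric.ball_subset_closedBall (hX'.sub hc))
      have hy : z ∉ tsupport Y := fun hc => hz (Metric.ball_subset_closedBall (hY'.sub hc))
      rw [dd_zero_of_notMem_tsupport hx, dd_zero_of_notMem_tsupport hx,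
        dd_zero_of_notMem_tsupport hy, dd_zero_of_notMem_tsupport hy]
      ring
  have sA := submean mA y hs (fun ψ hψ => wh_A hdiff ψ hψ)
  have sB := submean mB y hs (fun ψ hψ => wh_B hdiff ψ hψ)
  have hadd : ∀ {t : ℝ}, 0 < t → av t (fun z => (A z - A1 z) ^ 2 + (B z - B1 z) ^ 2) y
      = av t (fun z => (A z - A1 z) ^ 2) y + av t (fun z => (B z - B1 z) ^ 2) y := by
    intro t ht
    simp only [av]
    rw [← integral_add (ker_int mA.integrable_sq ht y) (ker_int mB.integrable_sq ht y)]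
    congr 1; ext z; ring
  have hs2 : 0 < s / 2 := by positivity
  have sAB : av (s / 2) (fun z => (A z - A1 z) ^ 2 + (B z - B1 z) ^ 2) y
      ≤ av s (fun z => (A z - A1 z) ^ 2 + (B z - B1 z) ^ 2) y := by
    rw [hadd hs, hadd hs2]; linarith
  -- triangle inequalities
  have t1 := av_mink mA mB m1 m2 hs2 y
  simp only [sub_add_cancel] at t1
  have t2 := av_mink hA hB m1.neg m2.neg hs y
  simp only [Pi.neg_apply, ← sub_eq_add_neg, neg_sq] at t2
  have b0 : Integrable (fun z => A1 z ^ 2 + B1 z ^ 2) := m1.integrable_sq.add m2.integrable_sq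
  have b1 : av (s / 2) (fun z => A1 z ^ 2 + B1 z ^ 2) y ≤ (40 * M) ^ 2 := by
    refine (av_le b0 (fun z => by positivity) hs2 y).trans ?_
    have hb : ∫ z, (A1 z ^ 2 + B1 z ^ 2) ≤ M ^ 2 * (4 * (2 * s) ^ 2) := h2.trans hint
    calc 24 / (s / 2) ^ 2 * ∫ z, (A1 z ^ 2 + B1 z ^ 2)
        ≤ 24 / (s / 2) ^ 2 * (M ^ 2 * (4 * (2 * s) ^ 2)) := by gcongr
      _ = 1536 * M ^ 2 := by field_simp; ring
      _ ≤ (40 * M) ^ 2 := by nlinarith [sq_nonneg M]
  have b2 : av s (fun z => A1 z ^ 2 + B1 z ^ 2) y ≤ (20 * M) ^ 2 := by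
    refine (av_le b0 (fun z => by positivity) hs y).trans ?_
    have hb : ∫ z, (A1 z ^ 2 + B1 z ^ 2) ≤ M ^ 2 * (4 * (2 * s) ^ 2) := h2.trans hint
    calc 24 / s ^ 2 * ∫ z, (A1 z ^ 2 + B1 z ^ 2)
        ≤ 24 / s ^ 2 * (M ^ 2 * (4 * (2 * s) ^ 2)) := by gcongr
      _ = 384 * M ^ 2 := by field_simp; ring
      _ ≤ (20 * M) ^ 2 := by nlinarith [sq_nonneg M]
  have c1 : √(av (s / 2) (fun z => A1 z ^ 2 + B1 z ^ 2) y) ≤ 40 * M := by
    rw [Real.sqrt_le_left (by positivity)]; exact b1
  have c2 : √(av s (fun z => A1 z ^ 2 + B1 z ^ 2) y) ≤ 20 * M := by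
    rw [Real.sqrt_le_left (by positivity)]; exact b2
  have c3 := Real.sqrt_le_sqrt sAB
  linarith

/-- the annulus of the kernel centred at `y + (0.78 s, 0)` contains a ball around `y` -/
theorem mker_ge_ball (y : P) {s : ℝ} (hs : 0 < s) {z : P}
    (hz : z ∈ Metric.closedBall y (3 / 100 * s)) :
    3 / s ^ 2 ≤ mker s (z - (y + (78 / 100 * s, 0))) := by
  rw [Metric.mem_closedBall, dist_eq_norm, Prod.norm_def, max_le_iff, Real.norm_eq_abs,
    Real.norm_eq_abs, abs_le, abs_le] at hz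
  obtain ⟨⟨a1, a2⟩, b1, b2⟩ := hz
  have e : r2 (z - (y + (78 / 100 * s, 0))) = ((z - y).1 - 78 / 100 * s) ^ 2 + (z - y).2 ^ 2 := by
    simp only [r2, Prod.fst_sub, Prod.snd_sub, Prod.fst_add, Prod.snd_add]; ring
  have hx1 : Real.exp (-(3 / 5)) ≤ 75 ^ 2 / 10000 := by
    have h := Real.exp_bound_div_one_sub_of_interval (x := 3 / 5) (by norm_num) (by norm_num)
    have h5 : Real.exp (-(3 / 5)) * Real.exp (3 / 5) = 1 := by
      rw [← Real.exp_add]; norm_num
    have h6 : (16 / 9 : ℝ) ≤ Real.exp (3 / 5) := by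
      have := Real.quadratic_le_exp_of_nonneg (x := 3 / 5) (by norm_num)
      have h7 : (3 / 5 : ℝ) = 1 / 5 + 2 / 5 := by norm_num
      have q1 := Real.quadratic_le_exp_of_nonneg (x := 1 / 5) (by norm_num)
      have : Real.exp (3 / 5) = Real.exp (1 / 5) ^ 3 := by
        rw [← Real.exp_nat_mul]; norm_num
      rw [this]
      calc (16 / 9 : ℝ) ≤ (1 + 1 / 5 + (1 / 5) ^ 2 / 2) ^ 3 := by norm_num
        _ ≤ _ := by gcongr
    have h8 := Real.exp_pos (-(3 / 5))
    nlinarith
  have hx2 : (6579 / 10000 : ℝ) ≤ Real.exp (-(2 / 5)) := by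
    have q := Real.one_sub_le_exp_neg (1 / 50 : ℝ)
    have : Real.exp (-(2 / 5)) = Real.exp (-(1 / 50)) ^ 20 := by
      rw [← Real.exp_nat_mul]; norm_num
    rw [this]
    calc (6579 / 10000 : ℝ) ≤ (1 - 1 / 50) ^ 20 := by norm_num
      _ ≤ _ := by gcongr
  apply mk_ge hs
  · rw [e]
    have h1 : (75 / 100 * s) ^ 2 ≤ ((z - y).1 - 78 / 100 * s) ^ 2 := by nlinarith
    nlinarith [sq_nonneg (z - y).2, sq_nonneg s]
  · rw [e]
    have h1 : ((z - y).1 - 78 / 100 * s) ^ 2 ≤ (81 / 100 * s) ^ 2 := by nlinarith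
    have h2 : (z - y).2 ^ 2 ≤ (3 / 100 * s) ^ 2 := by nlinarith
    nlinarith [sq_nonneg s]

/-- lower bound of the average -/
theorem av_ge_ball {F : P → ℝ} (hF : Integrable F) (h0 : ∀ z, 0 ≤ F z) (y : P) {s : ℝ}
    (hs : 0 < s) : ∫ z in Metric.closedBall y (3 / 100 * s), F z
      ≤ s ^ 2 / 3 * av s F (y + (78 / 100 * s, 0)) := by
  have h1 : ∫ z in Metric.closedBall y (3 / 100 * s), 3 / s ^ 2 * F z
      ≤ av s F (y + (78 / 100 * s, 0)) := by
    unfold av
    calc ∫ z in Metric.closedBall y (3 / 100 * s), 3 / s ^ 2 * F z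
        ≤ ∫ z in Metric.closedBall y (3 / 100 * s), F z * mker s (z - (y + (78 / 100 * s, 0))) := by
          apply setIntegral_mono_on (hF.const_mul _).integrableOn (ker_int hF hs _).integrableOn
            measurableSet_closedBall
          intro z hz
          rw [mul_comm]
          exact mul_le_mul_of_nonneg_left (mker_ge_ball y hs hz) (h0 z)
      _ ≤ _ := setIntegral_le_integral (ker_int hF hs _)
          (Eventually.of_forall fun z => mul_nonneg (h0 z) (mk_nonneg _ _))
  rw [integral_const_mul] at h1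
  have h2 : s ^ 2 / 3 * (3 / s ^ 2 * ∫ z in Metric.closedBall y (3 / 100 * s), F z)
      = ∫ z in Metric.closedBall y (3 / 100 * s), F z := by field_simp
  rw [← h2]
  gcongr

/-- upper bound of the average at scale one by a local integral -/
theorem av_one_le {F : P → ℝ} (hF : Integrable F) (h0 : ∀ z, 0 ≤ F z) {y y' : P}
    (hy : dist y' y ≤ 1) : av 1 F y' ≤ 24 * ∫ z in Metric.closedBall y 2, F z := by
  have e : av 1 F y' = ∫ z in Metric.closedBall y 2, F z * mker 1 (z - y') := by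
    unfold av
    rw [setIntegral_eq_integral_of_forall_compl_eq_zero]
    intro z hz
    have : mker 1 (z - y') = 0 := by
      by_contra h
      have h1 := mk_support one_pos h
      rw [Metric.mem_closedBall, dist_zero_right, ← dist_eq_norm] at h1
      apply hz
      rw [Metric.mem_closedBall]
      calc dist z y ≤ dist z y' + dist y' y := dist_triangle _ _ _
        _ ≤ 2 := by linarith
    rw [this, mul_zero]
  rw [e, ← integral_const_mul]
  apply integral_mono (ker_int hF one_pos y').integrableOn (hF.const_mul _).integrableOn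
  intro z
  have h1 := mk_le one_pos (z - y')
  have h2 := h0 z
  simp only
  nlinarith

theorem hopf_local : ∃ C > 0, ∀ (A B Θ : P → ℝ), MemLp A 2 volume → MemLp B 2 volume →
    MemLp Θ 2 volume → StressId A B Θ →
    ∀ M, 0 ≤ M → (∀ᵐ z, |Θ z| ≤ M) → ∀ y : P,
    (∫ z in Metric.closedBall y 2, (A z ^ 2 + B z ^ 2)) ≤ 1 → ∀ r, 0 < r → r ≤ 1/2 →
    ∫ z in Metric.closedBall y r, (A z ^ 2 + B z ^ 2)
      ≤ C * (1 + M)^2 * r^2 * (1 + Real.log (1/r))^2 := by
  obtain ⟨C0, hC0, step⟩ := hopf_step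
  refine ⟨1500 * (5 + 2 * C0) ^ 2, by positivity, ?_⟩
  intro A B Θ hA hB hΘ hst M hM0 hM y hy r hr hr2
  set F : P → ℝ := fun z => A z ^ 2 + B z ^ 2 with hF
  have hFi : Integrable F := hA.integrable_sq.add hB.integrable_sq
  have hF0 : ∀ z, 0 ≤ F z := fun z => by positivity
  have hL : 0 ≤ Real.log (1 / r) := Real.log_nonneg (by rw [le_div_iff₀ hr]; linarith)
  set L := Real.log (1 / r) with hLd
  rcases le_or_gt r (3 / 100) with hr3 | hr3
  · -- small radius
    obtain ⟨k, hk1, hk2⟩ := exists_nat_pow_near_of_lt_one (x := r / (3 / 100)) (y := (1 / 2 : ℝ))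
      (by positivity) (by rw [div_le_one (by norm_num)]; exact hr3) (by norm_num) (by norm_num)
    set s : ℝ := (1 / 2 : ℝ) ^ k with hs
    have hsp : 0 < s := by positivity
    have hs1 : s ≤ 1 := pow_le_one₀ (by norm_num) (by norm_num)
    set y' : P := y + (78 / 100 * s, 0) with hy'
    have hdist : dist y' y ≤ 1 := by
      rw [dist_eq_norm, hy', add_sub_cancel_left, Prod.norm_def, max_le_iff]
      refine ⟨?_, by simp⟩
      rw [Real.norm_eq_abs, abs_of_nonneg (by positivity)]
      linarith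
    have iter : ∀ j : ℕ, √(av ((1 / 2 : ℝ) ^ j) F y') ≤ √(av 1 F y') + j * (C0 * M) := by
      intro j
      induction j with
      | zero => simp
      | succ j ih =>
        have h1 := step A B Θ hA hB hΘ hst M hM y' ((1 / 2 : ℝ) ^ j) (by positivity)
        have e : (1 / 2 : ℝ) ^ j / 2 = (1 / 2 : ℝ) ^ (j + 1) := by rw [pow_succ]; ring
        rw [e] at h1
        push_cast
        have h1' : √(av ((1 / 2 : ℝ) ^ (j + 1)) F y') ≤ √(av ((1 / 2 : ℝ) ^ j) F y') + C0 * M := h1
        linarith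
    have h1 := iter k
    have h24 : √(av 1 F y') ≤ 5 := by
      rw [Real.sqrt_le_left (by norm_num)]
      have := av_one_le hFi hF0 hdist
      linarith
    have hklog : (k : ℝ) ≤ 2 * L := by
      have h2 : Real.log r ≤ k * Real.log (1 / 2) := by
        rw [← Real.log_pow]
        apply Real.log_le_log hr
        refine le_trans ?_ hk2
        rw [le_div_iff₀ (by norm_num)]; linarith
      have h3 : L = - Real.log r := by rw [hLd, one_div, Real.log_inv]
      have h4 : Real.log (1 / 2) = - Real.log 2 := by rw [one_div, Real.log_inv]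
      have h5 := Real.log_two_gt_d9
      rw [h4] at h2
      have h6 : (0 : ℝ) ≤ k := by positivity
      nlinarith
    have h5 : √(av s F y') ≤ (5 + 2 * C0) * (1 + M) * (1 + L) := by
      have h6 : (k : ℝ) * (C0 * M) ≤ 2 * L * (C0 * M) := by gcongr
      have h7 : 5 + 2 * L * (C0 * M) ≤ (5 + 2 * C0) * (1 + M) * (1 + L) := by
        have : (5 + 2 * C0) * (1 + M) * (1 + L) - (5 + 2 * L * (C0 * M))
            = 5 * L + 5 * M + 5 * M * L + 2 * C0 + 2 * C0 * L + 2 * C0 * M := by ring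
        have h8 : 0 ≤ 5 * L + 5 * M + 5 * M * L + 2 * C0 + 2 * C0 * L + 2 * C0 * M := by positivity
        linarith
      have h9 : √(av ((1 / 2 : ℝ) ^ k) F y') ≤ 5 + k * (C0 * M) := by linarith
      exact h9.trans (by linarith)
    have hav0 := av_nonneg hF0 s y'
    have h6 : av s F y' ≤ ((5 + 2 * C0) * (1 + M) * (1 + L)) ^ 2 := by
      rw [← Real.sq_sqrt hav0]
      exact pow_le_pow_left₀ (Real.sqrt_nonneg _) h5 2
    have h7 := av_ge_ball hFi hF0 y hsp
    have hsr : s ≤ 200 / 3 * r := by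
      rw [pow_succ] at hk1
      rw [lt_div_iff₀ (by norm_num)] at hk1
      linarith
    have hrs : r ≤ 3 / 100 * s := by
      rw [div_le_iff₀ (by norm_num)] at hk2
      linarith
    have h8 : ∫ z in Metric.closedBall y r, F z ≤ ∫ z in Metric.closedBall y (3 / 100 * s), F z := by
      apply setIntegral_mono_set hFi.integrableOn (Eventually.of_forall hF0)
      exact (Metric.closedBall_subset_closedBall hrs).eventuallyLE
    calc ∫ z in Metric.closedBall y r, F z
        ≤ s ^ 2 / 3 * av s F y' := h8.trans h7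
      _ ≤ (200 / 3 * r) ^ 2 / 3 * ((5 + 2 * C0) * (1 + M) * (1 + L)) ^ 2 := by gcongr
      _ ≤ 1500 * (5 + 2 * C0) ^ 2 * (1 + M) ^ 2 * r ^ 2 * (1 + L) ^ 2 := by
          have e : (200 / 3 * r) ^ 2 / 3 * ((5 + 2 * C0) * (1 + M) * (1 + L)) ^ 2
            = (40000 / 27) * ((5 + 2 * C0) ^ 2 * (1 + M) ^ 2 * r ^ 2 * (1 + L) ^ 2) := by ring
          rw [e]
          have : 0 ≤ (5 + 2 * C0) ^ 2 * (1 + M) ^ 2 * r ^ 2 * (1 + L) ^ 2 := by positivity
          linarith
  · have h1 : ∫ z in Metric.closedBall y r, F z ≤ ∫ z in Metric.closedBall y 2, F z := by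
      apply setIntegral_mono_set hFi.integrableOn (Eventually.of_forall hF0)
      exact (Metric.closedBall_subset_closedBall (by linarith)).eventuallyLE
    refine (h1.trans hy).trans ?_
    have a1 : (25 : ℝ) ≤ (5 + 2 * C0) ^ 2 := by nlinarith
    have a2 : (1 : ℝ) ≤ (1 + M) ^ 2 := by nlinarith
    have a3 : (9 / 10000 : ℝ) ≤ r ^ 2 := by nlinarith
    have a4 : (1 : ℝ) ≤ (1 + L) ^ 2 := by nlinarith
    calc (1 : ℝ) ≤ 1500 * 25 * 1 * (9 / 10000) * 1 := by norm_num
      _ ≤ 1500 * (5 + 2 * C0) ^ 2 * (1 + M) ^ 2 * r ^ 2 * (1 + L) ^ 2 := by gcongr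

end Pool.Agent.Lib.MP_f46d6a
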