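import Pool.Agent.Lib.MP_f46d6a.Comp2

/-!
# An `L¹` Poincaré inequality on squares and the dichotomy for functions with values 0 and 1 (G1)
-/

set_option autoImplicit false

open MeasureTheory Set Filter Topology
open scoped ContDiff

namespace Pool.Agent.Lib.MP_f46d6a

open Pool.Agent.Lib.MP_dac83a

namespace G1

/-- one dimensional oscillation bound -/
theorem osc {g g' : ℝ → ℝ} (hg : ∀ x, HasDerivAt g (g' x) x) (hc : Continuous g') {p q : ℝ}
    {s t : ℝ} (hs : s ∈ Icc p q) (ht : t ∈ Icc p q) : |g s - g t| ≤ ∫ τ in Icc p q, |g' τ| := by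
  wlog hst : t ≤ s with H
  · rw [abs_sub_comm]; exact H hg hc ht hs (le_of_not_ge hst)
  have e : ∫ τ in t..s, g' τ = g s - g t :=
    intervalIntegral.integral_eq_sub_of_hasDerivAt (fun x _ => hg x) (hc.intervalIntegrable _ _)
  rw [← e]
  calc |∫ τ in t..s, g' τ| ≤ ∫ τ in t..s, |g' τ| :=
        intervalIntegral.abs_integral_le_integral_abs hst
    _ = ∫ τ in Ioc t s, |g' τ| := intervalIntegral.integral_of_le hst
    _ ≤ ∫ τ in Icc p q, |g' τ| := by
        apply setIntegral_mono_set (hc.abs.continuousOn.integrableOn_compact isCompact_Icc)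
          (ae_of_all _ fun _ => abs_nonneg _)
        apply LE.le.eventuallyLE
        intro τ hτ
        exact ⟨ht.1.trans hτ.1.le, hτ.2.trans hs.2⟩

/-- two dimensional oscillation bound -/
theorem osc2 {φ : P → ℝ} (h : ContDiff ℝ 1 φ) {a b c d : ℝ} {y z : P}
    (hy : y ∈ Icc a b ×ˢ Icc c d) (hz : z ∈ Icc a b ×ˢ Icc c d) :
    |φ y - φ z| ≤ (∫ t in Icc a b, |dd ex φ (t, y.2)|) + ∫ t in Icc c d, |dd ey φ (z.1, t)| := by
  have cx : Continuous (dd ex φ) := (dd_contDiff (m := 0) h (by norm_num) ex).continuous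
  have cy : Continuous (dd ey φ) := (dd_contDiff (m := 0) h (by norm_num) ey).continuous
  have h1 := osc (g := fun t => φ (t, y.2)) (g' := fun t => dd ex φ (t, y.2))
    (fun t => Rellich.slice_x h t y.2) (cx.comp (by fun_prop)) hy.1 hz.1
  have h2 := osc (g := fun t => φ (z.1, t)) (g' := fun t => dd ey φ (z.1, t))
    (fun t => Rellich.slice_y h z.1 t) (cy.comp (by fun_prop)) hy.2 hz.2
  have e : φ y - φ z = (φ (y.1, y.2) - φ (z.1, y.2)) + (φ (z.1, y.2) - φ (z.1, z.2)) := by
    simp only [Prod.mk.eta]; ring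
  rw [e]
  exact (abs_add_le _ _).trans (add_le_add h1 h2)

theorem int_sq {a b c d : ℝ} {F : P → ℝ} (hF : Continuous F) :
    IntegrableOn F (Icc a b ×ˢ Icc c d) volume :=
  hF.continuousOn.integrableOn_compact (isCompact_Icc.prod isCompact_Icc)

theorem int_fst {a b c d : ℝ} {G : P → ℝ} (hG : Continuous G) (hcd : c ≤ d) :
    ∫ z in Icc a b ×ˢ Icc c d, (∫ t in Icc c d, G (z.1, t))
      = (d - c) * ∫ z in Icc a b ×ˢ Icc c d, G z := by
  have hc : Continuous fun s : ℝ => ∫ t in Icc c d, G (s, t) := by
    have : (fun s : ℝ => ∫ t in Icc c d, G (s, t)) = fun s : ℝ => ∫ t in c..d, G (s, t) := by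
      ext s
      rw [intervalIntegral.integral_of_le hcd, integral_Icc_eq_integral_Ioc]
    rw [this]
    have h2 : Continuous (Function.uncurry fun (s t : ℝ) => G (s, t)) := hG
    exact intervalIntegral.continuous_parametric_intervalIntegral_of_continuous' h2 c d
  rw [Measure.volume_eq_prod, setIntegral_prod, setIntegral_prod]
  · simp only [setIntegral_const, smul_eq_mul]
    rw [integral_const_mul]
    congr 1
    simp [Measure.real, Real.volume_Icc, ENNReal.toReal_ofReal (sub_nonneg.2 hcd)]
  · rw [← Measure.volume_eq_prod]; exact int_sq hG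
  · rw [← Measure.volume_eq_prod]; exact int_sq (hc.comp continuous_fst)

theorem int_snd {a b c d : ℝ} {G : P → ℝ} (hG : Continuous G) (hab : a ≤ b) :
    ∫ z in Icc a b ×ˢ Icc c d, (∫ t in Icc a b, G (t, z.2))
      = (b - a) * ∫ z in Icc a b ×ˢ Icc c d, G z := by
  have hc : Continuous fun s : ℝ => ∫ t in Icc a b, G (t, s) := by
    have : (fun s : ℝ => ∫ t in Icc a b, G (t, s)) = fun s : ℝ => ∫ t in a..b, G (t, s) := by
      ext s
      rw [intervalIntegral.integral_of_le hab, integral_Icc_eq_integral_Ioc]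
    rw [this]
    have h2 : Continuous (Function.uncurry fun (s t : ℝ) => G (t, s)) := hG.comp continuous_swap
    exact intervalIntegral.continuous_parametric_intervalIntegral_of_continuous' h2 a b
  have sw : ∀ F : P → ℝ, Continuous F →
      ∫ z in Icc a b ×ˢ Icc c d, F z = ∫ s in Icc c d, ∫ t in Icc a b, F (t, s) := by
    intro F hF
    rw [Measure.volume_eq_prod, ← Measure.prod_restrict]
    rw [integral_prod_symm]
    rw [Measure.prod_restrict, ← Measure.volume_eq_prod]
    exact int_sq hF
  rw [sw _ hG, sw (fun z => ∫ t in Icc a b, G (t, z.2)) (hc.comp continuous_snd)]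
  simp only [setIntegral_const, smul_eq_mul]
  rw [integral_const_mul]
  congr 1
  simp [Measure.real, Real.volume_Icc, ENNReal.toReal_ofReal (sub_nonneg.2 hab)]

/-- `L¹` Poincaré inequality on a square for `C¹` functions -/
theorem poinc {φ : P → ℝ} (h : ContDiff ℝ 1 φ) (x : P) {r : ℝ} (hr : 0 < r) :
    ∃ m : ℝ, ∫ z in Metric.closedBall x r, |φ z - m| ≤
      2 * r * ((∫ z in Metric.closedBall x r, |dd ex φ z|)
        + ∫ z in Metric.closedBall x r, |dd ey φ z|) := by
  have cx : Continuous (dd ex φ) := (dd_contDiff (m := 0) h (by norm_num) ex).continuous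
  have cy : Continuous (dd ey φ) := (dd_contDiff (m := 0) h (by norm_num) ey).continuous
  have hφ : Continuous φ := h.continuous
  have eQ : Metric.closedBall x r = Icc (x.1 - r) (x.1 + r) ×ˢ Icc (x.2 - r) (x.2 + r) := by
    rw [← Real.closedBall_eq_Icc, ← Real.closedBall_eq_Icc, closedBall_prod_same]
  set Q := Metric.closedBall x r with hQ
  have vQ : volume.real Q = 4 * r ^ 2 := vol_ball x hr.le
  have hQfin : volume Q ≠ ⊤ := vol_ball_ne x r
  have icont : ∀ {F : P → ℝ}, Continuous F → IntegrableOn F Q := fun {F} hF =>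
    hF.continuousOn.integrableOn_compact (isCompact_closedBall x r)
  set F : ℝ → ℝ := fun s => ∫ t in Icc (x.1 - r) (x.1 + r), |dd ex φ (t, s)| with hFd
  set H : ℝ → ℝ := fun s => ∫ t in Icc (x.2 - r) (x.2 + r), |dd ey φ (s, t)| with hHd
  have cF : Continuous F := by
    have : F = fun s : ℝ => ∫ t in (x.1 - r)..(x.1 + r), |dd ex φ (t, s)| := by
      ext s
      rw [intervalIntegral.integral_of_le (by linarith), ← integral_Icc_eq_integral_Ioc]
    rw [this]
    have h2 : Continuous (Function.uncurry fun (s t : ℝ) => |dd ex φ (t, s)|) :=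
      (cx.comp continuous_swap).abs
    exact intervalIntegral.continuous_parametric_intervalIntegral_of_continuous' h2 _ _
  have cH : Continuous H := by
    have : H = fun s : ℝ => ∫ t in (x.2 - r)..(x.2 + r), |dd ey φ (s, t)| := by
      ext s
      rw [intervalIntegral.integral_of_le (by linarith), ← integral_Icc_eq_integral_Ioc]
    rw [this]
    have h2 : Continuous (Function.uncurry fun (s t : ℝ) => |dd ey φ (s, t)|) := cy.abs
    exact intervalIntegral.continuous_parametric_intervalIntegral_of_continuous' h2 _ _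
  have IF : ∫ z in Q, F z.2 = 2 * r * ∫ z in Q, |dd ex φ z| := by
    rw [eQ, int_snd cx.abs (by linarith)]; ring
  have IH : ∫ z in Q, H z.1 = 2 * r * ∫ z in Q, |dd ey φ z| := by
    rw [eQ, int_fst cy.abs (by linarith)]; ring
  refine ⟨(1 / (4 * r ^ 2)) * ∫ z in Q, φ z, ?_⟩
  have key : ∀ y ∈ Q, |φ y - (1 / (4 * r ^ 2)) * ∫ z in Q, φ z|
      ≤ F y.2 + 1 / (4 * r ^ 2) * ∫ z in Q, H z.1 := by
    intro y hy
    have e1 : φ y - (1 / (4 * r ^ 2)) * ∫ z in Q, φ z
        = 1 / (4 * r ^ 2) * ∫ z in Q, (φ y - φ z) := by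
      rw [integral_sub (icont continuous_const) (icont hφ), setIntegral_const, vQ, smul_eq_mul]
      field_simp
    rw [e1, abs_mul, abs_of_pos (by positivity)]
    have e2 : F y.2 + 1 / (4 * r ^ 2) * ∫ z in Q, H z.1
        = 1 / (4 * r ^ 2) * ∫ z in Q, (F y.2 + H z.1) := by
      rw [integral_add (icont continuous_const) (icont (F := fun z => H z.1) (cH.comp continuous_fst)),
        setIntegral_const, vQ, smul_eq_mul]
      field_simp
    rw [e2]
    apply mul_le_mul_of_nonneg_left _ (by positivity)
    refine (abs_integral_le_integral_abs).trans ?_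
    apply setIntegral_mono_on
    · exact icont ((continuous_const.sub hφ).abs)
    · exact icont (continuous_const.add (cH.comp continuous_fst))
    · exact measurableSet_closedBall
    · intro z hz
      rw [eQ] at hy hz
      exact osc2 h hy hz
  calc ∫ z in Q, |φ z - (1 / (4 * r ^ 2)) * ∫ z in Q, φ z|
      ≤ ∫ z in Q, (F z.2 + 1 / (4 * r ^ 2) * ∫ z in Q, H z.1) := by
        apply setIntegral_mono_on
        · exact icont ((hφ.sub continuous_const).abs)
        · exact icont ((cF.comp continuous_snd).add continuous_const)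
        · exact measurableSet_closedBall
        · exact key
    _ = _ := by
        rw [integral_add (icont (F := fun z => F z.2) (cF.comp continuous_snd)) (icont continuous_const),
          setIntegral_const, vQ, smul_eq_mul, IF, IH]
        field_simp

theorem conv_l1 {f : ℕ → P → ℝ} {g : P → ℝ} (h : Conv2 volume f g) {K : Set P}
    (hK : MeasurableSet K) (hf : volume K ≠ ⊤) :
    Tendsto (fun n => ∫ z in K, |f n z - g z|) atTop (𝓝 0) := by
  have hb : ∀ n, ∫ z in K, |f n z - g z| ≤ √(vol K * ∫ z, (f n z - g z) ^ 2) := by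
    intro n
    apply Real.le_sqrt_of_sq_le
    have h1 := cs_set (q := fun z => f n z - g z) ((h.memn n).sub h.mem) hK hf
    have e : ∫ z, |K.indicator (fun z => f n z - g z) z| = ∫ z in K, |f n z - g z| := by
      rw [← integral_indicator hK]
      congr 1; ext z
      by_cases hz : z ∈ K <;> simp [hz]
    rw [e] at h1
    refine h1.trans ?_
    apply mul_le_mul_of_nonneg_left _ ENNReal.toReal_nonneg
    exact setIntegral_le_integral ((h.memn n).sub h.mem).integrable_sq
      (Eventually.of_forall fun z => sq_nonneg _)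
  have h2 : Tendsto (fun n => √(vol K * ∫ z, (f n z - g z) ^ 2)) atTop (𝓝 0) := by
    have := ((h.lim.const_mul (vol K)).sqrt)
    simpa using this
  exact squeeze_zero (fun n => integral_nonneg fun z => abs_nonneg _) hb h2

theorem memLp_intOn {g : P → ℝ} (hg : MemLp g 2 volume) {K : Set P}
    (hK : MeasurableSet K) (hf : volume K ≠ ⊤) : IntegrableOn g K := by
  rw [← integrable_indicator_iff hK]
  exact l1_integrable hK hf (hg.indicator hK) (by
    filter_upwards with z hz
    rw [indicator_of_notMem hz])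

theorem conv_abs {f : ℕ → P → ℝ} {g : P → ℝ} (h : Conv2 volume f g) {K : Set P}
    (hK : MeasurableSet K) (hf : volume K ≠ ⊤) :
    Tendsto (fun n => ∫ z in K, |f n z|) atTop (𝓝 (∫ z in K, |g z|)) := by
  rw [tendsto_iff_dist_tendsto_zero]
  refine squeeze_zero (fun n => dist_nonneg) (fun n => ?_) (conv_l1 h hK hf)
  have i1 := (memLp_intOn (h.memn n) hK hf).abs
  have i2 := (memLp_intOn h.mem hK hf).abs
  rw [Real.dist_eq, ← integral_sub i1 i2]
  refine (abs_integral_le_integral_abs).trans ?_
  apply integral_mono (i1.sub i2).abs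
  · exact ((memLp_intOn (h.memn n) hK hf).sub (memLp_intOn h.mem hK hf)).abs
  · intro z
    exact abs_abs_sub_abs_le _ _

end G1

open G1 in
/-- a nonnegative `H¹` function equal to `0` on `G0` and to `1` on `G1` -/
theorem l1_dichotomy {U : Set P} (hU : IsOpen U) {u a b : P → ℝ} (h : H0 U u a b)
    (h0 : ∀ᵐ z, 0 ≤ u z) (h1 : ∀ᵐ z, u z ≤ 1)
    (x : P) {r : ℝ} (hr : 0 < r) {G0 G1 : Set P} (m0 : MeasurableSet G0) (m1 : MeasurableSet G1)
    (s0 : G0 ⊆ Metric.closedBall x r)
    (s1 : G1 ⊆ Metric.closedBall x r) (e0 : ∀ᵐ z, z ∈ G0 → u z = 0) (e1 : ∀ᵐ z, z ∈ G1 → u z = 1) :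
    min (vol G0) (vol G1) ≤ 2 * r * ((∫ z in Metric.closedBall x r, |a z|)
      + ∫ z in Metric.closedBall x r, |b z|) := by
  set Q := Metric.closedBall x r with hQ
  have mQ : MeasurableSet Q := measurableSet_closedBall
  have fQ : volume Q ≠ ⊤ := vol_ball_ne x r
  have f0 : volume G0 ≠ ⊤ := ((measure_mono s0).trans_lt fQ.lt_top).ne
  have f1 : volume G1 ≠ ⊤ := ((measure_mono s1).trans_lt fQ.lt_top).ne
  obtain ⟨φ, hφ, c, cx, cy⟩ := h.app
  have lim := ((conv_l1 c mQ fQ).add
    (((conv_abs cx mQ fQ).add (conv_abs cy mQ fQ)).const_mul (2 * r)))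
  rw [zero_add] at lim
  refine ge_of_tendsto' lim fun n => ?_
  obtain ⟨m, hm⟩ := poinc ((hφ n).smooth.of_le (by norm_num) : ContDiff ℝ 1 (φ n)) x hr
  have iu : IntegrableOn (fun z => |u z - m|) Q :=
    ((memLp_intOn h.mu mQ fQ).sub (integrableOn_const fQ)).abs
  have k1 : ∫ z in Q, |u z - m| ≤ (∫ z in Q, |φ n z - u z|) + ∫ z in Q, |φ n z - m| := by
    have i1 : IntegrableOn (fun z => |φ n z - u z|) Q :=
      ((memLp_intOn (c.memn n) mQ fQ).sub (memLp_intOn h.mu mQ fQ)).abs
    have i2 : IntegrableOn (fun z => |φ n z - m|) Q :=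
      ((memLp_intOn (c.memn n) mQ fQ).sub (integrableOn_const fQ)).abs
    rw [← integral_add i1 i2]
    apply integral_mono iu (i1.add i2)
    intro z
    show |u z - m| ≤ |φ n z - u z| + |φ n z - m|
    rw [abs_sub_comm (φ n z) (u z)]
    have : u z - m = (u z - φ n z) + (φ n z - m) := by ring
    rw [this]
    exact abs_add_le _ _
  have k2 : min (vol G0) (vol G1) ≤ ∫ z in Q, |u z - m| := by
    have j0 : ∫ z in G0, |u z - m| = vol G0 * |m| := by
      have : ∫ z in G0, |u z - m| = ∫ z in G0, |m| := by
        apply setIntegral_congr_ae m0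
        filter_upwards [e0] with z hz hzG
        rw [hz hzG, zero_sub, abs_neg]
      rw [this, setIntegral_const, smul_eq_mul]; rfl
    have j1 : ∫ z in G1, |u z - m| = vol G1 * |1 - m| := by
      have : ∫ z in G1, |u z - m| = ∫ z in G1, |1 - m| := by
        apply setIntegral_congr_ae m1
        filter_upwards [e1] with z hz hzG
        rw [hz hzG]
      rw [this, setIntegral_const, smul_eq_mul]; rfl
    have j2 : (∫ z in G0, |u z - m|) + ∫ z in G1, |u z - m| ≤ ∫ z in Q, |u z - m| := by
      rw [← integral_indicator m0, ← integral_indicator m1, ← integral_indicator mQ,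
        ← integral_add]
      · apply integral_mono_ae
        · exact ((integrable_indicator_iff m0).2 (iu.mono_set s0)).add
            ((integrable_indicator_iff m1).2 (iu.mono_set s1))
        · exact (integrable_indicator_iff mQ).2 iu
        · filter_upwards [e0, e1] with z hz0 hz1
          by_cases h0' : z ∈ G0
          · have h1' : z ∉ G1 := fun h' => by
              have := hz0 h0'; have := hz1 h'; linarith
            rw [indicator_of_mem h0', indicator_of_notMem h1', indicator_of_mem (s0 h0'), add_zero]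
          · by_cases h1' : z ∈ G1
            · rw [indicator_of_notMem h0', indicator_of_mem h1', indicator_of_mem (s1 h1'),
                zero_add]
            · rw [indicator_of_notMem h0', indicator_of_notMem h1', add_zero]
              exact indicator_nonneg (fun _ _ => abs_nonneg _) z
      · exact (integrable_indicator_iff m0).2 (iu.mono_set s0)
      · exact (integrable_indicator_iff m1).2 (iu.mono_set s1)
    rw [j0, j1] at j2
    have v0 : 0 ≤ vol G0 := ENNReal.toReal_nonneg
    have v1 : 0 ≤ vol G1 := ENNReal.toReal_nonneg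
    have j3 : 1 ≤ |m| + |1 - m| := by
      have := abs_add_le m (1 - m)
      rw [show m + (1 - m) = 1 by ring, abs_one] at this
      exact this
    have j4 : 0 ≤ min (vol G0) (vol G1) := le_min v0 v1
    have j5 := mul_le_mul_of_nonneg_right (min_le_left (vol G0) (vol G1)) (abs_nonneg m)
    have j6 := mul_le_mul_of_nonneg_right (min_le_right (vol G0) (vol G1)) (abs_nonneg (1 - m))
    nlinarith
  linarith

end Pool.Agent.Lib.MP_f46d6a
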