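import Pool.Agent.Lib.MP_f46d6a_h93.Hopf
import Pool.Agent.Lib.MP_f46d6a.Defs

/-!
# The barrier (module B3)
-/

set_option autoImplicit false

open MeasureTheory Set Filter Topology
open scoped ContDiff

namespace Pool.Agent.Lib.MP_f46d6a

open Pool.Agent.Lib.MP_dac83a

/-- the barrier weight `(R² - |z|²)₊³` -/
noncomputable def bP (R : ℝ) (z : P) : ℝ := nn (r2 z - R ^ 2) ^ 3

section weight

variable {R : ℝ}

theorem r2_diffAt (z : P) : DifferentiableAt ℝ (fun z => r2 z - R ^ 2) z :=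
  ((r2_contDiff (n := 1)).differentiable (by norm_num) z).sub_const _

theorem dd_r2_sub (v z : P) : dd v (fun z => r2 z - R ^ 2) z = dd v r2 z := by
  simp only [dd]
  rw [fderiv_sub_const]

theorem dd_bP (v z : P) : dd v (bP R) z = -3 * nn (r2 z - R ^ 2) ^ 2 * dd v r2 z := by
  have h := dd_comp (F := fun s => nn s ^ (1 + 2)) (f := fun z => r2 z - R ^ 2) (z := z)
    (hasDerivAt_nn_pow 1 _).differentiableAt (r2_diffAt z) v
  rw [show bP R = fun z => nn (r2 z - R ^ 2) ^ (1 + 2) from rfl, h, (hasDerivAt_nn_pow 1 _).deriv,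
    dd_r2_sub]
  norm_num

theorem n2_contDiff : ContDiff ℝ 1 (fun z : P => nn (r2 z - R ^ 2) ^ 2) :=
  (contDiff_nn_pow 0).comp (r2_contDiff.sub contDiff_const)

theorem bP_contDiff1 : ContDiff ℝ 1 (bP R) :=
  (contDiff_nn_pow 1).comp (r2_contDiff.sub contDiff_const)

theorem fderiv_bP : fderiv ℝ (bP R) = fun z => (-3 * nn (r2 z - R ^ 2) ^ 2) • fderiv ℝ r2 z := by
  ext z v
  · have := dd_bP (R := R) ((1 : ℝ), (0 : ℝ)) z
    simp only [dd] at this
    simpa using this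
  · have := dd_bP (R := R) ((0 : ℝ), (1 : ℝ)) z
    simp only [dd] at this
    simpa using this

theorem bP_contDiff : ContDiff ℝ 2 (bP R) := by
  rw [show (2 : WithTop ℕ∞) = 1 + 1 by norm_num, contDiff_succ_iff_fderiv]
  refine ⟨bP_contDiff1.differentiable (by norm_num), by simp, ?_⟩
  rw [fderiv_bP]
  exact (contDiff_const.mul n2_contDiff).smul
    ((r2_contDiff (n := 2)).fderiv_right (m := 1) (by norm_num))

theorem lap_bP (z : P) : lap (bP R) z
    = 24 * nn (r2 z - R ^ 2) * r2 z - 12 * nn (r2 z - R ^ 2) ^ 2 := by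
  have dn2 : ∀ v, dd v (fun z : P => nn (r2 z - R ^ 2) ^ 2) z
      = -2 * nn (r2 z - R ^ 2) * dd v r2 z := by
    intro v
    have h := dd_comp (F := fun s => nn s ^ (0 + 2)) (f := fun z => r2 z - R ^ 2) (z := z)
      (hasDerivAt_nn_pow 0 _).differentiableAt (r2_diffAt z) v
    rw [show (fun z : P => nn (r2 z - R ^ 2) ^ 2) = fun z => nn (r2 z - R ^ 2) ^ (0 + 2) from rfl, h,
      (hasDerivAt_nn_pow 0 _).deriv, dd_r2_sub]
    norm_num
  have d2 : ∀ v, dd v (dd v (bP R)) z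
      = 6 * nn (r2 z - R ^ 2) * dd v r2 z ^ 2 - 3 * nn (r2 z - R ^ 2) ^ 2 * dd v (dd v r2) z := by
    intro v
    have e : dd v (bP R) = fun z => (-3) * (nn (r2 z - R ^ 2) ^ 2 * dd v r2 z) := by
      ext z; rw [dd_bP]; ring
    have h1 : DifferentiableAt ℝ (fun z : P => nn (r2 z - R ^ 2) ^ 2) z :=
      n2_contDiff.differentiable (by norm_num) z
    have h2 : DifferentiableAt ℝ (dd v r2) z :=
      (dd_contDiff (m := 1) (r2_contDiff (n := 2)) (by norm_num) v).differentiable (by norm_num) z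
    rw [e, dd_const_mul (h1.fun_mul h2), dd_mul h1 h2, dn2]
    ring
  simp only [lap]
  rw [d2, d2, dd_dd_r2_x, dd_dd_r2_y, dd_ex_r2, dd_ey_r2]
  have : r2 z = z.1 ^ 2 + z.2 ^ 2 := rfl
  rw [this]; ring

theorem bP_zero {z : P} (h : R ^ 2 ≤ r2 z) : bP R z = 0 := by
  unfold bP
  rw [nn_of_nonneg (by linarith)]; norm_num

theorem bP_nonneg (z : P) : 0 ≤ bP R z := pow_nonneg (nn_nonneg _) 3

theorem bP_supp (hR : 0 < R) : Function.support (bP R) ⊆ Metric.closedBall 0 R := by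
  intro z hz
  by_contra hc
  apply hz
  apply bP_zero
  rw [Metric.mem_closedBall, dist_zero_right, not_le] at hc
  have := norm_sq_le_r2 z
  nlinarith

theorem bP_cpt (hR : 0 < R) : HasCompactSupport (bP R) :=
  HasCompactSupport.intro (isCompact_closedBall 0 R) (fun z hz => by
    by_contra h'; exact hz (bP_supp hR h'))

theorem nn_val {z : P} (h : r2 z ≤ R ^ 2) : nn (r2 z - R ^ 2) = R ^ 2 - r2 z := by
  rw [nn_of_nonpos (by linarith)]; ring

end weight

/-- the pointwise inequality behind the barrier -/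
theorem barrier_alg {R ρ s X Y gx gy : ℝ} (hR : 0 < R) (hR1 : R ≤ 1) (hρ : 0 ≤ ρ)
    (hρX : ρ + (X ^ 2 + Y ^ 2) = R ^ 2) (hs : 0 ≤ s) (hs1 : s ≤ 1 / 2) :
    s * (ρ ^ 3 * (1 + 2 * s)) - (s + s * s) * (24 * ρ * (X ^ 2 + Y ^ 2) - 12 * ρ ^ 2)
      - 2 * ρ ^ 3 * (gx ^ 2 + gy ^ 2)
      - 2 * (1 + 2 * s) * (gx * (-3 * ρ ^ 2 * (2 * X)) + gy * (-3 * ρ ^ 2 * (2 * Y)))
      ≤ 28 * R ^ 4 := by
  have hX : 0 ≤ X ^ 2 + Y ^ 2 := by positivity
  have hρR : ρ ≤ R ^ 2 := by linarith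
  have hR2 : R ^ 2 ≤ 1 := by nlinarith
  -- square
  have h1 : 0 ≤ 2 * ρ * ((ρ * gx - 3 * (1 + 2 * s) * X) ^ 2 + (ρ * gy - 3 * (1 + 2 * s) * Y) ^ 2) := by
    positivity
  have h2 : s * (ρ ^ 3 * (1 + 2 * s)) - (s + s * s) * (24 * ρ * (X ^ 2 + Y ^ 2) - 12 * ρ ^ 2)
      - 2 * ρ ^ 3 * (gx ^ 2 + gy ^ 2)
      - 2 * (1 + 2 * s) * (gx * (-3 * ρ ^ 2 * (2 * X)) + gy * (-3 * ρ ^ 2 * (2 * Y)))
      = s * (ρ ^ 3 * (1 + 2 * s)) + (s + s * s) * (12 * ρ ^ 2)
        - (s + s * s) * (24 * ρ * (X ^ 2 + Y ^ 2))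
        + 18 * (1 + 2 * s) ^ 2 * (ρ * (X ^ 2 + Y ^ 2))
        - 2 * ρ * ((ρ * gx - 3 * (1 + 2 * s) * X) ^ 2 + (ρ * gy - 3 * (1 + 2 * s) * Y) ^ 2) := by
    ring
  have h3 : s * (ρ ^ 3 * (1 + 2 * s)) ≤ R ^ 4 := by
    have a1 : s * (1 + 2 * s) ≤ 1 := by nlinarith
    have a2 : ρ ^ 3 ≤ R ^ 4 := by
      have b1 : ρ ^ 2 ≤ (R ^ 2) ^ 2 := pow_le_pow_left₀ hρ hρR 2
      have b2 : ρ ≤ 1 := by linarith
      calc ρ ^ 3 = ρ ^ 2 * ρ := by ring
        _ ≤ (R ^ 2) ^ 2 * 1 := mul_le_mul b1 b2 hρ (by positivity)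
        _ = R ^ 4 := by ring
    have a3 : 0 ≤ ρ ^ 3 := by positivity
    calc s * (ρ ^ 3 * (1 + 2 * s)) = ρ ^ 3 * (s * (1 + 2 * s)) := by ring
      _ ≤ R ^ 4 * 1 := mul_le_mul a2 a1 (by positivity) (by positivity)
      _ = R ^ 4 := mul_one _
  have h4 : (s + s * s) * (12 * ρ ^ 2) ≤ 9 * R ^ 4 := by
    have a1 : s + s * s ≤ 3 / 4 := by nlinarith
    have b1 : ρ ^ 2 ≤ R ^ 4 := by
      calc ρ ^ 2 ≤ (R ^ 2) ^ 2 := pow_le_pow_left₀ hρ hρR 2
        _ = R ^ 4 := by ring
    calc (s + s * s) * (12 * ρ ^ 2) ≤ (3 / 4) * (12 * R ^ 4) := by gcongr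
      _ = 9 * R ^ 4 := by ring
  have h5 : 0 ≤ (s + s * s) * (24 * ρ * (X ^ 2 + Y ^ 2)) := by positivity
  have h6 : 18 * (1 + 2 * s) ^ 2 * (ρ * (X ^ 2 + Y ^ 2)) ≤ 18 * R ^ 4 := by
    have a1 : (1 + 2 * s) ^ 2 ≤ 4 := by nlinarith
    have a2 : ρ * (X ^ 2 + Y ^ 2) ≤ R ^ 4 / 4 := by
      have : R ^ 4 = (ρ + (X ^ 2 + Y ^ 2)) ^ 2 := by rw [hρX]; ring
      rw [this]
      nlinarith [sq_nonneg (ρ - (X ^ 2 + Y ^ 2))]
    have a3 : 0 ≤ ρ * (X ^ 2 + Y ^ 2) := by positivity
    calc 18 * (1 + 2 * s) ^ 2 * (ρ * (X ^ 2 + Y ^ 2)) ≤ 18 * 4 * (R ^ 4 / 4) := by gcongr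
      _ = 18 * R ^ 4 := by ring
  rw [h2]
  linarith

theorem barrier {Ω : Set P} (hΩ : IsOpen Ω) (hf : volume Ω ≠ ⊤) {w wx wy ψ ψx ψy : P → ℝ}
    (ht : Tor Ω w wx wy) (he : Eigf Ω 1 ψ ψx ψy) (hdom : ∀ᵐ z, ψ z ≤ w z)
    {y : P} {R : ℝ} (hR : 0 < R) (hR1 : R ≤ 1) (hw : ∀ᵐ z, r2 (z - y) < R ^ 2 → w z ≤ 1 / 2) :
    ∀ᵐ z, r2 (z - y) ≤ (R / 2) ^ 2 → (R ^ 2 / 400) * ψ z ≤ w z - ψ z := by
  -- the weight
  set B : P → ℝ := fun z => bP R (z - y) with hB
  have B2 : ContDiff ℝ 2 B := bP_contDiff.comp (contDiff_id.sub contDiff_const)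
  have B1 : ContDiff ℝ 1 B := B2.of_le (by norm_num)
  have Bc : HasCompactSupport B := cpt_trans (bP_cpt hR) y
  have Bnn : ∀ z, 0 ≤ B z := fun z => bP_nonneg _
  have Bd : ∀ v z, dd v B z = -3 * nn (r2 (z - y) - R ^ 2) ^ 2 * dd v r2 (z - y) := by
    intro v z
    rw [hB, dd_trans, dd_bP]
  have Bl : ∀ z, lap B z = 24 * nn (r2 (z - y) - R ^ 2) * r2 (z - y)
      - 12 * nn (r2 (z - y) - R ^ 2) ^ 2 := by
    intro z
    rw [hB, lap_trans, lap_bP]
  have Bdc : ∀ v, Continuous (dd v B) := fun v =>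
    (dd_contDiff (m := 0) B1 (by norm_num) v).continuous
  obtain ⟨C0, hC0⟩ := B1.continuous.bounded_above_of_compact_support Bc
  obtain ⟨C1, hC1⟩ := (Bdc ex).bounded_above_of_compact_support (dd_hasCompactSupport Bc ex)
  obtain ⟨C2, hC2⟩ := (Bdc ey).bounded_above_of_compact_support (dd_hasCompactSupport Bc ey)
  set C := max C0 (max C1 C2) with hC
  have bB : ∀ z, |B z| ≤ C := fun z => (hC0 z).trans (le_max_left _ _)
  have bBx : ∀ z, |dd ex B z| ≤ C := fun z =>
    (hC1 z).trans ((le_max_left _ _).trans (le_max_right _ _))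
  have bBy : ∀ z, |dd ey B z| ≤ C := fun z =>
    (hC2 z).trans ((le_max_right _ _).trans (le_max_right _ _))
  have hC0' : 0 ≤ C := (abs_nonneg _).trans (bB 0)
  -- truncation
  have hu := he.mem.minLevel hΩ (l := 1 / 2) (by norm_num)
  set u : P → ℝ := fun z => min (ψ z) (1 / 2) with hud
  set ux : P → ℝ := fun z => if ψ z ≤ 1 / 2 then ψx z else 0 with hux
  set uy : P → ℝ := fun z => if ψ z ≤ 1 / 2 then ψy z else 0 with huy
  have hub : ∀ᵐ z, |u z| ≤ 1 / 2 := by
    filter_upwards [he.nonneg] with z hz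
    rw [abs_of_nonneg (le_min hz (by norm_num))]
    exact min_le_right _ _
  have huu : H0 Ω (fun z => u z * u z) (fun z => ux z * u z + u z * ux z)
      (fun z => uy z * u z + u z * uy z) := (H0.mul hΩ hΩ hu hu hub hub).mono inter_subset_left
  have hF := hu.add huu
  set F : P → ℝ := fun z => u z + u z * u z with hFd
  have hFb : ∀ᵐ z, |F z| ≤ 3 / 4 := by
    filter_upwards [hub] with z hz
    simp only [hFd]
    calc |u z + u z * u z| ≤ |u z| + |u z| * |u z| := by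
          rw [← abs_mul]; exact abs_add_le _ _
      _ ≤ 1 / 2 + 1 / 2 * (1 / 2) := by gcongr
      _ = 3 / 4 := by norm_num
  have hG := hF.mul_C1 hΩ B1 bB bBx bBy
  have hp := ht.mem.sub he.mem
  set c : ℝ := 1 / (56 * R ^ 4) with hc
  have hcpos : 0 < c := by positivity
  have hd := (hG.smul c).sub hp
  set d : P → ℝ := fun z => c * (B z * F z) - (w z - ψ z) with hdd
  have hv := H0.posPart hΩ hd (l := 0) le_rfl
  set v : P → ℝ := fun z => max 0 (d z - 0) with hvd
  -- facts on the set d > 0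
  have hpos : ∀ᵐ z, 0 < d z → (r2 (z - y) < R ^ 2 ∧ ψ z ≤ 1 / 2) := by
    filter_upwards [hdom, hw] with z h1 h2 h3
    have hr : r2 (z - y) < R ^ 2 := by
      by_contra hcn
      have : B z = 0 := bP_zero (not_lt.1 hcn)
      simp only [hdd, this, zero_mul, mul_zero] at h3
      linarith
    exact ⟨hr, h1.trans (h2 hr)⟩
  have hvb : ∀ᵐ z, |v z| ≤ c * (C * (3 / 4)) := by
    filter_upwards [hdom, hFb] with z h1 h2
    have h3 : 0 ≤ v z := le_max_left _ _
    rw [abs_of_nonneg h3]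
    simp only [hvd, hdd, sub_zero]
    apply max_le (by positivity)
    have h4 : B z * F z ≤ C * (3 / 4) := by
      calc B z * F z ≤ |B z * F z| := le_abs_self _
        _ = |B z| * |F z| := abs_mul _ _
        _ ≤ C * (3 / 4) := by gcongr; exact bB z
    have h5 : c * (B z * F z) ≤ c * (C * (3 / 4)) := by gcongr
    linarith
  -- test functions
  have huv : H0 Ω (fun z => u z * v z) _ _ := (H0.mul hΩ hΩ hu hv hub hvb).mono inter_subset_left
  have hT1a := hv.comb huv 1 2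
  have hT1 := hT1a.mul_C1 hΩ B1 bB bBx bBy
  have hT2 : H0 Ω (fun z => F z * v z) _ _ := (H0.mul hΩ hΩ hF hv hFb hvb).mono inter_subset_left
  -- identities
  have E1 := he.eq _ _ _ hT1
  have E2 := hT2.test_C2 B2 Bc
  have E3 := ht.eq _ _ _ hv
  have E4 := he.eq _ _ _ hv
  -- names of the gradients
  set vx : P → ℝ := fun z => if 0 < d z then
    c * (B z * (ux z + (ux z * u z + u z * ux z)) + dd ex B z * F z) - (wx z - ψx z) else 0 with hvx
  set vy : P → ℝ := fun z => if 0 < d z then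
    c * (B z * (uy z + (uy z * u z + u z * uy z)) + dd ey B z * F z) - (wy z - ψy z) else 0 with hvy
  -- integrability
  have iv : Integrable v := (hv.integrable_all hΩ hf).1
  have iE : Integrable (fun z => vx z ^ 2 + vy z ^ 2) := hv.int_en
  have iA1 : Integrable (fun z => ψx z * (B z * (1 * vx z + 2 * (ux z * v z + u z * vx z))
        + dd ex B z * (1 * v z + 2 * (u z * v z)))
      + ψy z * (B z * (1 * vy z + 2 * (uy z * v z + u z * vy z))
        + dd ey B z * (1 * v z + 2 * (u z * v z)))) :=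
    (integrable_mul2 he.mem.ma hT1.ma).add (integrable_mul2 he.mem.mb hT1.mb)
  have iA1' : Integrable (fun z => ψ z * (B z * (1 * v z + 2 * (u z * v z)))) :=
    integrable_mul2 he.mem.mu hT1.mu
  have tB : IsTest1 univ B := ⟨B1, Bc, subset_univ _⟩
  have iA2 : Integrable (fun z => ((ux z + (ux z * u z + u z * ux z)) * v z + F z * vx z) * dd ex B z
      + ((uy z + (uy z * u z + u z * uy z)) * v z + F z * vy z) * dd ey B z) :=
    (integrable_mul2 hT2.ma (IsTest1.dd_memLp tB ex)).add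
      (integrable_mul2 hT2.mb (IsTest1.dd_memLp tB ey))
  have lapm : MemLp (lap B) 2 volume := by
    have h1 : ∀ v, MemLp (dd v (dd v B)) 2 volume := fun v =>
      IsTest1.dd_memLp (U := univ) (f := dd v B)
        ⟨dd_contDiff (m := 1) B2 (by norm_num) v, dd_hasCompactSupport Bc v, subset_univ _⟩ v
    exact (h1 ex).add (h1 ey)
  have iA2' : Integrable (fun z => F z * v z * lap B z) := integrable_mul2 hT2.mu lapm
  have iB1 : Integrable (fun z => wx z * vx z + wy z * vy z) :=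
    (integrable_mul2 ht.mem.ma hv.ma).add (integrable_mul2 ht.mem.mb hv.mb)
  have iB2 : Integrable (fun z => ψx z * vx z + ψy z * vy z) :=
    (integrable_mul2 he.mem.ma hv.ma).add (integrable_mul2 he.mem.mb hv.mb)
  have iB2' : Integrable (fun z => ψ z * v z) := integrable_mul2 he.mem.mu hv.mu
  -- the remainder
  set Rm : P → ℝ := fun z => v z * (2 * B z * (ψx z ^ 2 + ψy z ^ 2)
    + 2 * (1 + 2 * u z) * (ψx z * dd ex B z + ψy z * dd ey B z)) with hRm
  have hid : ∀ᵐ z, vx z ^ 2 + vy z ^ 2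
      = c * (ψx z * (B z * (1 * vx z + 2 * (ux z * v z + u z * vx z))
        + dd ex B z * (1 * v z + 2 * (u z * v z)))
      + ψy z * (B z * (1 * vy z + 2 * (uy z * v z + u z * vy z))
        + dd ey B z * (1 * v z + 2 * (u z * v z))))
      + c * (((ux z + (ux z * u z + u z * ux z)) * v z + F z * vx z) * dd ex B z
      + ((uy z + (uy z * u z + u z * uy z)) * v z + F z * vy z) * dd ey B z)
      - c * Rm z - (wx z * vx z + wy z * vy z) + (ψx z * vx z + ψy z * vy z) := by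
    filter_upwards [hpos] with z hz
    by_cases h0 : 0 < d z
    · obtain ⟨h1, h2⟩ := hz h0
      have eux : ux z = ψx z := by simp only [hux, if_pos h2]
      have euy : uy z = ψy z := by simp only [huy, if_pos h2]
      have evx : vx z = c * (B z * (ux z + (ux z * u z + u z * ux z)) + dd ex B z * F z)
        - (wx z - ψx z) := by simp only [hvx, if_pos h0]
      have evy : vy z = c * (B z * (uy z + (uy z * u z + u z * uy z)) + dd ey B z * F z)
        - (wy z - ψy z) := by simp only [hvy, if_pos h0]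
      have k1 : vx z ^ 2 = vx z * (c * (B z * (ux z + (ux z * u z + u z * ux z)) + dd ex B z * F z)
        - (wx z - ψx z)) := by rw [sq]; nth_rw 2 [evx]
      have k2 : vy z ^ 2 = vy z * (c * (B z * (uy z + (uy z * u z + u z * uy z)) + dd ey B z * F z)
        - (wy z - ψy z)) := by rw [sq]; nth_rw 2 [evy]
      rw [k1, k2, eux, euy]
      simp only [hRm]
      ring
    · have evx : vx z = 0 := by simp only [hvx, if_neg h0]
      have evy : vy z = 0 := by simp only [hvy, if_neg h0]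
      have ev : v z = 0 := by
        simp only [hvd, sub_zero]
        exact max_eq_left (not_lt.1 h0)
      simp only [hRm]
      rw [evx, evy, ev]; ring
  have iRm : Integrable (fun z => c * Rm z) := by
    have := ((((iA1.const_mul c).add (iA2.const_mul c)).sub iB1).add iB2).sub iE
    refine this.congr ?_
    filter_upwards [hid] with z hz
    simp only [Pi.add_apply, Pi.sub_apply]
    linarith
  -- total
  have htot : ∫ z, (vx z ^ 2 + vy z ^ 2) = ∫ z, (c * (ψ z * (B z * (1 * v z + 2 * (u z * v z))))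
      - c * (F z * v z * lap B z) - c * Rm z - v z + ψ z * v z) := by
    rw [integral_congr_ae hid]
    have j1 := iA1.const_mul c
    have j2 := iA2.const_mul c
    have j1' := iA1'.const_mul c
    have j2' := iA2'.const_mul c
    have s1 : Integrable (fun z => c * (ψ z * (B z * (1 * v z + 2 * (u z * v z))))
      - c * (F z * v z * lap B z)) := j1'.sub j2'
    have s2 : Integrable (fun z => c * (ψ z * (B z * (1 * v z + 2 * (u z * v z))))
      - c * (F z * v z * lap B z) - c * Rm z) := s1.sub iRm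
    have s3 : Integrable (fun z => c * (ψ z * (B z * (1 * v z + 2 * (u z * v z))))
      - c * (F z * v z * lap B z) - c * Rm z - v z) := s2.sub iv
    rw [integral_add s3 iB2', integral_sub s2 iv, integral_sub s1 iRm, integral_sub j1' j2']
    have r1 := j1.add j2
    have r2' := r1.sub iRm
    have r3 := r2'.sub iB1
    have a1 := integral_add r3 iB2
    have a2 := integral_sub r2' iB1
    have a3 := integral_sub r1 iRm
    have a4 := integral_add j1 j2
    have n1 := integral_const_mul (μ := volume) c (fun z => ψx z * (B z * (1 * vx z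
        + 2 * (ux z * v z + u z * vx z)) + dd ex B z * (1 * v z + 2 * (u z * v z)))
      + ψy z * (B z * (1 * vy z + 2 * (uy z * v z + u z * vy z))
        + dd ey B z * (1 * v z + 2 * (u z * v z))))
    have n2 := integral_const_mul (μ := volume) c (fun z => ((ux z + (ux z * u z + u z * ux z)) * v z
        + F z * vx z) * dd ex B z
      + ((uy z + (uy z * u z + u z * uy z)) * v z + F z * vy z) * dd ey B z)
    have n3 := integral_const_mul (μ := volume) c (fun z => ψ z * (B z * (1 * v z + 2 * (u z * v z))))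
    have n4 := integral_const_mul (μ := volume) c (fun z => F z * v z * lap B z)
    simp only [Pi.add_apply, Pi.sub_apply] at a1 a2 a3 a4
    rw [a1, a2, a3, a4, n1, n2, n3, n4, E1, E2, E3, E4]
    ring
  -- sign
  have hle : ∫ z, (vx z ^ 2 + vy z ^ 2) ≤ 0 := by
    rw [htot]
    apply integral_nonpos_of_ae
    filter_upwards [hpos, he.nonneg] with z hz hz0
    simp only [Pi.zero_apply]
    by_cases h0 : 0 < d z
    · obtain ⟨h1, h2⟩ := hz h0
      have hvz : 0 ≤ v z := le_max_left _ _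
      have eu : u z = ψ z := min_eq_left h2
      have eF : F z = ψ z + ψ z * ψ z := by simp only [hFd, eu]
      have en : nn (r2 (z - y) - R ^ 2) = R ^ 2 - r2 (z - y) := nn_val h1.le
      have hX : r2 (z - y) = (z - y).1 ^ 2 + (z - y).2 ^ 2 := rfl
      have alg := barrier_alg (R := R) (ρ := R ^ 2 - r2 (z - y)) (s := ψ z) (X := (z - y).1)
        (Y := (z - y).2) (gx := ψx z) (gy := ψy z) hR hR1 (by linarith) (by rw [hX]; ring) hz0 h2
      have eB : B z = (R ^ 2 - r2 (z - y)) ^ 3 := by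
        simp only [hB, bP, en]
      have hc28 : c * (28 * R ^ 4) = 1 / 2 := by rw [hc]; field_simp; norm_num
      have hfin : c * (ψ z * (B z * (1 * v z + 2 * (u z * v z))))
          - c * (F z * v z * lap B z) - c * Rm z - v z + ψ z * v z
          = v z * (c * (ψ z * ((R ^ 2 - r2 (z - y)) ^ 3 * (1 + 2 * ψ z))
            - (ψ z + ψ z * ψ z) * (24 * (R ^ 2 - r2 (z - y)) * ((z - y).1 ^ 2 + (z - y).2 ^ 2)
              - 12 * (R ^ 2 - r2 (z - y)) ^ 2)
            - 2 * (R ^ 2 - r2 (z - y)) ^ 3 * (ψx z ^ 2 + ψy z ^ 2)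
            - 2 * (1 + 2 * ψ z) * (ψx z * (-3 * (R ^ 2 - r2 (z - y)) ^ 2 * (2 * (z - y).1))
              + ψy z * (-3 * (R ^ 2 - r2 (z - y)) ^ 2 * (2 * (z - y).2)))) - (1 - ψ z)) := by
        simp only [hRm]
        rw [Bd, Bd, Bl, en, dd_ex_r2, dd_ey_r2, eB, eF, eu, ← hX]
        ring
      rw [hfin]
      apply mul_nonpos_of_nonneg_of_nonpos hvz
      have := mul_le_mul_of_nonneg_left alg hcpos.le
      linarith
    · have ev : v z = 0 := by
        simp only [hvd, sub_zero]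
        exact max_eq_left (not_lt.1 h0)
      simp only [hRm]
      rw [ev]
      simp
  have hpo := hv.poinc hΩ hf
  have hv2 : ∫ z, v z ^ 2 = 0 := by
    have h1 : 0 ≤ ∫ z, v z ^ 2 := integral_nonneg fun z => sq_nonneg _
    have h2 : vol Ω * ∫ z, (vx z ^ 2 + vy z ^ 2) ≤ 0 :=
      mul_nonpos_of_nonneg_of_nonpos ENNReal.toReal_nonneg hle
    have h3 : 2 * ∫ z, v z ^ 2 ≤ vol Ω * ∫ z, (vx z ^ 2 + vy z ^ 2) := hpo
    linarith
  have hv0 : (fun z => v z ^ 2) =ᵐ[volume] 0 :=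
    (integral_eq_zero_iff_of_nonneg (fun z => sq_nonneg _) hv.mu.integrable_sq).1 hv2
  filter_upwards [hv0, hw, hdom, he.nonneg] with z h1 h2 h3 h4 h5
  have h6 : v z = 0 := by
    have : v z ^ 2 = 0 := h1
    exact pow_eq_zero_iff (two_ne_zero) |>.1 this
  have h7 : d z ≤ 0 := by
    have h8 : d z - 0 ≤ max 0 (d z - 0) := le_max_right _ _
    have h9 : max 0 (d z - 0) = 0 := h6
    linarith
  have hrR : r2 (z - y) < R ^ 2 := by
    have : (R / 2) ^ 2 < R ^ 2 := by nlinarith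
    linarith
  have hψ : ψ z ≤ 1 / 2 := h3.trans (h2 hrR)
  have eu : u z = ψ z := min_eq_left hψ
  have hBz : 27 / 64 * R ^ 6 ≤ B z := by
    simp only [hB, bP]
    rw [nn_val hrR.le]
    have h9 : 3 / 4 * R ^ 2 ≤ R ^ 2 - r2 (z - y) := by nlinarith
    calc 27 / 64 * R ^ 6 = (3 / 4 * R ^ 2) ^ 3 := by ring
      _ ≤ _ := by gcongr
  have h10 : c * (B z * (ψ z + ψ z * ψ z)) ≤ w z - ψ z := by
    have : d z = c * (B z * (ψ z + ψ z * ψ z)) - (w z - ψ z) := by
      simp only [hdd, hFd, eu]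
    linarith
  refine le_trans ?_ h10
  have h11 : 27 / 64 * R ^ 6 * ψ z ≤ B z * (ψ z + ψ z * ψ z) := by
    apply mul_le_mul hBz _ h4 (Bnn z)
    nlinarith
  calc R ^ 2 / 400 * ψ z ≤ c * (27 / 64 * R ^ 6 * ψ z) := by
        have : c * (27 / 64 * R ^ 6 * ψ z) = 27 / 3584 * R ^ 2 * ψ z := by
          rw [hc]; field_simp; ring
        rw [this]
        have : 0 ≤ R ^ 2 * ψ z := by positivity
        linarith
    _ ≤ _ := by gcongr

end Pool.Agent.Lib.MP_f46d6a
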