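import Pool.Agent.Lib.MP_f46d6a.Defs

/-!
# The Riesz solution of the stress identity
-/

set_option autoImplicit false

open MeasureTheory Set Filter Topology
open scoped ContDiff

namespace Pool.Agent.Lib.MP_f46d6a

open Pool.Agent.Lib.MP_dac83a

theorem dd_comm2 {f : P → ℝ} (hf : ContDiff ℝ 2 f) (v w z : P) :
    dd v (dd w f) z = dd w (dd v f) z := by
  have hd : DifferentiableAt ℝ (fderiv ℝ f) z :=
    ((hf.fderiv_right (m := 1) (by norm_num)).differentiable (by norm_num)) z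
  have key : ∀ v w : P, dd v (dd w f) z = fderiv ℝ (fderiv ℝ f) z v w := by
    intro v w
    have h1 : HasFDerivAt (fun z => fderiv ℝ f z w)
        ((ContinuousLinearMap.apply ℝ ℝ w).comp (fderiv ℝ (fderiv ℝ f) z)) z :=
      (ContinuousLinearMap.apply ℝ ℝ w).hasFDerivAt.comp z hd.hasFDerivAt
    have e : dd w f = fun z => fderiv ℝ f z w := rfl
    rw [e]
    simp only [dd]
    rw [h1.fderiv]
    rfl
  rw [key, key]
  have hs : IsSymmSndFDerivAt ℝ f z :=
    (hf.contDiffAt).isSymmSndFDerivAt (by simp)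
  exact hs v w

/-- the three first order expressions of a field -/
noncomputable def Fa (X Y : P → ℝ) (z : P) : ℝ := dd ex X z - dd ey Y z
noncomputable def Fb (X Y : P → ℝ) (z : P) : ℝ := dd ey X z + dd ex Y z
noncomputable def Fd (X Y : P → ℝ) (z : P) : ℝ := dd ex X z + dd ey Y z

section fields

variable {X Y X' Y' : P → ℝ}

theorem Fa_mem (hX : IsTest univ X) (hY : IsTest univ Y) : MemLp (Fa X Y) 2 volume :=
  (hX.dd ex).memLp.sub (hY.dd ey).memLp
theorem Fb_mem (hX : IsTest univ X) (hY : IsTest univ Y) : MemLp (Fb X Y) 2 volume :=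
  (hX.dd ey).memLp.add (hY.dd ex).memLp
theorem Fd_mem (hX : IsTest univ X) (hY : IsTest univ Y) : MemLp (Fd X Y) 2 volume :=
  (hX.dd ex).memLp.add (hY.dd ey).memLp

theorem Fa_comb (hX : IsTest univ X) (hY : IsTest univ Y) (hX' : IsTest univ X')
    (hY' : IsTest univ Y') (s t : ℝ) (z : P) :
    Fa (fun z => s * X z + t * X' z) (fun z => s * Y z + t * Y' z) z
      = s * Fa X Y z + t * Fa X' Y' z := by
  simp only [Fa]
  rw [dd_comb hX hX', dd_comb hY hY']; ring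

theorem Fb_comb (hX : IsTest univ X) (hY : IsTest univ Y) (hX' : IsTest univ X')
    (hY' : IsTest univ Y') (s t : ℝ) (z : P) :
    Fb (fun z => s * X z + t * X' z) (fun z => s * Y z + t * Y' z) z
      = s * Fb X Y z + t * Fb X' Y' z := by
  simp only [Fb]
  rw [dd_comb hX hX', dd_comb hY hY']; ring

theorem Fd_comb (hX : IsTest univ X) (hY : IsTest univ Y) (hX' : IsTest univ X')
    (hY' : IsTest univ Y') (s t : ℝ) (z : P) :
    Fd (fun z => s * X z + t * X' z) (fun z => s * Y z + t * Y' z) z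
      = s * Fd X Y z + t * Fd X' Y' z := by
  simp only [Fd]
  rw [dd_comb hX hX', dd_comb hY hY']; ring

/-- null Lagrangian -/
theorem null_lagr (hX : IsTest univ X) (hY : IsTest univ Y) :
    ∫ z, dd ey X z * dd ex Y z = ∫ z, dd ex X z * dd ey Y z := by
  have e1 : ∫ z, X z * dd ey (dd ex Y) z = - ∫ z, dd ey X z * dd ex Y z :=
    ibp isOpen_univ hX.isTest1 (((hY.dd ex).smooth.of_le one_le_inf).contDiffOn) ey
  have e2 : ∫ z, X z * dd ex (dd ey Y) z = - ∫ z, dd ex X z * dd ey Y z :=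
    ibp isOpen_univ hX.isTest1 (((hY.dd ey).smooth.of_le one_le_inf).contDiffOn) ex
  have e3 : ∫ z, X z * dd ey (dd ex Y) z = ∫ z, X z * dd ex (dd ey Y) z := by
    congr 1; ext z
    rw [dd_comm2 (hY.smooth.of_le two_le_inf) ey ex z]
  linarith

/-- the divergence is controlled -/
theorem Fd_le (hX : IsTest univ X) (hY : IsTest univ Y) :
    ∫ z, Fd X Y z ^ 2 ≤ ∫ z, (Fa X Y z ^ 2 + Fb X Y z ^ 2) := by
  have n := null_lagr hX hY
  have i1 := (hX.dd ey).int_mul (hY.dd ex)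
  have i2 := (hX.dd ex).int_mul (hY.dd ey)
  have ic : Integrable (fun z => (dd ey X z - dd ex Y z) ^ 2) :=
    ((hX.dd ey).memLp.sub (hY.dd ex).memLp).integrable_sq
  have hd := (Fd_mem hX hY).integrable_sq
  have e : (fun z => Fa X Y z ^ 2 + Fb X Y z ^ 2) = fun z => (Fd X Y z ^ 2 +
      (dd ey X z - dd ex Y z) ^ 2) + (4 * (dd ey X z * dd ex Y z) - 4 * (dd ex X z * dd ey Y z)) := by
    ext z
    simp only [Fa, Fb, Fd]; ring
  have j1 : Integrable (fun z => Fd X Y z ^ 2 + (dd ey X z - dd ex Y z) ^ 2) := hd.add ic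
  have j2 : Integrable (fun z => 4 * (dd ey X z * dd ex Y z) - 4 * (dd ex X z * dd ey Y z)) :=
    (i1.const_mul 4).sub (i2.const_mul 4)
  rw [e, integral_add j1 j2, integral_add hd ic,
    integral_sub (i1.const_mul 4) (i2.const_mul 4), integral_const_mul, integral_const_mul, n,
    sub_self, add_zero]
  have : 0 ≤ ∫ z, (dd ey X z - dd ex Y z) ^ 2 := integral_nonneg fun z => sq_nonneg _
  linarith

end fields

/-- the functional -/
noncomputable def JJ (h X Y : P → ℝ) : ℝ :=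
  1 / 2 * (∫ z, (Fa X Y z ^ 2 + Fb X Y z ^ 2)) + ∫ z, h z * Fd X Y z

/-- bilinear form -/
noncomputable def QQ (X Y X' Y' : P → ℝ) : ℝ := ∫ z, (Fa X Y z * Fa X' Y' z + Fb X Y z * Fb X' Y' z)

section fields2

variable {h X Y X' Y' : P → ℝ}

theorem ab_int (hX : IsTest univ X) (hY : IsTest univ Y) :
    Integrable (fun z => Fa X Y z ^ 2 + Fb X Y z ^ 2) :=
  (Fa_mem hX hY).integrable_sq.add (Fb_mem hX hY).integrable_sq

theorem qq_int (hX : IsTest univ X) (hY : IsTest univ Y) (hX' : IsTest univ X')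
    (hY' : IsTest univ Y') :
    Integrable (fun z => Fa X Y z * Fa X' Y' z + Fb X Y z * Fb X' Y' z) :=
  (integrable_mul2 (Fa_mem hX hY) (Fa_mem hX' hY')).add
    (integrable_mul2 (Fb_mem hX hY) (Fb_mem hX' hY'))

theorem JJ_comb (hh : MemLp h 2 volume) (hX : IsTest univ X) (hY : IsTest univ Y)
    (hX' : IsTest univ X') (hY' : IsTest univ Y') (s t : ℝ) :
    JJ h (fun z => s * X z + t * X' z) (fun z => s * Y z + t * Y' z)
      = 1 / 2 * (s ^ 2 * (∫ z, (Fa X Y z ^ 2 + Fb X Y z ^ 2))) + s * t * QQ X Y X' Y'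
        + 1 / 2 * (t ^ 2 * (∫ z, (Fa X' Y' z ^ 2 + Fb X' Y' z ^ 2)))
        + s * (∫ z, h z * Fd X Y z) + t * ∫ z, h z * Fd X' Y' z := by
  simp only [JJ, QQ]
  have e1 : (fun z => Fa (fun z => s * X z + t * X' z) (fun z => s * Y z + t * Y' z) z ^ 2
      + Fb (fun z => s * X z + t * X' z) (fun z => s * Y z + t * Y' z) z ^ 2)
      = fun z => s ^ 2 * (Fa X Y z ^ 2 + Fb X Y z ^ 2)
        + (2 * s * t) * (Fa X Y z * Fa X' Y' z + Fb X Y z * Fb X' Y' z)
        + t ^ 2 * (Fa X' Y' z ^ 2 + Fb X' Y' z ^ 2) := by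
    ext z
    rw [Fa_comb hX hY hX' hY', Fb_comb hX hY hX' hY']; ring
  have e2 : (fun z => h z * Fd (fun z => s * X z + t * X' z) (fun z => s * Y z + t * Y' z) z)
      = fun z => s * (h z * Fd X Y z) + t * (h z * Fd X' Y' z) := by
    ext z
    rw [Fd_comb hX hY hX' hY']; ring
  have i1 := integrable_mul2 hh (Fd_mem hX hY)
  have i2 := integrable_mul2 hh (Fd_mem hX' hY')
  rw [e1, e2, int3 (ab_int hX hY) (qq_int hX hY hX' hY') (ab_int hX' hY'),
    integral_add (i1.const_mul s) (i2.const_mul t), integral_const_mul, integral_const_mul]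
  ring

theorem JJ_lower (hh : MemLp h 2 volume) (hX : IsTest univ X) (hY : IsTest univ Y) :
    -(1 / 2 * ∫ z, h z ^ 2) ≤ JJ h X Y := by
  have h1 := Fd_le hX hY
  have i1 := integrable_mul2 hh (Fd_mem hX hY)
  have i2 := (Fd_mem hX hY).integrable_sq
  have i3 := hh.integrable_sq
  have h2 : 0 ≤ ∫ z, ((1 / 2) * Fd X Y z ^ 2 + 1 * (h z * Fd X Y z) + (1 / 2) * h z ^ 2) :=
    integral_nonneg fun z => by
      show 0 ≤ (1 / 2) * Fd X Y z ^ 2 + 1 * (h z * Fd X Y z) + (1 / 2) * h z ^ 2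
      nlinarith [sq_nonneg (Fd X Y z + h z)]
  rw [int3 i2 i1 i3] at h2
  simp only [JJ]
  linarith

/-- the parallelogram identity -/
theorem JJ_par (hh : MemLp h 2 volume) (hX : IsTest univ X) (hY : IsTest univ Y)
    (hX' : IsTest univ X') (hY' : IsTest univ Y') {m e e' : ℝ}
    (hm : ∀ X Y, IsTest univ X → IsTest univ Y → m ≤ JJ h X Y)
    (h1 : JJ h X Y ≤ m + e) (h2 : JJ h X' Y' ≤ m + e') :
    ∫ z, ((Fa X Y z - Fa X' Y' z) ^ 2 + (Fb X Y z - Fb X' Y' z) ^ 2) ≤ 4 * (e + e') := by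
  have hmid := hm _ _ (hX.comb hX' (1 / 2) (1 / 2)) (hY.comb hY' (1 / 2) (1 / 2))
  rw [JJ_comb hh hX hY hX' hY'] at hmid
  have e1 : (fun z => (Fa X Y z - Fa X' Y' z) ^ 2 + (Fb X Y z - Fb X' Y' z) ^ 2)
      = fun z => 1 * (Fa X Y z ^ 2 + Fb X Y z ^ 2)
        + (-2) * (Fa X Y z * Fa X' Y' z + Fb X Y z * Fb X' Y' z)
        + 1 * (Fa X' Y' z ^ 2 + Fb X' Y' z ^ 2) := by
    ext z; ring
  rw [e1, int3 (ab_int hX hY) (qq_int hX hY hX' hY') (ab_int hX' hY')]
  simp only [JJ] at h1 h2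
  simp only [QQ] at hmid
  linarith

end fields2

theorem real_lin_quad {L Q : ℝ} (hQ : 0 ≤ Q) (h : ∀ t : ℝ, 0 ≤ t * L + 1 / 2 * (t ^ 2 * Q)) :
    L = 0 := by
  by_contra hL
  have h1 := h (-L / (Q + 1))
  have hq : 0 < Q + 1 := by linarith
  have e : -L / (Q + 1) * L + 1 / 2 * ((-L / (Q + 1)) ^ 2 * Q)
      = - (L ^ 2 * (Q / 2 + 1)) / (Q + 1) ^ 2 := by
    field_simp; ring
  rw [e] at h1
  have hL2 : 0 < L ^ 2 := by positivity
  have : - (L ^ 2 * (Q / 2 + 1)) / (Q + 1) ^ 2 < 0 := by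
    apply div_neg_of_neg_of_pos _ (by positivity)
    have : 0 < L ^ 2 * (Q / 2 + 1) := by positivity
    linarith
  linarith

/-- the Riesz solution -/
theorem riesz {h : P → ℝ} (hh : MemLp h 2 volume) : ∃ A B : P → ℝ, MemLp A 2 volume ∧
    MemLp B 2 volume ∧ StressId A B h ∧ ∫ z, (A z ^ 2 + B z ^ 2) ≤ ∫ z, h z ^ 2 := by
  set S : Set ℝ := {j | ∃ X Y, IsTest univ X ∧ IsTest univ Y ∧ j = JJ h X Y} with hS
  have hne : S.Nonempty := by
    have h0 : IsTest univ (fun _ : P => (0 : ℝ)) :=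
      ⟨contDiff_const, HasCompactSupport.zero, subset_univ _⟩
    exact ⟨_, _, _, h0, h0, rfl⟩
  have hbb : BddBelow S := ⟨-(1 / 2 * ∫ z, h z ^ 2), by
    rintro j ⟨X, Y, hX, hY, rfl⟩
    exact JJ_lower hh hX hY⟩
  set m := sInf S with hm
  have hmin : ∀ X Y, IsTest univ X → IsTest univ Y → m ≤ JJ h X Y := fun X Y hX hY =>
    csInf_le hbb ⟨X, Y, hX, hY, rfl⟩
  have hseq : ∀ n : ℕ, ∃ X Y, IsTest univ X ∧ IsTest univ Y ∧ JJ h X Y ≤ m + 1 / ((n : ℝ) + 1) := by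
    intro n
    have hp : (0 : ℝ) < 1 / ((n : ℝ) + 1) := by positivity
    obtain ⟨j, ⟨X, Y, hX, hY, rfl⟩, hj⟩ := exists_lt_of_csInf_lt hne
      (show sInf S < m + 1 / ((n : ℝ) + 1) by rw [← hm]; linarith)
    exact ⟨X, Y, hX, hY, hj.le⟩
  choose Xn Yn hXn hYn hJn using hseq
  have t0 : Tendsto (fun n : ℕ => 1 / ((n : ℝ) + 1)) atTop (𝓝 0) :=
    tendsto_one_div_add_atTop_nhds_zero_nat
  have hpar : ∀ k l : ℕ, ∫ z, ((Fa (Xn k) (Yn k) z - Fa (Xn l) (Yn l) z) ^ 2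
      + (Fb (Xn k) (Yn k) z - Fb (Xn l) (Yn l) z) ^ 2)
      ≤ 4 * (1 / ((k : ℝ) + 1) + 1 / ((l : ℝ) + 1)) := fun k l =>
    JJ_par hh (hXn k) (hYn k) (hXn l) (hYn l) hmin (hJn k) (hJn l)
  have hsmall : ∀ ε > 0, ∃ N : ℕ, ∀ k ≥ N, ∀ l ≥ N,
      4 * (1 / ((k : ℝ) + 1) + 1 / ((l : ℝ) + 1)) ≤ ε := by
    intro ε hε
    obtain ⟨N, hN⟩ := Metric.tendsto_atTop.1 t0 (ε / 8) (by positivity)
    refine ⟨N, fun k hk l hl => ?_⟩
    have h1 := hN k hk
    have h2 := hN l hl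
    rw [Real.dist_eq, sub_zero, abs_of_nonneg (by positivity)] at h1 h2
    linarith
  have ia : ∀ k l, Integrable (fun z => (Fa (Xn k) (Yn k) z - Fa (Xn l) (Yn l) z) ^ 2) := fun k l =>
    ((Fa_mem (hXn k) (hYn k)).sub (Fa_mem (hXn l) (hYn l))).integrable_sq
  have ib : ∀ k l, Integrable (fun z => (Fb (Xn k) (Yn k) z - Fb (Xn l) (Yn l) z) ^ 2) := fun k l =>
    ((Fb_mem (hXn k) (hYn k)).sub (Fb_mem (hXn l) (hYn l))).integrable_sq
  obtain ⟨A, hA⟩ := cauchy_conv2 (ν := (volume : Measure P)) (f := fun n => Fa (Xn n) (Yn n))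
    (fun n => Fa_mem (hXn n) (hYn n)) (by
      intro ε hε
      obtain ⟨N, hN⟩ := hsmall ε hε
      refine ⟨N, fun k hk l hl => le_trans ?_ (le_trans (hpar k l) (hN k hk l hl))⟩
      apply integral_mono (ia k l) ((ia k l).add (ib k l))
      intro z
      have := sq_nonneg (Fb (Xn k) (Yn k) z - Fb (Xn l) (Yn l) z)
      simp only [Pi.add_apply]
      linarith)
  obtain ⟨B, hB⟩ := cauchy_conv2 (ν := (volume : Measure P)) (f := fun n => Fb (Xn n) (Yn n))
    (fun n => Fb_mem (hXn n) (hYn n)) (by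
      intro ε hε
      obtain ⟨N, hN⟩ := hsmall ε hε
      refine ⟨N, fun k hk l hl => le_trans ?_ (le_trans (hpar k l) (hN k hk l hl))⟩
      apply integral_mono (ib k l) ((ia k l).add (ib k l))
      intro z
      have := sq_nonneg (Fa (Xn k) (Yn k) z - Fa (Xn l) (Yn l) z)
      simp only [Pi.add_apply]
      linarith)
  -- Euler-Lagrange
  have EL : ∀ X Y, IsTest univ X → IsTest univ Y →
      (∫ z, A z * Fa X Y z) + (∫ z, B z * Fb X Y z) + ∫ z, h z * Fd X Y z = 0 := by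
    intro X Y hX hY
    have hQ : 0 ≤ ∫ z, (Fa X Y z ^ 2 + Fb X Y z ^ 2) :=
      integral_nonneg fun z => by positivity
    apply real_lin_quad hQ
    intro t
    have l1 := hA.integral_mul (Conv2.const (Fa_mem hX hY))
    have l2 := hB.integral_mul (Conv2.const (Fb_mem hX hY))
    have l3 : Tendsto (fun n : ℕ => 1 / ((n : ℝ) + 1) + (t * ((∫ z, Fa (Xn n) (Yn n) z * Fa X Y z)
        + (∫ z, Fb (Xn n) (Yn n) z * Fb X Y z) + ∫ z, h z * Fd X Y z)
        + 1 / 2 * (t ^ 2 * ∫ z, (Fa X Y z ^ 2 + Fb X Y z ^ 2)))) atTop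
        (𝓝 (0 + (t * ((∫ z, A z * Fa X Y z) + (∫ z, B z * Fb X Y z) + ∫ z, h z * Fd X Y z)
        + 1 / 2 * (t ^ 2 * ∫ z, (Fa X Y z ^ 2 + Fb X Y z ^ 2))))) :=
      t0.add ((((l1.add l2).add_const _).const_mul t).add_const _)
    rw [zero_add] at l3
    refine ge_of_tendsto' l3 (fun n => ?_)
    have h1 := hmin _ _ ((hXn n).comb hX 1 t) ((hYn n).comb hY 1 t)
    rw [JJ_comb hh (hXn n) (hYn n) hX hY] at h1
    have h2 := hJn n
    have e : QQ (Xn n) (Yn n) X Y = (∫ z, Fa (Xn n) (Yn n) z * Fa X Y z)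
        + ∫ z, Fb (Xn n) (Yn n) z * Fb X Y z := by
      simp only [QQ]
      exact integral_add (integrable_mul2 (Fa_mem (hXn n) (hYn n)) (Fa_mem hX hY))
        (integrable_mul2 (Fb_mem (hXn n) (hYn n)) (Fb_mem hX hY))
    rw [e] at h1
    simp only [JJ] at h2
    linarith
  refine ⟨A, B, hA.mem, hB.mem, ?_, ?_⟩
  · intro X Y hX hY
    have i1 := integrable_mul2 hA.mem (Fa_mem hX hY)
    have i2 := integrable_mul2 hB.mem (Fb_mem hX hY)
    have i3 := integrable_mul2 hh (Fd_mem hX hY)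
    have := EL X Y hX hY
    have i12 : Integrable (fun z => A z * Fa X Y z + B z * Fb X Y z) := i1.add i2
    rw [← integral_add i1 i2, ← integral_add i12 i3] at this
    exact this
  · have l1 := (Conv2.const hA.mem).integral_mul hA
    have l2 := (Conv2.const hB.mem).integral_mul hB
    have s1 := hA.integral_sq
    have s2 := hB.integral_sq
    have hI : ∫ z, (A z ^ 2 + B z ^ 2) = (∫ z, A z * A z) + ∫ z, B z * B z := by
      rw [← integral_add (integrable_mul2 hA.mem hA.mem) (integrable_mul2 hB.mem hB.mem)]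
      congr 1; ext z; ring
    have hI' : ∫ z, (A z ^ 2 + B z ^ 2) = (∫ z, A z ^ 2) + ∫ z, B z ^ 2 :=
      integral_add hA.mem.integrable_sq hB.mem.integrable_sq
    have key : ∀ n, (∫ z, A z * Fa (Xn n) (Yn n) z) + (∫ z, B z * Fb (Xn n) (Yn n) z)
        ≤ 1 / 2 * (∫ z, h z ^ 2) + 1 / 2 * ((∫ z, Fa (Xn n) (Yn n) z ^ 2)
          + ∫ z, Fb (Xn n) (Yn n) z ^ 2) := by
      intro n
      have h1 := EL _ _ (hXn n) (hYn n)
      have h2 := Fd_le (hXn n) (hYn n)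
      rw [integral_add (Fa_mem (hXn n) (hYn n)).integrable_sq
        (Fb_mem (hXn n) (hYn n)).integrable_sq] at h2
      have i1 := integrable_mul2 hh (Fd_mem (hXn n) (hYn n))
      have i2 := (Fd_mem (hXn n) (hYn n)).integrable_sq
      have i3 := hh.integrable_sq
      have h3 : 0 ≤ ∫ z, ((1 / 2) * Fd (Xn n) (Yn n) z ^ 2 + 1 * (h z * Fd (Xn n) (Yn n) z)
          + (1 / 2) * h z ^ 2) :=
        integral_nonneg fun z => by
          show 0 ≤ (1 / 2) * Fd (Xn n) (Yn n) z ^ 2 + 1 * (h z * Fd (Xn n) (Yn n) z)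
            + (1 / 2) * h z ^ 2
          nlinarith [sq_nonneg (Fd (Xn n) (Yn n) z + h z)]
      rw [int3 i2 i1 i3] at h3
      linarith
    have l3 := le_of_tendsto_of_tendsto' (l1.add l2)
      (((s1.add s2).const_mul (1 / 2)).const_add (1 / 2 * ∫ z, h z ^ 2)) key
    linarith

end Pool.Agent.Lib.MP_f46d6a
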