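import Pool.Agent.Lib.MP_f46d6a_h93.Perf3

/-!
# Perforated domains IV: the trial function and the conclusion (module M5)
-/

set_option autoImplicit false

open MeasureTheory Set Filter Topology
open scoped ContDiff

namespace Pool.Agent.Lib.MP_f46d6a

open Pool.Agent.Lib.MP_dac83a

/-- periodic profile -/
noncomputable def FF (ρ L : ℝ) (N : ℕ) (z : P) : ℝ := 1 - ∑ p ∈ IX N, qh ρ L (z - pctr p)

section trial

variable {ρ L : ℝ} {N : ℕ}

theorem qh_far (hρ : 0 < ρ) (hρ' : ρ ≤ 1 / 2) (hL4 : 4 ≤ L) {z : P} {p : ℕ × ℕ} (h : z ∉ pcel p) :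
    qh ρ L (z - pctr p) = 0 := qh_zero hρ hρ' hL4 (cel_far h)

theorem dd_qh_far (hρ : 0 < ρ) (hρ' : ρ ≤ 1 / 2) {z : P} {p : ℕ × ℕ} (h : z ∉ pcel p) (v : P) :
    dd v (qh ρ L) (z - pctr p) = 0 := by
  rw [dd_qh hρ hρ', dd_gk_outer hρ hρ' (cel_far h), mul_zero, zero_div]

/-- sums over the cells of functions supported in the cells -/
theorem sum_cell {f : ℕ × ℕ → ℝ} {z : P} (hf : ∀ p, z ∉ pcel p → f p = 0) :
    (∑ p ∈ IX N, f p = 0 ∧ ∀ p ∈ IX N, f p = 0) ∨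
    ∃ p ∈ IX N, ∑ q ∈ IX N, f q = f p ∧ ∀ q ∈ IX N, q ≠ p → f q = 0 := by
  by_cases hz : ∃ p ∈ IX N, z ∈ pcel p
  · obtain ⟨p, hp, hp'⟩ := hz
    right
    refine ⟨p, hp, ?_, ?_⟩
    · apply Finset.sum_eq_single_of_mem p hp
      intro q _ hq
      apply hf
      intro h
      exact hq (pcel_inj h hp')
    · intro q _ hq
      apply hf
      intro h
      exact hq (pcel_inj h hp')
  · left
    have h0 : ∀ p ∈ IX N, f p = 0 := fun p hp => hf p (fun h => hz ⟨p, hp, h⟩)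
    exact ⟨Finset.sum_eq_zero h0, h0⟩

theorem sum_cell_sq {f : ℕ × ℕ → ℝ} {z : P} (hf : ∀ p, z ∉ pcel p → f p = 0) :
    (∑ p ∈ IX N, f p) ^ 2 = ∑ p ∈ IX N, f p ^ 2 := by
  rcases sum_cell (N := N) hf with ⟨h1, h2⟩ | ⟨p, hp, h1, h2⟩
  · rw [h1, Finset.sum_eq_zero (fun p hp => by rw [h2 p hp]; ring)]; ring
  · rw [h1, Finset.sum_eq_single_of_mem p hp (fun q hq hqp => by rw [h2 q hq hqp]; ring)]

theorem FF_nonneg (hρ : 0 < ρ) (hρ' : ρ ≤ 1 / 2) (hL4 : 4 ≤ L) (z : P) : 0 ≤ FF ρ L N z := by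
  unfold FF
  rcases sum_cell (N := N) (f := fun p => qh ρ L (z - pctr p)) (z := z)
    (fun p h => qh_far hρ hρ' hL4 h) with ⟨h1, h2⟩ | ⟨p, hp, h1, h2⟩
  · rw [h1]; norm_num
  · rw [h1]
    have := qh_le_one (ρ := ρ) hL4 (z - pctr p)
    linarith

theorem FF_le_one (hρ : 0 < ρ) (hρ' : ρ ≤ 1 / 2) (hL4 : 4 ≤ L) (z : P) : FF ρ L N z ≤ 1 := by
  unfold FF
  have : 0 ≤ ∑ p ∈ IX N, qh ρ L (z - pctr p) :=
    Finset.sum_nonneg fun p _ => qh_nonneg hρ hρ' hL4 _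
  linarith

theorem FF_zero (hρ : 0 < ρ) (hρ' : ρ ≤ 1 / 2) (hL4 : 4 ≤ L) {z : P} {p : ℕ × ℕ} (hp : p ∈ IX N)
    (h : L - 2 ≤ gk ρ (1 / 2) (z - pctr p)) : FF ρ L N z = 0 := by
  unfold FF
  have h1 : qh ρ L (z - pctr p) = 1 := qh_one h
  rcases sum_cell (N := N) (f := fun p => qh ρ L (z - pctr p)) (z := z)
    (fun p h => qh_far hρ hρ' hL4 h) with ⟨h2, h3⟩ | ⟨q, hq, h2, h3⟩
  · have : qh ρ L (z - pctr p) = 0 := h3 p hp
    rw [h1] at this
    norm_num at this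
  · rw [h2]
    by_cases hpq : p = q
    · rw [← hpq, h1, sub_self]
    · have : qh ρ L (z - pctr p) = 0 := h3 p hp hpq
      rw [h1] at this
      norm_num at this

theorem qht_contDiff (hρ : 0 < ρ) (hρ' : ρ ≤ 1 / 2) (c : P) :
    ContDiff ℝ 1 (fun z => qh ρ L (z - c)) :=
  (qh_contDiff hρ hρ').comp (contDiff_id.sub contDiff_const)

theorem FF_contDiff (hρ : 0 < ρ) (hρ' : ρ ≤ 1 / 2) : ContDiff ℝ 1 (FF ρ L N) := by
  unfold FF
  apply contDiff_const.sub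
  apply ContDiff.sum
  intro p _
  exact qht_contDiff hρ hρ' _

theorem dd_FF (hρ : 0 < ρ) (hρ' : ρ ≤ 1 / 2) (v z : P) :
    dd v (FF ρ L N) z = - ∑ p ∈ IX N, dd v (qh ρ L) (z - pctr p) := by
  have e : ∀ p ∈ IX N, DifferentiableAt ℝ (fun z => qh ρ L (z - pctr p)) z := fun p _ =>
    (qht_contDiff hρ hρ' _).differentiable (by norm_num) z
  have e1 : ∀ p, dd v (qh ρ L) (z - pctr p) = fderiv ℝ (fun z => qh ρ L (z - pctr p)) z v := by
    intro p
    exact (dd_trans (qh ρ L) (pctr p) v z).symm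
  have e2 : FF ρ L N = fun z => 1 - ∑ p ∈ IX N, qh ρ L (z - pctr p) := rfl
  rw [e2]
  simp only [dd]
  rw [fderiv_const_sub, fderiv_fun_sum e]
  simp only [_root_.neg_apply, _root_.sum_apply]
  congr 1
  apply Finset.sum_congr rfl
  intro p _
  exact (e1 p).symm

theorem dd_FF_sq (hρ : 0 < ρ) (hρ' : ρ ≤ 1 / 2) (v z : P) :
    dd v (FF ρ L N) z ^ 2 = ∑ p ∈ IX N, dd v (qh ρ L) (z - pctr p) ^ 2 := by
  rw [dd_FF hρ hρ', neg_sq]
  exact sum_cell_sq (z := z) (f := fun p => dd v (qh ρ L) (z - pctr p))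
    (fun p h => dd_qh_far hρ hρ' h v)

theorem IX_card : (IX N).card = N * N := by
  rw [Finset.card_product, Finset.card_range]

theorem FF_energy (hρ : 0 < ρ) (hρ' : ρ ≤ 1 / 2) (hL4 : 4 ≤ L) (v : P) :
    Integrable (fun z => dd v (FF ρ L N) z ^ 2) ∧
    ∫ z, dd v (FF ρ L N) z ^ 2 = (N : ℝ) ^ 2 * ∫ z, dd v (qh ρ L) z ^ 2 := by
  have iq : ∀ p : ℕ × ℕ, Integrable (fun z => dd v (qh ρ L) (z - pctr p) ^ 2) := fun p =>
    ((IsTest1.dd_memLp (qh_test hρ hρ' hL4) v).integrable_sq).comp_sub_right (pctr p)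
  have e : (fun z => dd v (FF ρ L N) z ^ 2)
      = fun z => ∑ p ∈ IX N, dd v (qh ρ L) (z - pctr p) ^ 2 := by
    ext z; exact dd_FF_sq hρ hρ' v z
  rw [e]
  refine ⟨integrable_finsetSum _ (fun p _ => iq p), ?_⟩
  rw [integral_finsetSum _ (fun p _ => iq p)]
  have e1 : ∀ p ∈ IX N, ∫ z, dd v (qh ρ L) (z - pctr p) ^ 2 = ∫ z, dd v (qh ρ L) z ^ 2 := fun p _ =>
    integral_sub_right_eq_self (fun z => dd v (qh ρ L) z ^ 2) (pctr p)
  rw [Finset.sum_congr rfl e1, Finset.sum_const, IX_card, nsmul_eq_mul]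
  push_cast
  ring

/-- lower bound for the torsional rigidity -/
theorem Perf_tor (hρ : 0 < ρ) (hρ' : ρ ≤ 1 / 2) (hL : 2 * Real.log ((1 / 2) / ρ) = L)
    (hL4 : 4 ≤ L) {h : ℝ} (hh : 0 < h) (hN : 4 * h ≤ N) {e : ℝ} (he : 0 < e) {K : ℝ}
    (hK : 0 ≤ K) :
    2 * (K * (((N : ℝ) - 4 * h) ^ 2 - (N : ℝ) ^ 2 * ((1 + mu0) / (L - 2))))
      - K ^ 2 * ((1 + e) * ((N : ℝ) ^ 2 * (L * mu0 / (L - 3) ^ 2))
        + (1 + 1 / e) * (32 * (N : ℝ) ^ 2 / h ^ 2)) ≤ torP (Perf ρ L N) := by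
  set χ := Ch (N : ℝ) h with hχ
  set F := FF ρ L N with hF
  set w : P → ℝ := fun z => χ z * F z with hw
  have χ1 : ContDiff ℝ 1 χ := Ch_contDiff
  have F1 : ContDiff ℝ 1 F := FF_contDiff hρ hρ'
  have w1 : ContDiff ℝ 1 w := χ1.mul F1
  have hwz : ∀ z, w z ≠ 0 → z ∈ {z : P | z ∈ Icc h ((N : ℝ) - h) ×ˢ Icc h ((N : ℝ) - h) ∧
      ∀ p ∈ IX N, gk ρ (1 / 2) (z - pctr p) ≤ L - 2} := by
    intro z hz
    refine ⟨?_, ?_⟩
    · by_contra hc
      exact hz (by simp only [hw, hχ]; rw [Ch_zero hh hc, zero_mul])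
    · intro p hp
      by_contra hc
      exact hz (by simp only [hw, hF]; rw [FF_zero hρ hρ' hL4 hp (not_le.1 hc).le, mul_zero])
  have hclosed : IsClosed {z : P | z ∈ Icc h ((N : ℝ) - h) ×ˢ Icc h ((N : ℝ) - h) ∧
      ∀ p ∈ IX N, gk ρ (1 / 2) (z - pctr p) ≤ L - 2} := by
    apply IsClosed.and (isClosed_Icc.prod isClosed_Icc)
    have : {z : P | ∀ p ∈ IX N, gk ρ (1 / 2) (z - pctr p) ≤ L - 2}
        = ⋂ p ∈ IX N, {z : P | gk ρ (1 / 2) (z - pctr p) ≤ L - 2} := by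
      ext z; simp only [mem_ofPred_eq, mem_iInter]
    rw [this]
    apply isClosed_biInter
    intro p _
    exact isClosed_le ((gk_contDiff hρ hρ').continuous.comp (by fun_prop)) continuous_const
  have wsupp : tsupport w ⊆ {z : P | z ∈ Icc h ((N : ℝ) - h) ×ˢ Icc h ((N : ℝ) - h) ∧
      ∀ p ∈ IX N, gk ρ (1 / 2) (z - pctr p) ≤ L - 2} := closure_minimal hwz hclosed
  have wt : IsTest1 (Perf ρ L N) w := by
    refine ⟨w1, ?_, ?_⟩
    · refine HasCompactSupport.intro (isCompact_Icc.prod isCompact_Icc :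
        IsCompact (Icc h ((N : ℝ) - h) ×ˢ Icc h ((N : ℝ) - h))) (fun z hz => ?_)
      by_contra hc
      exact hz (hwz z hc).1
    · refine wsupp.trans ?_
      rintro z ⟨⟨h1, h2⟩, h3⟩
      refine ⟨⟨⟨?_, ?_⟩, ?_, ?_⟩, fun p hp => ?_⟩
      · linarith [h1.1]
      · linarith [h1.2]
      · linarith [h2.1]
      · linarith [h2.2]
      · have := h3 p hp; linarith
  have h0w := (H0.of_C1 (Perf_open hρ hρ' N) wt).smul K
  have key := h0w.le_torP (Perf_open hρ hρ' N) (Perf_fin ρ L N)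
  refine le_trans ?_ key
  -- the integral
  have iχ : Integrable χ := Ch_int hh
  have iq : ∀ p : ℕ × ℕ, Integrable (fun z => qh ρ L (z - pctr p)) := fun p =>
    (qh_int hρ hρ' hL4).comp_sub_right (pctr p)
  have iχq : ∀ p : ℕ × ℕ, Integrable (fun z => χ z * qh ρ L (z - pctr p)) := fun p =>
    (iq p).bdd_mul (c := 1) χ1.continuous.aestronglyMeasurable (Eventually.of_forall fun z => by
      rw [Real.norm_eq_abs, abs_of_nonneg (Ch_nonneg z)]; exact Ch_le_one z)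
  have hint : ((N : ℝ) - 4 * h) ^ 2 - (N : ℝ) ^ 2 * ((1 + mu0) / (L - 2)) ≤ ∫ z, w z := by
    have e1 : w = fun z => χ z - ∑ p ∈ IX N, χ z * qh ρ L (z - pctr p) := by
      ext z
      simp only [hw, hF, FF]
      rw [mul_sub, mul_one, Finset.mul_sum]
    rw [e1, integral_sub iχ (integrable_finsetSum _ (fun p _ => iχq p)),
      integral_finsetSum _ (fun p _ => iχq p)]
    have e2 : ∑ p ∈ IX N, ∫ z, χ z * qh ρ L (z - pctr p)
        ≤ ∑ p ∈ IX N, (1 + mu0) / (L - 2) := by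
      apply Finset.sum_le_sum
      intro p _
      have h1 : ∫ z, χ z * qh ρ L (z - pctr p) ≤ ∫ z, qh ρ L (z - pctr p) := by
        apply integral_mono (iχq p) (iq p)
        intro z
        have a := qh_nonneg hρ hρ' hL4 (z - pctr p)
        have b : χ z ≤ 1 := Ch_le_one z
        show χ z * qh ρ L (z - pctr p) ≤ qh ρ L (z - pctr p)
        nlinarith
      rw [integral_sub_right_eq_self (fun z => qh ρ L z) (pctr p)] at h1
      exact h1.trans (qh_integral hρ hρ' hL4)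
    rw [Finset.sum_const, IX_card, nsmul_eq_mul] at e2
    push_cast at e2
    have e3 := Ch_integral hh hN
    have e4 : (N : ℝ) * N * ((1 + mu0) / (L - 2)) = (N : ℝ) ^ 2 * ((1 + mu0) / (L - 2)) := by ring
    linarith
  -- the energy
  have hpt : ∀ v z, (K * dd v w z) ^ 2
      ≤ K ^ 2 * ((1 + e) * dd v F z ^ 2 + (1 + 1 / e) * dd v χ z ^ 2) := by
    intro v z
    have e1 : dd v w z = χ z * dd v F z + F z * dd v χ z :=
      dd_mul (χ1.differentiable (by norm_num) z) (F1.differentiable (by norm_num) z) v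
    rw [e1, mul_pow]
    apply mul_le_mul_of_nonneg_left _ (sq_nonneg K)
    have a1 : 0 ≤ χ z := Ch_nonneg z
    have a2 : χ z ≤ 1 := Ch_le_one z
    have b1 : 0 ≤ F z := FF_nonneg hρ hρ' hL4 z
    have b2 : F z ≤ 1 := FF_le_one hρ hρ' hL4 z
    have h1 : (χ z * dd v F z + F z * dd v χ z) ^ 2
        ≤ (1 + e) * (χ z * dd v F z) ^ 2 + (1 + 1 / e) * (F z * dd v χ z) ^ 2 := by
      have h2 : (1 + e) * (χ z * dd v F z) ^ 2 + (1 + 1 / e) * (F z * dd v χ z) ^ 2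
          - (χ z * dd v F z + F z * dd v χ z) ^ 2
          = (e * (χ z * dd v F z) - F z * dd v χ z) ^ 2 / e := by
        field_simp; ring
      have h3 : 0 ≤ (e * (χ z * dd v F z) - F z * dd v χ z) ^ 2 / e := by positivity
      linarith
    have h2 : (χ z * dd v F z) ^ 2 ≤ dd v F z ^ 2 := by
      rw [mul_pow]
      have : χ z ^ 2 ≤ 1 := by nlinarith
      nlinarith [sq_nonneg (dd v F z)]
    have h3 : (F z * dd v χ z) ^ 2 ≤ dd v χ z ^ 2 := by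
      rw [mul_pow]
      have : F z ^ 2 ≤ 1 := by nlinarith
      nlinarith [sq_nonneg (dd v χ z)]
    have he1 : 0 ≤ 1 + 1 / e := by positivity
    calc _ ≤ (1 + e) * (χ z * dd v F z) ^ 2 + (1 + 1 / e) * (F z * dd v χ z) ^ 2 := h1
      _ ≤ _ := by gcongr
  have ic : ∀ v, Integrable (fun z => dd v χ z ^ 2) := fun v =>
    (IsTest1.dd_memLp (Ch_test hh) v).integrable_sq
  have iF : ∀ v, Integrable (fun z => dd v F z ^ 2) := fun v => (FF_energy hρ hρ' hL4 v).1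
  have hen1 : ∀ v, ∫ z, (K * dd v w z) ^ 2
      ≤ K ^ 2 * ((1 + e) * (∫ z, dd v F z ^ 2) + (1 + 1 / e) * ∫ z, dd v χ z ^ 2) := by
    intro v
    rw [← integral_const_mul, ← integral_const_mul,
      ← integral_add ((iF v).const_mul _) ((ic v).const_mul _), ← integral_const_mul]
    apply integral_mono ((IsTest1.dd_memLp wt v).const_mul K).integrable_sq
      ((((iF v).const_mul (1 + e)).add ((ic v).const_mul (1 + 1 / e))).const_mul (K ^ 2))
    intro z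
    exact hpt v z
  have hsplit : ∫ z, ((K * dd ex w z) ^ 2 + (K * dd ey w z) ^ 2)
      = (∫ z, (K * dd ex w z) ^ 2) + ∫ z, (K * dd ey w z) ^ 2 :=
    integral_add ((IsTest1.dd_memLp wt ex).const_mul K).integrable_sq
      ((IsTest1.dd_memLp wt ey).const_mul K).integrable_sq
  have hq := qh_energy hρ hρ' hL hL4
  have hc := Ch_energy (N := (N : ℝ)) hh (by linarith)
  have hen : ∫ z, ((K * dd ex w z) ^ 2 + (K * dd ey w z) ^ 2)
      ≤ K ^ 2 * ((1 + e) * ((N : ℝ) ^ 2 * (L * mu0 / (L - 3) ^ 2))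
        + (1 + 1 / e) * (32 * (N : ℝ) ^ 2 / h ^ 2)) := by
    rw [hsplit]
    have e1 := hen1 ex
    have e2 := hen1 ey
    rw [(FF_energy hρ hρ' hL4 ex).2] at e1
    rw [(FF_energy hρ hρ' hL4 ey).2] at e2
    have e3 : K ^ 2 * ((1 + e) * ((N : ℝ) ^ 2 * ∫ z, dd ex (qh ρ L) z ^ 2)
          + (1 + 1 / e) * ∫ z, dd ex χ z ^ 2)
        + K ^ 2 * ((1 + e) * ((N : ℝ) ^ 2 * ∫ z, dd ey (qh ρ L) z ^ 2)
          + (1 + 1 / e) * ∫ z, dd ey χ z ^ 2)
        = K ^ 2 * ((1 + e) * ((N : ℝ) ^ 2 * ((∫ z, dd ex (qh ρ L) z ^ 2) + ∫ z, dd ey (qh ρ L) z ^ 2))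
          + (1 + 1 / e) * ((∫ z, dd ex χ z ^ 2) + ∫ z, dd ey χ z ^ 2)) := by ring
    have he1 : 0 ≤ 1 + 1 / e := by positivity
    have e4 : K ^ 2 * ((1 + e) * ((N : ℝ) ^ 2 * ((∫ z, dd ex (qh ρ L) z ^ 2) + ∫ z, dd ey (qh ρ L) z ^ 2))
          + (1 + 1 / e) * ((∫ z, dd ex χ z ^ 2) + ∫ z, dd ey χ z ^ 2))
        ≤ K ^ 2 * ((1 + e) * ((N : ℝ) ^ 2 * (L * mu0 / (L - 3) ^ 2))
        + (1 + 1 / e) * (32 * (N : ℝ) ^ 2 / h ^ 2)) := by gcongr
    linarith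
  have hint2 : ∫ z, K * w z = K * ∫ z, w z := integral_const_mul _ _
  rw [hint2]
  have : K * (((N : ℝ) - 4 * h) ^ 2 - (N : ℝ) ^ 2 * ((1 + mu0) / (L - 2))) ≤ K * ∫ z, w z := by
    gcongr
  linarith

end trial

/-- choice of the logarithmic parameter -/
theorem choose_L {ε : ℝ} (hε : 0 < ε) (hε1 : ε ≤ 1 / 36) : ∃ L : ℝ, 4 ≤ L ∧
    1 - 19 * ε ≤ 1 / Kc L ε * (2 * (L / mu0 * ((1 - 4 * ε) ^ 2 - (1 + mu0) / (L - 2)))
      - (L / mu0) ^ 2 * ((1 + ε) * (L * mu0 / (L - 3) ^ 2))) := by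
  have hmu := mu0_pos
  have t1 : Tendsto (fun L : ℝ => (1 + mu0) / (L - 2)) atTop (𝓝 0) :=
    tendsto_const_nhds.div_atTop (tendsto_atTop_add_const_right _ _ tendsto_id)
  have t2 : Tendsto (fun L : ℝ => 3 / (L - 3)) atTop (𝓝 0) :=
    tendsto_const_nhds.div_atTop (tendsto_atTop_add_const_right _ _ tendsto_id)
  have t3 : Tendsto (fun L : ℝ => (1 / 9 + (1 + 1 / ε) * (11 / mu0)) / L) atTop (𝓝 0) :=
    tendsto_const_nhds.div_atTop tendsto_id
  have t4 : Tendsto (fun L : ℝ => (2 / mu0 * ((1 - 4 * ε) ^ 2 - (1 + mu0) / (L - 2))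
      - (1 + ε) / mu0 * (1 + 3 / (L - 3)) ^ 2)
      / ((1 / 9 + (1 + 1 / ε) * (11 / mu0)) / L + (1 + ε) / mu0)) atTop
      (𝓝 ((2 / mu0 * ((1 - 4 * ε) ^ 2 - 0) - (1 + ε) / mu0 * (1 + 0) ^ 2)
        / (0 + (1 + ε) / mu0))) := by
    apply Tendsto.div
    · exact ((t1.const_sub _).const_mul _).sub (((t2.const_add 1).pow 2).const_mul _)
    · exact t3.add_const _
    · have : 0 < (1 + ε) / mu0 := by positivity
      linarith
  have hlim : 1 - 19 * ε < (2 / mu0 * ((1 - 4 * ε) ^ 2 - 0) - (1 + ε) / mu0 * (1 + 0) ^ 2)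
        / (0 + (1 + ε) / mu0) := by
    have e : (2 / mu0 * ((1 - 4 * ε) ^ 2 - 0) - (1 + ε) / mu0 * (1 + 0) ^ 2)
        / (0 + (1 + ε) / mu0) = (2 * (1 - 4 * ε) ^ 2 - (1 + ε)) / (1 + ε) := by
      field_simp
      ring
    rw [e, lt_div_iff₀ (by positivity)]
    nlinarith
  have hev := t4.eventually (lt_mem_nhds hlim)
  obtain ⟨L, hL, hL4⟩ := (hev.and (eventually_ge_atTop 4)).exists
  refine ⟨L, hL4, ?_⟩
  refine le_trans hL.le (le_of_eq ?_)
  have hLp : 0 < L := by linarith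
  have hL3 : L - 3 ≠ 0 := by
    have : 0 < L - 3 := by linarith
    exact this.ne'
  have hL2 : L - 2 ≠ 0 := by
    have : 0 < L - 2 := by linarith
    exact this.ne'
  have hKc := Kc_pos hLp.le hε
  have hden : (1 / 9 + (1 + 1 / ε) * (11 / mu0)) / L + (1 + ε) / mu0 = Kc L ε / L := by
    unfold Kc
    field_simp
    ring
  rw [hden]
  have h3 : 1 + 3 / (L - 3) = L / (L - 3) := by field_simp; ring
  rw [h3, div_div_eq_mul_div, div_eq_mul_one_div _ (Kc L ε), mul_comm _ (1 / Kc L ε)]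
  congr 1
  field_simp

theorem perforated_aux {δ : ℝ} (hδ : 0 < δ) (hδ1 : δ < 1) : ∃ U : Set P, IsOpen U ∧ U.Nonempty ∧
    volume U ≠ ⊤ ∧ (1 - δ) * (volume U).toReal ≤ lamP U * torP U := by
  have hmu := mu0_pos
  set ε := δ / 38 with hεd
  have hε : 0 < ε := by positivity
  obtain ⟨L, hL4, hL⟩ := choose_L hε (by rw [hεd]; linarith)
  set G := 1 / Kc L ε * (2 * (L / mu0 * ((1 - 4 * ε) ^ 2 - (1 + mu0) / (L - 2)))
      - (L / mu0) ^ 2 * ((1 + ε) * (L * mu0 / (L - 3) ^ 2))) with hG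
  have hG2 : 1 - δ / 2 ≤ G := by
    have : 19 * ε = δ / 2 := by rw [hεd]; ring
    linarith
  have hKc := Kc_pos (show 0 ≤ L by linarith) hε
  set K := L / mu0 with hK
  have hK0 : 0 ≤ K := by
    have : 0 ≤ L := by linarith
    positivity
  set E := 1 / Kc L ε * (K ^ 2 * ((1 + 1 / ε) * (32 / ε ^ 2))) with hE
  have hE0 : 0 ≤ E := by positivity
  -- hole radius
  set ρ := 1 / 2 * Real.exp (-(L / 2)) with hρd
  have hρ : 0 < ρ := by positivity
  have hρ' : ρ ≤ 1 / 2 := by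
    have : Real.exp (-(L / 2)) ≤ 1 := Real.exp_le_one_iff.2 (by linarith)
    rw [hρd]; linarith
  have hLρ : 2 * Real.log ((1 / 2) / ρ) = L := by
    have : (1 / 2) / ρ = Real.exp (L / 2) := by
      rw [hρd, Real.exp_neg]
      have := Real.exp_pos (L / 2)
      field_simp
    rw [this, Real.log_exp]; ring
  -- size
  obtain ⟨N, hN⟩ := exists_nat_gt (2 + 2 * E / δ)
  have hEd : 0 ≤ 2 * E / δ := by positivity
  have hN2 : (2 : ℝ) < N := by linarith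
  have hNE : E ≤ δ / 2 * (N : ℝ) ^ 2 := by
    have h1 : 2 * E / δ ≤ N := by linarith
    rw [div_le_iff₀ hδ] at h1
    nlinarith
  have hne : (Perf ρ L N).Nonempty := by
    refine ⟨(1, 1), ⟨⟨by norm_num, ?_⟩, by norm_num, ?_⟩, ?_⟩
    · show (1 : ℝ) < N
      linarith
    · show (1 : ℝ) < N
      linarith
    · intro p _
      have h1 : ∀ i : ℕ, (1 / 4 : ℝ) ≤ (1 - ((i : ℝ) + 1 / 2)) ^ 2 := by
        intro i
        rcases Nat.eq_zero_or_pos i with h | h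
        · rw [h]; norm_num
        · have : (1 : ℝ) ≤ i := by exact_mod_cast h
          nlinarith
      have hr : (1 / 2) ^ 2 ≤ r2 (((1 : ℝ), (1 : ℝ)) - pctr p) := by
        simp only [r2, Prod.fst_sub, Prod.snd_sub]
        have a := h1 p.1
        have b := h1 p.2
        linarith
      rw [gk_outer hρ hρ' hr]
      linarith
  have hlam := Perf_lam hρ hρ' hLρ hne hε
  have hNp : (0 : ℝ) < N := by linarith
  have hh : 0 < ε * N := by positivity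
  have hε4 : 4 * (ε * N) ≤ N := by
    have : ε ≤ 1 / 38 := by rw [hεd]; linarith
    nlinarith
  have htor := Perf_tor hρ hρ' hLρ hL4 hh hε4 hε hK0
  set X := 2 * (K * (((N : ℝ) - 4 * (ε * N)) ^ 2 - (N : ℝ) ^ 2 * ((1 + mu0) / (L - 2))))
      - K ^ 2 * ((1 + ε) * ((N : ℝ) ^ 2 * (L * mu0 / (L - 3) ^ 2))
        + (1 + 1 / ε) * (32 * (N : ℝ) ^ 2 / (ε * N) ^ 2)) with hX
  have hXG : 1 / Kc L ε * X = (N : ℝ) ^ 2 * G - E := by
    have e1 : 32 * (N : ℝ) ^ 2 / (ε * N) ^ 2 = 32 / ε ^ 2 := by field_simp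
    rw [hX, e1, hG, hE]
    ring
  have hfin : (1 - δ) * (N : ℝ) ^ 2 ≤ 1 / Kc L ε * X := by
    rw [hXG]
    have : (N : ℝ) ^ 2 * (1 - δ / 2) ≤ (N : ℝ) ^ 2 * G := by gcongr
    nlinarith
  have hXpos : 0 < X := by
    have h1 : 0 < (1 - δ) * (N : ℝ) ^ 2 := by
      apply mul_pos (by linarith) (by positivity)
    have h2 : 0 < 1 / Kc L ε * X := lt_of_lt_of_le h1 hfin
    have h3 : 0 < 1 / Kc L ε := by positivity
    exact (mul_pos_iff_of_pos_left h3).1 h2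
  refine ⟨Perf ρ L N, Perf_open hρ hρ' N, hne, Perf_fin ρ L N, ?_⟩
  have hv := Perf_vol_real ρ L N
  calc (1 - δ) * (volume (Perf ρ L N)).toReal ≤ (1 - δ) * (N : ℝ) ^ 2 := by
        apply mul_le_mul_of_nonneg_left hv (by linarith)
    _ ≤ 1 / Kc L ε * X := hfin
    _ ≤ lamP (Perf ρ L N) * torP (Perf ρ L N) := by
        apply mul_le_mul hlam htor hXpos.le
        exact le_trans (by positivity) hlam

theorem perforated (δ : ℝ) (hδ : 0 < δ) : ∃ U : Set P, IsOpen U ∧ U.Nonempty ∧ volume U ≠ ⊤ ∧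
    (1 - δ) * (volume U).toReal ≤ lamP U * torP U := by
  obtain ⟨U, h1, h2, h3, h4⟩ := perforated_aux (δ := min δ (1 / 2)) (by positivity)
    (lt_of_le_of_lt (min_le_right _ _) (by norm_num))
  refine ⟨U, h1, h2, h3, le_trans ?_ h4⟩
  have : min δ (1 / 2) ≤ δ := min_le_left _ _
  have hv : 0 ≤ (volume U).toReal := ENNReal.toReal_nonneg
  apply mul_le_mul_of_nonneg_right _ hv
  linarith

end Pool.Agent.Lib.MP_f46d6a
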