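import Pool.Agent.Lib.MP_f46d6a_h93.Hopf

/-!
# Perforated domains I: the inequality on one cell
-/

set_option autoImplicit false

open MeasureTheory Set Filter Topology
open scoped ContDiff

namespace Pool.Agent.Lib.MP_f46d6a

open Pool.Agent.Lib.MP_dac83a

theorem disc_cs {p q c : ℝ} (h : ∀ t : ℝ, 0 ≤ q * (t * t) + 2 * c * t + p) :
    c ^ 2 ≤ p * q := by
  have hd := discrim_le_zero h
  rw [discrim] at hd
  nlinarith

/-- the gradient of the kernel vanishes outside the disc -/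
theorem dd_gk_outer {ρ R : ℝ} (hρ : 0 < ρ) (h : ρ ≤ R) {z : P} (hz : R ^ 2 ≤ r2 z) (v : P) :
    dd v (gk ρ R) z = 0 := by
  have hR : 0 < R := hρ.trans_le h
  have hp : 0 < r2 z := lt_of_lt_of_le (by positivity) hz
  have hz0 : z ≠ 0 := fun h0 => by rw [h0, r2_zero] at hp; exact lt_irrefl _ hp
  rw [dd_congr nz_open (fun w hw => gk_eq_Fc hw) v z hz0]
  have d1 : ∀ c, DifferentiableAt ℝ (Fc c) z := fun c =>
    (Fc_contDiffAt c hz0).differentiableAt (by norm_num)
  rw [dd_add ((d1 _).const_mul 1) ((d1 _).const_mul (-1)), dd_const_mul (d1 _), dd_const_mul (d1 _),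
    dd_Fc _ hz0, dd_Fc _ hz0, Lm'_of_nonpos ((log_le_aux hR hp).2 hz),
    Lm'_of_nonpos ((log_le_aux hρ hp).2 (le_trans (by gcongr) hz))]
  ring

/-- half-open unit cell with lower left corner `(a, b)` -/
abbrev cel (a b : ℝ) : Set P := Ioc a (a + 1) ×ˢ Ioc b (b + 1)

/-- centre of the cell -/
noncomputable abbrev ctr (a b : ℝ) : P := (a + 1 / 2, b + 1 / 2)

theorem cel_far {a b : ℝ} {z : P} (hz : z ∉ cel a b) : (1 / 2) ^ 2 ≤ r2 (z - ctr a b) := by
  simp only [r2, Prod.fst_sub, Prod.snd_sub]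
  by_contra hc
  rw [not_le] at hc
  apply hz
  have h1 : (z.1 - (a + 1 / 2)) ^ 2 < (1 / 2) ^ 2 := by nlinarith [sq_nonneg (z.2 - (b + 1 / 2))]
  have h2 : (z.2 - (b + 1 / 2)) ^ 2 < (1 / 2) ^ 2 := by nlinarith [sq_nonneg (z.1 - (a + 1 / 2))]
  have h1' := abs_lt_of_sq_lt_sq h1 (by norm_num)
  have h2' := abs_lt_of_sq_lt_sq h2 (by norm_num)
  rw [abs_lt] at h1' h2'
  constructor
  · constructor
    · linarith [h1'.1]
    · linarith [h1'.2]
  · constructor
    · linarith [h2'.1]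
    · linarith [h2'.2]

theorem cel_meas (a b : ℝ) : MeasurableSet (cel a b) := measurableSet_Ioc.prod measurableSet_Ioc

theorem cel_vol (a b : ℝ) : volume (cel a b) = 1 := by
  rw [Measure.volume_eq_prod, Measure.prod_prod, Real.volume_Ioc, Real.volume_Ioc]
  simp

theorem cel_real (a b : ℝ) : volume.real (cel a b) = 1 := by
  rw [Measure.real, cel_vol]; rfl

theorem cell_ineq {φ : P → ℝ} (hφ : IsTest univ φ) {ρ L : ℝ} (hρ : 0 < ρ) (hρ' : ρ ≤ 1 / 2)
    (hL : 2 * Real.log ((1 / 2) / ρ) = L) (a b : ℝ) (h0 : av ρ φ (ctr a b) = 0) {e : ℝ}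
    (he : 0 < e) :
    ∫ z in cel a b, φ z ^ 2 ≤ (1 / 9 + (1 + e) * (L / mu0) + (1 + 1 / e) * (11 / mu0)) *
      ∫ z in cel a b, (dd ex φ z ^ 2 + dd ey φ z ^ 2) := by
  set S := cel a b with hS
  set c := ctr a b with hc
  have hSm : MeasurableSet S := cel_meas a b
  have hmu := mu0_pos
  have hfin : IsFiniteMeasure ((volume : Measure P).restrict S) :=
    ⟨by rw [Measure.restrict_apply_univ, cel_vol]; exact ENNReal.one_lt_top⟩
  have hvol1 : ∀ k : ℝ, ∫ z in S, k = k := by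
    intro k
    rw [setIntegral_const, cel_real, one_smul]
  have hφm : MemLp φ 2 (volume.restrict S) := hφ.memLp.mono_measure Measure.restrict_le_self
  have iφ : IntegrableOn φ S := hφ.integrable.integrableOn
  have iφ2 : IntegrableOn (fun z => φ z ^ 2) S := hφ.int_sq.integrableOn
  set E := ∫ z in S, (dd ex φ z ^ 2 + dd ey φ z ^ 2) with hE
  have iex : IntegrableOn (fun z => dd ex φ z ^ 2) S := (hφ.dd ex).int_sq.integrableOn
  have iey : IntegrableOn (fun z => dd ey φ z ^ 2) S := (hφ.dd ey).int_sq.integrableOn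
  have hEs : E = (∫ z in S, dd ex φ z ^ 2) + ∫ z in S, dd ey φ z ^ 2 := integral_add iex iey
  have hE0 : 0 ≤ E := integral_nonneg fun z => by positivity
  set m := ∫ z in S, φ z with hm
  set ψ : P → ℝ := fun z => φ z - m with hψ
  have hψs : ContDiff ℝ 1 ψ := hφ.isTest1.smooth.sub contDiff_const
  have hψd : ∀ v z, dd v ψ z = dd v φ z := by
    intro v z
    simp only [dd, hψ]
    rw [fderiv_sub_const]
  have hψm : MemLp ψ 2 (volume.restrict S) := hφm.sub (memLp_const m)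
  have hψ0 : ∫ z in S, ψ z = 0 := by
    simp only [hψ]
    rw [integral_sub iφ (integrable_const m), hvol1]; simp [hm]
  -- Poincare
  have hpc : ∫ z in S, ψ z ^ 2 ≤ 1 / 9 * E := by
    have := Rellich.cell hψs (a := a) (b := b) one_pos
    simp only [hψd] at this
    have h1 : ∫ z in Ioc a (a + 1) ×ˢ Ioc b (b + 1), ψ z = 0 := hψ0
    rw [h1] at this
    rw [hEs]
    have h2 : ∫ z in S, ψ z ^ 2 ≤ 1 ^ 2 / 9 * (∫ z in S, dd ex φ z ^ 2) +
      1 ^ 2 / 9 * (∫ z in S, dd ey φ z ^ 2) + 1 / 1 ^ 2 * 0 ^ 2 := this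
    linarith
  have hvar : ∫ z in S, ψ z ^ 2 = (∫ z in S, φ z ^ 2) - m ^ 2 := by
    have e1 : (fun z => ψ z ^ 2) = fun z => 1 * φ z ^ 2 + (-2 * m) * φ z + m ^ 2 * (1 : ℝ) := by
      ext z; simp only [hψ]; ring
    rw [e1, int3 iφ2 iφ (integrable_const 1), hvol1, ← hm]; ring
  have hψ2 : 0 ≤ ∫ z in S, ψ z ^ 2 := integral_nonneg fun z => sq_nonneg _
  -- the weighted mean
  set k : P → ℝ := fun z => mker (1 / 2) (z - c) with hk
  have hhalf : (0 : ℝ) < 1 / 2 := by norm_num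
  have hkm : MemLp k 2 volume := mkert_memLp hhalf c
  have hkm' : MemLp k 2 (volume.restrict S) := hkm.mono_measure Measure.restrict_le_self
  have hki : Integrable k := mkert_int hhalf c
  have hkz : ∀ z, z ∉ S → k z = 0 := fun z hz => mk_zero_out hhalf (cel_far hz)
  have hkS : ∫ z in S, k z = mu0 := by
    rw [setIntegral_eq_integral_of_forall_compl_eq_zero (fun z hz => hkz z hz)]
    exact mkert_mass hhalf c
  have hk2 : ∫ z in S, k z ^ 2 ≤ 96 * mu0 := by
    calc ∫ z in S, k z ^ 2 ≤ ∫ z in S, 96 * k z := by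
          apply integral_mono hkm'.integrable_sq (hki.integrableOn.const_mul _)
          intro z
          have h1 := mk_le hhalf (z - c)
          have h2 := mk_nonneg (1 / 2) (z - c)
          show k z ^ 2 ≤ 96 * k z
          have h3 : k z ≤ 96 := by
            refine h1.trans (le_of_eq ?_); norm_num
          have h4 : 0 ≤ k z := h2
          nlinarith
      _ = 96 * mu0 := by rw [integral_const_mul, hkS]
  set a1 := av (1 / 2) φ c with ha1
  have ha1S : a1 = ∫ z in S, φ z * k z := by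
    rw [setIntegral_eq_integral_of_forall_compl_eq_zero (fun z hz => by rw [hkz z hz, mul_zero])]
    rfl
  have hdif : ∫ z in S, ψ z * k z = a1 - m * mu0 := by
    have : (fun z => ψ z * k z) = fun z => φ z * k z - m * k z := by
      ext z; simp only [hψ]; ring
    rw [this, integral_sub (integrable_mul2 hφm hkm') (hki.integrableOn.const_mul m),
      integral_const_mul, hkS, ← ha1S]
  have hcs : (a1 - m * mu0) ^ 2 ≤ (∫ z in S, ψ z ^ 2) * (96 * mu0) := by
    have h1 : (∫ z in S, ψ z * k z) ^ 2 ≤ (∫ z in S, ψ z ^ 2) * ∫ z in S, k z ^ 2 := by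
      apply disc_cs
      intro t
      have h2 : 0 ≤ ∫ z in S, (ψ z + t * k z) ^ 2 := integral_nonneg fun z => sq_nonneg _
      have e1 : (fun z => (ψ z + t * k z) ^ 2) = fun z => 1 * ψ z ^ 2 + (2 * t) * (ψ z * k z)
        + t ^ 2 * k z ^ 2 := by ext z; ring
      rw [e1, int3 hψm.integrable_sq (integrable_mul2 hψm hkm') hkm'.integrable_sq] at h2
      nlinarith
    rw [hdif] at h1
    exact h1.trans (mul_le_mul_of_nonneg_left hk2 hψ2)
  -- the kernel identity
  have hgk := (H0.of_test hφ).test_gk hρ hρ' c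
  have hav1 : ∫ z, φ z * mker ρ (z - c) = 0 := h0
  have hav2 : ∫ z, φ z * mker (1 / 2) (z - c) = a1 := rfl
  rw [hav1, hav2, zero_sub] at hgk
  set gx : P → ℝ := fun z => dd ex (gk ρ (1 / 2)) (z - c) with hgx
  set gy : P → ℝ := fun z => dd ey (gk ρ (1 / 2)) (z - c) with hgy
  have htst := gkt_test hρ hρ' c
  have mgx : MemLp gx 2 volume := by
    have := IsTest1.dd_memLp htst ex
    refine (memLp_congr_ae (Eventually.of_forall fun z => ?_)).1 this
    exact dd_trans _ _ _ _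
  have mgy : MemLp gy 2 volume := by
    have := IsTest1.dd_memLp htst ey
    refine (memLp_congr_ae (Eventually.of_forall fun z => ?_)).1 this
    exact dd_trans _ _ _ _
  have hgxz : ∀ z, z ∉ S → gx z = 0 := fun z hz => dd_gk_outer hρ hρ' (cel_far hz) ex
  have hgyz : ∀ z, z ∉ S → gy z = 0 := fun z hz => dd_gk_outer hρ hρ' (cel_far hz) ey
  have hgS : ∫ z in S, (dd ex φ z * gx z + dd ey φ z * gy z) = - a1 := by
    rw [setIntegral_eq_integral_of_forall_compl_eq_zero (fun z hz => by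
      rw [hgxz z hz, hgyz z hz]; ring)]
    exact hgk
  have hen : ∫ z in S, (gx z ^ 2 + gy z ^ 2) ≤ L * mu0 := by
    rw [← hL]
    refine le_trans ?_ (gk_energy hρ hρ')
    have e1 : ∫ z, (gx z ^ 2 + gy z ^ 2)
        = ∫ z, (dd ex (gk ρ (1 / 2)) z ^ 2 + dd ey (gk ρ (1 / 2)) z ^ 2) :=
      integral_sub_right_eq_self (fun z => dd ex (gk ρ (1 / 2)) z ^ 2 + dd ey (gk ρ (1 / 2)) z ^ 2) c
    rw [← e1]
    exact setIntegral_le_integral (mgx.integrable_sq.add mgy.integrable_sq)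
      (Eventually.of_forall fun z => by
        show 0 ≤ gx z ^ 2 + gy z ^ 2
        positivity)
  have ha1sq : a1 ^ 2 ≤ E * (L * mu0) := by
    have h1 : (∫ z in S, (dd ex φ z * gx z + dd ey φ z * gy z)) ^ 2
        ≤ E * ∫ z in S, (gx z ^ 2 + gy z ^ 2) := by
      apply disc_cs
      intro t
      have h2 : 0 ≤ ∫ z in S, ((dd ex φ z + t * gx z) ^ 2 + (dd ey φ z + t * gy z) ^ 2) :=
        integral_nonneg fun z => by positivity
      have e1 : (fun z => (dd ex φ z + t * gx z) ^ 2 + (dd ey φ z + t * gy z) ^ 2)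
        = fun z => 1 * (dd ex φ z ^ 2 + dd ey φ z ^ 2)
          + (2 * t) * (dd ex φ z * gx z + dd ey φ z * gy z)
          + t ^ 2 * (gx z ^ 2 + gy z ^ 2) := by ext z; ring
      have i2 : IntegrableOn (fun z => dd ex φ z * gx z + dd ey φ z * gy z) S :=
        ((integrable_mul2 (hφ.dd ex).memLp mgx).add
          (integrable_mul2 (hφ.dd ey).memLp mgy)).integrableOn
      have i3 : IntegrableOn (fun z => gx z ^ 2 + gy z ^ 2) S :=
        (mgx.integrable_sq.add mgy.integrable_sq).integrableOn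
      have i1 : IntegrableOn (fun z => dd ex φ z ^ 2 + dd ey φ z ^ 2) S := iex.add iey
      rw [e1, int3 i1 i2 i3] at h2
      have h3 : 0 ≤ 1 * E + 2 * t * (∫ z in S, (dd ex φ z * gx z + dd ey φ z * gy z))
        + t ^ 2 * ∫ z in S, (gx z ^ 2 + gy z ^ 2) := h2
      nlinarith
    rw [hgS, neg_sq] at h1
    exact h1.trans (mul_le_mul_of_nonneg_left hen hE0)
  -- conclusion
  have q1 : (m * mu0) ^ 2 ≤ (1 + e) * a1 ^ 2 + (1 + 1 / e) * (a1 - m * mu0) ^ 2 := by
    have h1 : (1 + e) * a1 ^ 2 + (1 + 1 / e) * (a1 - m * mu0) ^ 2 - (m * mu0) ^ 2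
        = (e * a1 + (a1 - m * mu0)) ^ 2 / e := by
      field_simp; ring
    have h2 : 0 ≤ (e * a1 + (a1 - m * mu0)) ^ 2 / e := by positivity
    linarith
  have q2 : m ^ 2 ≤ ((1 + e) * (L / mu0) + (1 + 1 / e) * (11 / mu0)) * E := by
    have h1 : (m * mu0) ^ 2 ≤ ((1 + e) * (L * mu0) + (1 + 1 / e) * (11 * mu0)) * E := by
      have h2 : (a1 - m * mu0) ^ 2 ≤ 11 * mu0 * E := by
        refine hcs.trans ?_
        have : (∫ z in S, ψ z ^ 2) * (96 * mu0) ≤ (1 / 9 * E) * (96 * mu0) := by gcongr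
        refine this.trans ?_
        have h3 : 0 ≤ mu0 * E := by positivity
        nlinarith
      have h3 : (1 + 1 / e) * (a1 - m * mu0) ^ 2 ≤ (1 + 1 / e) * (11 * mu0 * E) := by gcongr
      have h4 : (1 + e) * a1 ^ 2 ≤ (1 + e) * (E * (L * mu0)) := by gcongr
      refine q1.trans ?_
      linarith
    have h5 : m ^ 2 = (m * mu0) ^ 2 / mu0 ^ 2 := by field_simp
    rw [h5, div_le_iff₀ (by positivity)]
    refine h1.trans (le_of_eq ?_)
    field_simp
  have q3 : ∫ z in S, φ z ^ 2 = (∫ z in S, ψ z ^ 2) + m ^ 2 := by linarith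
  rw [q3]
  linarith

end Pool.Agent.Lib.MP_f46d6a
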