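import Pool.Agent.Lib.MP_f46d6a_h93.Perf1
import Pool.Agent.Lib.MP_f46d6a.Defs

/-!
# Perforated domains II: the domain and its first eigenvalue
-/

set_option autoImplicit false

open MeasureTheory Set Filter Topology
open scoped ContDiff

namespace Pool.Agent.Lib.MP_f46d6a

open Pool.Agent.Lib.MP_dac83a

/-- index set of the cells -/
abbrev IX (N : ℕ) : Finset (ℕ × ℕ) := Finset.range N ×ˢ Finset.range N

/-- the cell with index `p` -/
abbrev pcel (p : ℕ × ℕ) : Set P := cel (p.1 : ℝ) (p.2 : ℝ)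
/-- its centre -/
noncomputable abbrev pctr (p : ℕ × ℕ) : P := ctr (p.1 : ℝ) (p.2 : ℝ)

/-- the open square of side `N` -/
abbrev Sqn (N : ℕ) : Set P := Ioo (0 : ℝ) N ×ˢ Ioo (0 : ℝ) N

theorem Ioc_nat_eq {x : ℝ} {i j : ℕ} (h1 : x ∈ Ioc (i : ℝ) (i + 1)) (h2 : x ∈ Ioc (j : ℝ) (j + 1)) :
    i = j := by
  have a1 : (i : ℝ) < j + 1 := lt_of_lt_of_le h1.1 h2.2
  have a2 : (j : ℝ) < i + 1 := lt_of_lt_of_le h2.1 h1.2
  have b1 : i < j + 1 := by exact_mod_cast a1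
  have b2 : j < i + 1 := by exact_mod_cast a2
  omega

theorem pcel_inj {z : P} {p q : ℕ × ℕ} (h1 : z ∈ pcel p) (h2 : z ∈ pcel q) : p = q :=
  Prod.ext (Ioc_nat_eq h1.1 h2.1) (Ioc_nat_eq h1.2 h2.2)

theorem exists_Ioc {x : ℝ} {N : ℕ} (hx : x ∈ Ioo (0 : ℝ) N) :
    ∃ i ∈ Finset.range N, x ∈ Ioc (i : ℝ) (i + 1) := by
  have h0 : 0 < ⌈x⌉₊ := Nat.ceil_pos.2 hx.1
  have h1 : ⌈x⌉₊ ≤ N := Nat.ceil_le.2 hx.2.le
  obtain ⟨k, hk⟩ : ∃ k, ⌈x⌉₊ = k + 1 := ⟨⌈x⌉₊ - 1, by omega⟩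
  refine ⟨k, ?_, ?_, ?_⟩
  · rw [Finset.mem_range]; omega
  · have : k < ⌈x⌉₊ := by omega
    exact Nat.lt_ceil.1 this
  · have := Nat.le_ceil x
    rw [hk] at this
    exact_mod_cast this

theorem exists_pcel {z : P} {N : ℕ} (hz : z ∈ Sqn N) : ∃ p ∈ IX N, z ∈ pcel p := by
  obtain ⟨i, hi, hi'⟩ := exists_Ioc hz.1
  obtain ⟨j, hj, hj'⟩ := exists_Ioc hz.2
  exact ⟨(i, j), Finset.mem_product.2 ⟨hi, hj⟩, hi', hj'⟩

/-- the perforated square -/
def Perf (ρ L : ℝ) (N : ℕ) : Set P :=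
  {z | z ∈ Sqn N ∧ ∀ p ∈ IX N, gk ρ (1 / 2) (z - pctr p) < L - 1}

theorem Perf_open {ρ L : ℝ} (hρ : 0 < ρ) (hρ' : ρ ≤ 1 / 2) (N : ℕ) : IsOpen (Perf ρ L N) := by
  have e : Perf ρ L N = Sqn N ∩ ⋂ p ∈ IX N, {z : P | gk ρ (1 / 2) (z - pctr p) < L - 1} := by
    ext z; simp only [Perf, mem_ofPred_eq, mem_inter_iff, mem_iInter]
  rw [e]
  apply (isOpen_Ioo.prod isOpen_Ioo).inter
  apply isOpen_biInter_finset
  intro p _
  apply isOpen_lt _ continuous_const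
  exact (gk_contDiff hρ hρ').continuous.comp (by fun_prop)

theorem Perf_vol (ρ L : ℝ) (N : ℕ) : volume (Perf ρ L N) ≤ ENNReal.ofReal ((N : ℝ) ^ 2) := by
  refine (measure_mono (fun z hz => hz.1)).trans (le_of_eq ?_)
  rw [Measure.volume_eq_prod, Measure.prod_prod, Real.volume_Ioo, sub_zero,
    ← ENNReal.ofReal_mul (by positivity), sq]

theorem Perf_fin (ρ L : ℝ) (N : ℕ) : volume (Perf ρ L N) ≠ ⊤ :=
  ne_top_of_le_ne_top ENNReal.ofReal_ne_top (Perf_vol ρ L N)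

theorem Perf_vol_real (ρ L : ℝ) (N : ℕ) : (volume (Perf ρ L N)).toReal ≤ (N : ℝ) ^ 2 := by
  have := ENNReal.toReal_mono ENNReal.ofReal_ne_top (Perf_vol ρ L N)
  rwa [ENNReal.toReal_ofReal (by positivity)] at this

/-- test functions in the perforated square have vanishing averages -/
theorem av_zero {ρ L : ℝ} (hρ : 0 < ρ) (hρ' : ρ ≤ 1 / 2) (hL : 2 * Real.log ((1 / 2) / ρ) = L)
    {N : ℕ} {φ : P → ℝ} (hφ : IsTest (Perf ρ L N) φ) {p : ℕ × ℕ} (hp : p ∈ IX N) :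
    av ρ φ (pctr p) = 0 := by
  unfold av
  rw [show (fun z => φ z * mker ρ (z - pctr p)) = fun _ => (0 : ℝ) from ?_, integral_zero]
  ext z
  by_cases hz : r2 (z - pctr p) ≤ ρ ^ 2
  · have : φ z = 0 := by
      by_contra h
      have h1 := (hφ.sub (subset_tsupport _ h)).2 p hp
      have h2 := gk_lower hρ hρ' hz
      rw [hL] at h2
      linarith
    rw [this, zero_mul]
  · rw [mk_zero_out hρ (not_le.1 hz).le, mul_zero]

/-- the constant in the cell inequality -/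
noncomputable def Kc (L e : ℝ) : ℝ := 1 / 9 + (1 + e) * (L / mu0) + (1 + 1 / e) * (11 / mu0)

theorem Perf_poincare {ρ L : ℝ} (hρ : 0 < ρ) (hρ' : ρ ≤ 1 / 2)
    (hL : 2 * Real.log ((1 / 2) / ρ) = L) {N : ℕ} {φ : P → ℝ} (hφ : IsTest (Perf ρ L N) φ)
    {e : ℝ} (he : 0 < e) (hK : 0 ≤ Kc L e) : Nm φ ≤ Kc L e * En φ := by
  have hφu := hφ.mono (subset_univ _)
  set T : Set P := ⋃ p ∈ IX N, pcel p with hT
  have hTm : MeasurableSet T := Finset.measurableSet_biUnion _ (fun p _ => cel_meas _ _)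
  have hpd : Set.Pairwise (↑(IX N)) (Function.onFun Disjoint pcel) := by
    intro p _ q _ hpq
    rw [Function.onFun, Set.disjoint_left]
    intro z h1 h2
    exact hpq (pcel_inj h1 h2)
  have e1 : Nm φ = ∑ p ∈ IX N, ∫ z in pcel p, φ z ^ 2 := by
    rw [← integral_biUnion_finset _ (fun p _ => cel_meas _ _) hpd
      (fun p _ => hφu.int_sq.integrableOn)]
    rw [setIntegral_eq_integral_of_forall_compl_eq_zero]
    · rfl
    · intro z hz
      have : φ z = 0 := by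
        by_contra h
        have h1 := (hφ.sub (subset_tsupport _ h)).1
        obtain ⟨p, hp, hp'⟩ := exists_pcel h1
        exact hz (mem_iUnion₂.2 ⟨p, hp, hp'⟩)
      rw [this]; ring
  have hen : Integrable (fun z => dd ex φ z ^ 2 + dd ey φ z ^ 2) := tint_en hφu
  have e2 : ∑ p ∈ IX N, ∫ z in pcel p, (dd ex φ z ^ 2 + dd ey φ z ^ 2) ≤ En φ := by
    rw [← integral_biUnion_finset _ (fun p _ => cel_meas _ _) hpd
      (fun p _ => hen.integrableOn)]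
    exact setIntegral_le_integral hen (Eventually.of_forall fun z => by
      show 0 ≤ dd ex φ z ^ 2 + dd ey φ z ^ 2
      positivity)
  rw [e1]
  calc ∑ p ∈ IX N, ∫ z in pcel p, φ z ^ 2
      ≤ ∑ p ∈ IX N, Kc L e * ∫ z in pcel p, (dd ex φ z ^ 2 + dd ey φ z ^ 2) := by
        apply Finset.sum_le_sum
        intro p hp
        exact cell_ineq hφu hρ hρ' hL _ _ (av_zero hρ hρ' hL hφ hp) he
    _ = Kc L e * ∑ p ∈ IX N, ∫ z in pcel p, (dd ex φ z ^ 2 + dd ey φ z ^ 2) := by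
        rw [Finset.mul_sum]
    _ ≤ _ := by gcongr

theorem Kc_pos {L e : ℝ} (hL : 0 ≤ L) (he : 0 < e) : 0 < Kc L e := by
  have := mu0_pos
  unfold Kc
  positivity

theorem Perf_lam {ρ L : ℝ} (hρ : 0 < ρ) (hρ' : ρ ≤ 1 / 2)
    (hL : 2 * Real.log ((1 / 2) / ρ) = L) {N : ℕ} (hne : (Perf ρ L N).Nonempty)
    {e : ℝ} (he : 0 < e) : 1 / Kc L e ≤ lamP (Perf ρ L N) := by
  have hL0 : 0 ≤ L := by rw [← hL]; exact log_ratio_nonneg hρ hρ'
  have hK := Kc_pos hL0 he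
  apply lamP_ge (Perf_open hρ hρ' N) hne
  intro φ hφ
  have := Perf_poincare hρ hρ' hL hφ he hK.le
  rw [one_div, inv_mul_le_iff₀ hK]
  exact this

end Pool.Agent.Lib.MP_f46d6a
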