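import Pool.Agent.Lib.MP_f46d6a_h93.Perf2

/-!
# Perforated domains III: profile, cut-off
-/

set_option autoImplicit false

open MeasureTheory Set Filter Topology
open scoped ContDiff

namespace Pool.Agent.Lib.MP_f46d6a

open Pool.Agent.Lib.MP_dac83a

/-- the integral of the kernel potential is bounded -/
theorem gk_int_le {ρ R : ℝ} (hρ : 0 < ρ) (h : ρ ≤ R) : ∫ z, gk ρ R z ≤ R ^ 2 * mu0 / 4 := by
  have hR : 0 < R := hρ.trans_le h
  have key := ibp2 isOpen_univ (W := r2) r2_contDiff.contDiffOn (gk_contDiff hρ h) (gk_cpt hρ h)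
    (subset_univ _)
  have e1 : ∀ z, lap r2 z = 4 := by
    intro z
    simp only [lap]
    rw [dd_dd_r2_x, dd_dd_r2_y]; norm_num
  simp only [e1, lap_gk hρ h] at key
  rw [integral_mul_const] at key
  have i1 : ∀ {t : ℝ}, 0 < t → Integrable (fun z => r2 z * mker t z) := by
    intro t ht
    exact (r2_cont.mul (mk_cont ht)).integrable_of_hasCompactSupport (mk_cpt ht).mul_left
  have e2 : (fun z => r2 z * (mker R z - mker ρ z)) = fun z => r2 z * mker R z - r2 z * mker ρ z := by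
    ext z; ring
  rw [e2, integral_sub (i1 hR) (i1 hρ)] at key
  have h1 : ∫ z, r2 z * mker R z ≤ R ^ 2 * mu0 := by
    rw [← mk_mass hR, ← integral_const_mul]
    apply integral_mono (i1 hR) ((mk_int hR).const_mul _)
    intro z
    rcases le_total (R ^ 2) (r2 z) with h2 | h2
    · simp [mk_zero_out hR h2]
    · exact mul_le_mul_of_nonneg_right h2 (mk_nonneg _ _)
  have h2 : 0 ≤ ∫ z, r2 z * mker ρ z :=
    integral_nonneg fun z => mul_nonneg (r2_nonneg z) (mk_nonneg _ _)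
  linarith

/-- the profile around one hole -/
noncomputable def qh (ρ L : ℝ) (z : P) : ℝ := 1 - Lm (L - 2 - gk ρ (1 / 2) z) / Lm (L - 2)

section profile

variable {ρ L : ℝ}

theorem Lm_L_ge (hL4 : 4 ≤ L) : L - 3 ≤ Lm (L - 2) := by
  have := Lm_ge (L - 2); linarith

theorem Lm_L_pos (hL4 : 4 ≤ L) : 0 < Lm (L - 2) := by
  have := Lm_L_ge hL4; linarith

theorem qh_contDiff (hρ : 0 < ρ) (hρ' : ρ ≤ 1 / 2) : ContDiff ℝ 1 (qh ρ L) := by
  unfold qh
  apply contDiff_const.sub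
  apply ContDiff.div_const
  exact Lm_contDiff1.comp (contDiff_const.sub ((gk_contDiff hρ hρ').of_le (by norm_num)))

theorem qh_zero (hρ : 0 < ρ) (hρ' : ρ ≤ 1 / 2) (hL4 : 4 ≤ L) {z : P}
    (hz : (1 / 2) ^ 2 ≤ r2 z) : qh ρ L z = 0 := by
  unfold qh
  rw [gk_outer hρ hρ' hz, sub_zero, div_self (Lm_L_pos hL4).ne', sub_self]

theorem qh_one {z : P} (hz : L - 2 ≤ gk ρ (1 / 2) z) : qh ρ L z = 1 := by
  unfold qh
  rw [Lm_of_nonpos (by linarith), zero_div, sub_zero]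

theorem qh_nonneg (hρ : 0 < ρ) (hρ' : ρ ≤ 1 / 2) (hL4 : 4 ≤ L) (z : P) : 0 ≤ qh ρ L z := by
  unfold qh
  have h1 := gk_nonneg hρ hρ' z
  have h2 : Lm (L - 2 - gk ρ (1 / 2) z) ≤ Lm (L - 2) := Lm_mono (by linarith)
  have h3 := Lm_L_pos hL4
  rw [sub_nonneg, div_le_one h3]
  exact h2

theorem qh_le_one (hL4 : 4 ≤ L) (z : P) : qh ρ L z ≤ 1 := by
  unfold qh
  have h3 := Lm_L_pos hL4
  have := div_nonneg (Lm_nonneg (L - 2 - gk ρ (1 / 2) z)) h3.le
  linarith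

theorem qh_le (hL4 : 4 ≤ L) (z : P) :
    qh ρ L z ≤ (1 + gk ρ (1 / 2) z) / (L - 2) := by
  unfold qh
  have h3 := Lm_L_pos hL4
  have h4 : Lm (L - 2) ≤ L - 2 := Lm_le (by linarith)
  have h5 := Lm_ge (L - 2 - gk ρ (1 / 2) z)
  have h6 := Lm_nonneg (L - 2 - gk ρ (1 / 2) z)
  have hL2 : 0 < L - 2 := by linarith
  have h7 : Lm (L - 2 - gk ρ (1 / 2) z) / (L - 2) ≤ Lm (L - 2 - gk ρ (1 / 2) z) / Lm (L - 2) :=
    div_le_div_of_nonneg_left h6 h3 h4
  have h8 : 1 - Lm (L - 2 - gk ρ (1 / 2) z) / (L - 2) ≤ (1 + gk ρ (1 / 2) z) / (L - 2) := by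
    rw [le_div_iff₀ hL2, sub_mul, div_mul_cancel₀ _ hL2.ne']
    linarith
  linarith

theorem qh_support (hρ : 0 < ρ) (hρ' : ρ ≤ 1 / 2) (hL4 : 4 ≤ L) :
    Function.support (qh ρ L) ⊆ Metric.closedBall 0 (1 / 2) := by
  intro z hz
  by_contra hc
  apply hz
  apply qh_zero hρ hρ' hL4
  rw [Metric.mem_closedBall, dist_zero_right, not_le] at hc
  have := norm_sq_le_r2 z
  nlinarith

theorem qh_cpt (hρ : 0 < ρ) (hρ' : ρ ≤ 1 / 2) (hL4 : 4 ≤ L) : HasCompactSupport (qh ρ L) :=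
  HasCompactSupport.intro (isCompact_closedBall 0 (1 / 2)) (fun z hz => by
    by_contra h'; exact hz (qh_support hρ hρ' hL4 h'))

theorem qh_test (hρ : 0 < ρ) (hρ' : ρ ≤ 1 / 2) (hL4 : 4 ≤ L) : IsTest1 univ (qh ρ L) :=
  ⟨qh_contDiff hρ hρ', qh_cpt hρ hρ' hL4, subset_univ _⟩

theorem qh_int (hρ : 0 < ρ) (hρ' : ρ ≤ 1 / 2) (hL4 : 4 ≤ L) : Integrable (qh ρ L) :=
  (qh_contDiff hρ hρ').continuous.integrable_of_hasCompactSupport (qh_cpt hρ hρ' hL4)

theorem qh_integral (hρ : 0 < ρ) (hρ' : ρ ≤ 1 / 2) (hL4 : 4 ≤ L) :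
    ∫ z, qh ρ L z ≤ (1 + mu0) / (L - 2) := by
  have hL2 : 0 < L - 2 := by linarith
  have hg : Integrable (gk ρ (1 / 2)) :=
    (gk_contDiff hρ hρ').continuous.integrable_of_hasCompactSupport (gk_cpt hρ hρ')
  have h1 : ∫ z, qh ρ L z = ∫ z in Metric.closedBall (0 : P) (1 / 2), qh ρ L z := by
    rw [setIntegral_eq_integral_of_forall_compl_eq_zero]
    intro z hz
    by_contra h
    exact hz (qh_support hρ hρ' hL4 h)
  have hgi : IntegrableOn (gk ρ (1 / 2)) (Metric.closedBall (0 : P) (1 / 2)) := hg.integrableOn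
  have h1i : IntegrableOn (fun _ : P => (1 : ℝ)) (Metric.closedBall (0 : P) (1 / 2)) :=
    integrableOn_const measure_closedBall_lt_top.ne
  have h2 : ∫ z in Metric.closedBall (0 : P) (1 / 2), qh ρ L z
      ≤ ∫ z in Metric.closedBall (0 : P) (1 / 2), (1 + gk ρ (1 / 2) z) / (L - 2) := by
    apply integral_mono (qh_int hρ hρ' hL4).integrableOn ((h1i.add hgi).div_const _)
    intro z
    exact qh_le hL4 z
  have h3 : ∫ z in Metric.closedBall (0 : P) (1 / 2), (1 + gk ρ (1 / 2) z) / (L - 2)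
      ≤ (1 + mu0) / (L - 2) := by
    rw [integral_div]
    apply div_le_div_of_nonneg_right _ hL2.le
    rw [integral_add h1i hgi, setIntegral_const, vol_closedBall 0 (by norm_num)]
    have h4 : ∫ z in Metric.closedBall (0 : P) (1 / 2), gk ρ (1 / 2) z ≤ ∫ z, gk ρ (1 / 2) z :=
      setIntegral_le_integral hg (Eventually.of_forall fun z => gk_nonneg hρ hρ' z)
    have h5 := gk_int_le hρ hρ'
    have := mu0_pos
    simp only [smul_eq_mul]
    linarith
  linarith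

theorem dd_qh (hρ : 0 < ρ) (hρ' : ρ ≤ 1 / 2) (v z : P) :
    dd v (qh ρ L) z = Lm' (L - 2 - gk ρ (1 / 2) z) * dd v (gk ρ (1 / 2)) z / Lm (L - 2) := by
  have dg : DifferentiableAt ℝ (gk ρ (1 / 2)) z :=
    (gk_contDiff hρ hρ').differentiable (by norm_num) z
  have h1 : DifferentiableAt ℝ (fun z => L - 2 - gk ρ (1 / 2) z) z := dg.const_sub _
  have e0 : (fun z => L - 2 - gk ρ (1 / 2) z) = fun z => (L - 2) - 1 * gk ρ (1 / 2) z := by
    ext z; ring
  have e1 : dd v (fun z => L - 2 - gk ρ (1 / 2) z) z = - dd v (gk ρ (1 / 2)) z := by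
    simp only [dd]
    rw [fderiv_const_sub]
    rfl
  have e2 : dd v (fun z => Lm (L - 2 - gk ρ (1 / 2) z)) z
      = Lm' (L - 2 - gk ρ (1 / 2) z) * - dd v (gk ρ (1 / 2)) z := by
    rw [dd_comp (F := Lm) (Lm_hasDeriv _).differentiableAt h1, (Lm_hasDeriv _).deriv, e1]
  have dL : DifferentiableAt ℝ (fun z => Lm (L - 2 - gk ρ (1 / 2) z)) z :=
    (Lm_hasDeriv _).differentiableAt.comp z h1
  have e3 : qh ρ L = fun z => 1 - (1 / Lm (L - 2)) * Lm (L - 2 - gk ρ (1 / 2) z) := by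
    ext z; unfold qh; ring
  rw [e3]
  have e4 : dd v (fun z => 1 - (1 / Lm (L - 2)) * Lm (L - 2 - gk ρ (1 / 2) z)) z
      = - dd v (fun z => (1 / Lm (L - 2)) * Lm (L - 2 - gk ρ (1 / 2) z)) z := by
    simp only [dd]
    rw [fderiv_const_sub]
    rfl
  rw [e4, dd_const_mul dL, e2]
  ring

theorem dd_qh_sq (hρ : 0 < ρ) (hρ' : ρ ≤ 1 / 2) (hL4 : 4 ≤ L) (v z : P) :
    dd v (qh ρ L) z ^ 2 ≤ dd v (gk ρ (1 / 2)) z ^ 2 / (L - 3) ^ 2 := by
  have hL3 : 0 < L - 3 := by linarith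
  rw [dd_qh hρ hρ', div_pow, mul_pow]
  have h1 : Lm' (L - 2 - gk ρ (1 / 2) z) ^ 2 ≤ 1 := by
    have a := Lm'_nonneg (L - 2 - gk ρ (1 / 2) z)
    have b := Lm'_le_one (L - 2 - gk ρ (1 / 2) z)
    nlinarith
  have h2 : Lm' (L - 2 - gk ρ (1 / 2) z) ^ 2 * dd v (gk ρ (1 / 2)) z ^ 2
      ≤ dd v (gk ρ (1 / 2)) z ^ 2 := by
    nlinarith [sq_nonneg (dd v (gk ρ (1 / 2)) z)]
  apply div_le_div₀ (sq_nonneg _) h2 (by positivity)
  exact pow_le_pow_left₀ hL3.le (Lm_L_ge hL4) 2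

theorem qh_energy (hρ : 0 < ρ) (hρ' : ρ ≤ 1 / 2) (hL : 2 * Real.log ((1 / 2) / ρ) = L)
    (hL4 : 4 ≤ L) :
    (∫ z, dd ex (qh ρ L) z ^ 2) + (∫ z, dd ey (qh ρ L) z ^ 2) ≤ L * mu0 / (L - 3) ^ 2 := by
  have hL3 : 0 < L - 3 := by linarith
  have tg := gk_test hρ hρ'
  have tq := qh_test hρ hρ' hL4
  have b : ∀ v, ∫ z, dd v (qh ρ L) z ^ 2 ≤ (∫ z, dd v (gk ρ (1 / 2)) z ^ 2) / (L - 3) ^ 2 := by
    intro v
    rw [← integral_div]
    apply integral_mono (IsTest1.dd_memLp tq v).integrable_sq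
      ((IsTest1.dd_memLp tg v).integrable_sq.div_const _)
    intro z
    exact dd_qh_sq hρ hρ' hL4 v z
  have h1 := gk_energy hρ hρ'
  rw [hL, integral_add (IsTest1.dd_memLp tg ex).integrable_sq
    (IsTest1.dd_memLp tg ey).integrable_sq] at h1
  calc _ ≤ (∫ z, dd ex (gk ρ (1 / 2)) z ^ 2) / (L - 3) ^ 2
        + (∫ z, dd ey (gk ρ (1 / 2)) z ^ 2) / (L - 3) ^ 2 := add_le_add (b ex) (b ey)
    _ = ((∫ z, dd ex (gk ρ (1 / 2)) z ^ 2) + ∫ z, dd ey (gk ρ (1 / 2)) z ^ 2) / (L - 3) ^ 2 := by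
        rw [add_div]
    _ ≤ _ := by gcongr

end profile

/-! ### One-dimensional cut-off -/

/-- one-dimensional cut-off -/
noncomputable def Sg (N h : ℝ) (t : ℝ) : ℝ := Lm' (t / h - 1) * Lm' ((N - t) / h - 1)

section cutoff

variable {N h : ℝ}

theorem Sg_deriv (t : ℝ) : HasDerivAt (Sg N h)
    (bb (t / h - 1) * (1 / h) * Lm' ((N - t) / h - 1)
      + Lm' (t / h - 1) * (bb ((N - t) / h - 1) * (-1 / h))) t := by
  have h1 : HasDerivAt (fun t : ℝ => t / h - 1) (1 / h) t :=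
    ((hasDerivAt_id t).div_const h).sub_const 1
  have h2 : HasDerivAt (fun t : ℝ => (N - t) / h - 1) (-1 / h) t :=
    (((hasDerivAt_id t).const_sub N).div_const h).sub_const 1
  exact ((Lm'_hasDeriv _).comp t h1).mul ((Lm'_hasDeriv _).comp t h2)

theorem Sg_contDiff : ContDiff ℝ 1 (Sg N h) := by
  unfold Sg
  exact (Lm'_contDiff.comp (by fun_prop)).mul (Lm'_contDiff.comp (by fun_prop))

theorem Sg_nonneg (t : ℝ) : 0 ≤ Sg N h t := mul_nonneg (Lm'_nonneg _) (Lm'_nonneg _)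
theorem Sg_le_one (t : ℝ) : Sg N h t ≤ 1 :=
  mul_le_one₀ (Lm'_le_one _) (Lm'_nonneg _) (Lm'_le_one _)

theorem Sg_deriv_le (hh : 0 < h) (t : ℝ) : |deriv (Sg N h) t| ≤ 4 / h := by
  rw [(Sg_deriv t).deriv]
  have a1 := bb_nonneg (t / h - 1)
  have a2 := bb_le (t / h - 1)
  have b1 := bb_nonneg ((N - t) / h - 1)
  have b2 := bb_le ((N - t) / h - 1)
  have c1 := Lm'_nonneg (t / h - 1)
  have c2 := Lm'_le_one (t / h - 1)
  have d1 := Lm'_nonneg ((N - t) / h - 1)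
  have d2 := Lm'_le_one ((N - t) / h - 1)
  have e : bb (t / h - 1) * (1 / h) * Lm' ((N - t) / h - 1)
      + Lm' (t / h - 1) * (bb ((N - t) / h - 1) * (-1 / h))
      = (bb (t / h - 1) * Lm' ((N - t) / h - 1) - Lm' (t / h - 1) * bb ((N - t) / h - 1)) / h := by
    ring
  rw [e, abs_div, abs_of_pos hh]
  apply div_le_div_of_nonneg_right _ hh.le
  rw [abs_le]
  have x1 : bb (t / h - 1) * Lm' ((N - t) / h - 1) ≤ 2 * 1 := mul_le_mul a2 d2 d1 (by norm_num)
  have x2 : Lm' (t / h - 1) * bb ((N - t) / h - 1) ≤ 1 * 2 := mul_le_mul c2 b2 b1 (by norm_num)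
  have y1 : 0 ≤ bb (t / h - 1) * Lm' ((N - t) / h - 1) := mul_nonneg a1 d1
  have y2 : 0 ≤ Lm' (t / h - 1) * bb ((N - t) / h - 1) := mul_nonneg c1 b1
  constructor <;> linarith

theorem Sg_zero (hh : 0 < h) {t : ℝ} (ht : t ∉ Icc h (N - h)) : Sg N h t = 0 := by
  unfold Sg
  rw [mem_Icc, not_and_or, not_le, not_le] at ht
  rcases ht with ht | ht
  · rw [Lm'_of_nonpos, zero_mul]
    rw [sub_nonpos, div_le_one hh]; exact ht.le
  · rw [Lm'_of_nonpos (t := (N - t) / h - 1), mul_zero]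
    rw [sub_nonpos, div_le_one hh]; linarith

theorem Sg_one (hh : 0 < h) {t : ℝ} (ht : t ∈ Icc (2 * h) (N - 2 * h)) : Sg N h t = 1 := by
  unfold Sg
  rw [Lm'_of_one_le, Lm'_of_one_le, one_mul]
  · rw [le_sub_iff_add_le, le_div_iff₀ hh]; linarith [ht.2]
  · rw [le_sub_iff_add_le, le_div_iff₀ hh]; linarith [ht.1]

/-- two-dimensional cut-off -/
noncomputable def Ch (N h : ℝ) (z : P) : ℝ := Sg N h z.1 * Sg N h z.2

theorem Ch_contDiff : ContDiff ℝ 1 (Ch N h) := by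
  unfold Ch
  exact (Sg_contDiff.comp contDiff_fst).mul (Sg_contDiff.comp contDiff_snd)

theorem Ch_nonneg (z : P) : 0 ≤ Ch N h z := mul_nonneg (Sg_nonneg _) (Sg_nonneg _)
theorem Ch_le_one (z : P) : Ch N h z ≤ 1 := mul_le_one₀ (Sg_le_one _) (Sg_nonneg _) (Sg_le_one _)

theorem Ch_zero (hh : 0 < h) {z : P} (hz : z ∉ Icc h (N - h) ×ˢ Icc h (N - h)) : Ch N h z = 0 := by
  unfold Ch
  rw [Set.mem_prod, not_and_or] at hz
  rcases hz with hz | hz
  · rw [Sg_zero hh hz, zero_mul]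
  · rw [Sg_zero hh hz, mul_zero]

theorem Ch_tsupport (hh : 0 < h) : tsupport (Ch N h) ⊆ Icc h (N - h) ×ˢ Icc h (N - h) := by
  apply closure_minimal _ (isClosed_Icc.prod isClosed_Icc)
  intro z hz
  by_contra hc
  exact hz (Ch_zero hh hc)

theorem Ch_cpt (hh : 0 < h) : HasCompactSupport (Ch N h) :=
  HasCompactSupport.intro (isCompact_Icc.prod isCompact_Icc) (fun z hz => Ch_zero hh hz)

theorem Ch_test (hh : 0 < h) : IsTest1 univ (Ch N h) := ⟨Ch_contDiff, Ch_cpt hh, subset_univ _⟩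

theorem Ch_dd_x (z : P) : dd ex (Ch N h) z = deriv (Sg N h) z.1 * Sg N h z.2 := by
  have d1 : DifferentiableAt ℝ (fun z : P => Sg N h z.1) z :=
    (Sg_contDiff.differentiable (by norm_num) _).comp z differentiableAt_fst
  have d2 : DifferentiableAt ℝ (fun z : P => Sg N h z.2) z :=
    (Sg_contDiff.differentiable (by norm_num) _).comp z differentiableAt_snd
  have e1 : dd ex (fun z : P => Sg N h z.1) z = deriv (Sg N h) z.1 := by
    rw [dd_comp (Sg_contDiff.differentiable (by norm_num) _) differentiableAt_fst]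
    simp [dd, fderiv_fst]
  have e2 : dd ex (fun z : P => Sg N h z.2) z = 0 := by
    rw [dd_comp (Sg_contDiff.differentiable (by norm_num) _) differentiableAt_snd]
    simp [dd, fderiv_snd]
  rw [show Ch N h = fun z => Sg N h z.1 * Sg N h z.2 from rfl, dd_mul d1 d2, e1, e2]
  ring

theorem Ch_dd_y (z : P) : dd ey (Ch N h) z = Sg N h z.1 * deriv (Sg N h) z.2 := by
  have d1 : DifferentiableAt ℝ (fun z : P => Sg N h z.1) z :=
    (Sg_contDiff.differentiable (by norm_num) _).comp z differentiableAt_fst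
  have d2 : DifferentiableAt ℝ (fun z : P => Sg N h z.2) z :=
    (Sg_contDiff.differentiable (by norm_num) _).comp z differentiableAt_snd
  have e1 : dd ey (fun z : P => Sg N h z.1) z = 0 := by
    rw [dd_comp (Sg_contDiff.differentiable (by norm_num) _) differentiableAt_fst]
    simp [dd, fderiv_fst]
  have e2 : dd ey (fun z : P => Sg N h z.2) z = deriv (Sg N h) z.2 := by
    rw [dd_comp (Sg_contDiff.differentiable (by norm_num) _) differentiableAt_snd]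
    simp [dd, fderiv_snd]
  rw [show Ch N h = fun z => Sg N h z.1 * Sg N h z.2 from rfl, dd_mul d1 d2, e1, e2]
  ring

theorem sq_prod_le {a b c : ℝ} (ha : |a| ≤ c) (hb0 : 0 ≤ b) (hb : b ≤ 1) :
    (a * b) ^ 2 ≤ c ^ 2 := by
  have hc : 0 ≤ c := (abs_nonneg a).trans ha
  rw [← sq_abs, abs_mul, abs_of_nonneg hb0]
  apply pow_le_pow_left₀ (by positivity)
  calc |a| * b ≤ c * 1 := by gcongr
    _ = c := mul_one c

/-- energy of the cut-off -/
theorem Ch_energy (hh : 0 < h) (hN : 2 * h ≤ N) :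
    (∫ z, dd ex (Ch N h) z ^ 2) + (∫ z, dd ey (Ch N h) z ^ 2) ≤ 32 * N ^ 2 / h ^ 2 := by
  have hNp : 0 < N := by linarith
  set K : Set P := Icc h (N - h) ×ˢ Icc h (N - h) with hK
  have hKc : IsCompact K := isCompact_Icc.prod isCompact_Icc
  have hvol : volume.real K ≤ N ^ 2 := by
    rw [hK, Measure.real, Measure.volume_eq_prod, Measure.prod_prod, Real.volume_Icc,
      ← ENNReal.ofReal_mul (by linarith), ENNReal.toReal_ofReal (by nlinarith)]
    nlinarith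
  have gen : ∀ v, (∀ z, dd v (Ch N h) z ^ 2 ≤ (4 / h) ^ 2) →
      ∫ z, dd v (Ch N h) z ^ 2 ≤ 16 * N ^ 2 / h ^ 2 := by
    intro v hv
    have e : ∫ z, dd v (Ch N h) z ^ 2 = ∫ z in K, dd v (Ch N h) z ^ 2 := by
      rw [setIntegral_eq_integral_of_forall_compl_eq_zero]
      intro z hz
      rw [dd_zero_of_notMem_tsupport (fun h => hz (Ch_tsupport hh h))]; ring
    rw [e]
    calc ∫ z in K, dd v (Ch N h) z ^ 2 ≤ ∫ z in K, (4 / h) ^ 2 := by
          apply integral_mono (IsTest1.dd_memLp (Ch_test hh) v).integrable_sq.integrableOn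
            (integrableOn_const hKc.measure_ne_top)
          intro z
          exact hv z
      _ = volume.real K * (4 / h) ^ 2 := by rw [setIntegral_const, smul_eq_mul]
      _ ≤ N ^ 2 * (4 / h) ^ 2 := by gcongr
      _ = 16 * N ^ 2 / h ^ 2 := by field_simp; ring
  have h1 := gen ex (fun z => by
    rw [Ch_dd_x]
    exact sq_prod_le (Sg_deriv_le hh _) (Sg_nonneg _) (Sg_le_one _))
  have h2 := gen ey (fun z => by
    rw [Ch_dd_y, mul_comm]
    exact sq_prod_le (Sg_deriv_le hh _) (Sg_nonneg _) (Sg_le_one _))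
  calc _ ≤ 16 * N ^ 2 / h ^ 2 + 16 * N ^ 2 / h ^ 2 := add_le_add h1 h2
    _ = _ := by ring

theorem Ch_int (hh : 0 < h) : Integrable (Ch N h) :=
  Ch_contDiff.continuous.integrable_of_hasCompactSupport (Ch_cpt hh)

/-- integral of the cut-off -/
theorem Ch_integral (hh : 0 < h) (hN : 4 * h ≤ N) : (N - 4 * h) ^ 2 ≤ ∫ z, Ch N h z := by
  set K : Set P := Icc (2 * h) (N - 2 * h) ×ˢ Icc (2 * h) (N - 2 * h) with hK
  have hKm : MeasurableSet K := measurableSet_Icc.prod measurableSet_Icc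
  have hvol : volume.real K = (N - 4 * h) ^ 2 := by
    rw [hK, Measure.real, Measure.volume_eq_prod, Measure.prod_prod, Real.volume_Icc,
      ← ENNReal.ofReal_mul (by linarith), ENNReal.toReal_ofReal (by nlinarith)]
    ring
  have h1 : ∫ z in K, Ch N h z = (N - 4 * h) ^ 2 := by
    rw [← hvol, setIntegral_congr_fun hKm (g := fun _ => (1 : ℝ)), setIntegral_const, smul_eq_mul,
      mul_one]
    intro z hz
    show Sg N h z.1 * Sg N h z.2 = 1
    rw [Sg_one hh hz.1, Sg_one hh hz.2, one_mul]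
  rw [← h1]
  exact setIntegral_le_integral (Ch_int hh) (Eventually.of_forall fun z => Ch_nonneg z)

end cutoff

end Pool.Agent.Lib.MP_f46d6a
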